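import Pool.Agent.R228.BD.Stm

/-! # MP_ed2581_pr, pieces V0 and V1: the Gaussian tail and one block -/

set_option autoImplicit false

open MeasureTheory ProbabilityTheory Filter Topology
open scoped NNReal ENNReal

namespace Pool.Agent.R228.BD

open Pool.Agent.R228.BS (E IsBrownianVec natFilt)

theorem stmV0 : StmV0 := by
  intro v hv A hA
  have hv0 : (0 : ℝ) < v := by exact_mod_cast hv
  have hvne : v ≠ 0 := hv.ne'
  set r : ℝ := √(v : ℝ) with hr
  have hr0 : 0 < r := Real.sqrt_pos.2 hv0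
  have hrr : r ^ 2 = v := Real.sq_sqrt hv0.le
  have hpi : √(2 * Real.pi * v) = √(2 * Real.pi) * r := Real.sqrt_mul (by positivity) _
  have hsq : √(2 * Real.pi) ≤ Real.exp 1 := by
    rw [Real.sqrt_le_left (Real.exp_pos 1).le]
    have h1 := Real.pi_lt_d2
    have h2 := Real.exp_one_gt_d9
    nlinarith
  have hs0 : 0 < √(2 * Real.pi) := Real.sqrt_pos.2 (by positivity)
  have hlow : ∀ x ∈ Set.Icc (A * r) ((A + 1) * r),
      (√(2 * Real.pi) * r)⁻¹ * Real.exp (-(A + 1) ^ 2 / 2) ≤ gaussianPDFReal 0 v x := by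
    intro x hx
    rw [gaussianPDFReal, hpi]
    refine mul_le_mul_of_nonneg_left (Real.exp_le_exp.2 ?_) (by positivity)
    have hx0 : 0 ≤ x := le_trans (by positivity) hx.1
    have h1 : x ^ 2 ≤ ((A + 1) * r) ^ 2 := pow_le_pow_left₀ hx0 hx.2 2
    rw [mul_pow, hrr] at h1
    rw [sub_zero, neg_div, neg_div, neg_le_neg_iff, div_le_div_iff₀ (by positivity) (by norm_num)]
    nlinarith
  have h1 : ENNReal.ofReal ((√(2 * Real.pi) * r)⁻¹ * Real.exp (-(A + 1) ^ 2 / 2)) *
      volume (Set.Icc (A * r) ((A + 1) * r)) ≤ gaussianReal 0 v (Set.Icc (A * r) ((A + 1) * r)) := by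
    rw [gaussianReal_apply _ hvne, ← setLIntegral_const]
    refine setLIntegral_mono (measurable_gaussianPDF 0 v) fun x hx => ?_
    exact ENNReal.ofReal_le_ofReal (hlow x hx)
  have h2 : Real.exp (-4 * A ^ 2) ≤ (√(2 * Real.pi) * r)⁻¹ * Real.exp (-(A + 1) ^ 2 / 2) * r := by
    have e1 : (√(2 * Real.pi) * r)⁻¹ * Real.exp (-(A + 1) ^ 2 / 2) * r =
        (√(2 * Real.pi))⁻¹ * Real.exp (-(A + 1) ^ 2 / 2) := by
      field_simp
    rw [e1]
    have e2 : Real.exp (-1) ≤ (√(2 * Real.pi))⁻¹ := by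
      rw [Real.exp_neg]
      exact inv_anti₀ hs0 hsq
    calc Real.exp (-4 * A ^ 2) ≤ Real.exp (-1 + -(A + 1) ^ 2 / 2) := by
          refine Real.exp_le_exp.2 ?_
          nlinarith
      _ = Real.exp (-1) * Real.exp (-(A + 1) ^ 2 / 2) := Real.exp_add _ _
      _ ≤ _ := mul_le_mul_of_nonneg_right e2 (Real.exp_pos _).le
  have h3 : ENNReal.ofReal (Real.exp (-4 * A ^ 2)) ≤ gaussianReal 0 v (Set.Ici (A * r)) := by
    refine le_trans ?_ (h1.trans (measure_mono Set.Icc_subset_Ici_self))
    rw [Real.volume_Icc, ← ENNReal.ofReal_mul (by positivity)]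
    refine ENNReal.ofReal_le_ofReal (h2.trans (le_of_eq ?_))
    ring
  rw [measureReal_def]
  exact (ENNReal.ofReal_le_iff_le_toReal (measure_ne_top _ _)).1 h3

lemma exp_neg_le_quad (x : ℝ) (hx : 0 ≤ x) : Real.exp (-x) ≤ 1 - x + x ^ 2 / 2 := by
  have h1 := Real.quadratic_le_exp_of_nonneg hx
  have h2 : 0 < 1 + x + x ^ 2 / 2 := by positivity
  rw [Real.exp_neg]
  refine (inv_anti₀ h2 h1).trans ?_
  rw [inv_le_iff_one_le_mul₀ h2]
  nlinarith [sq_nonneg (x ^ 2)]

/-- The one-block computation under the Gaussian law. -/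
lemma gauss_block (v : ℝ≥0) (q a x : ℝ) (hq : 0 < q) (hx : 0 ≤ x) :
    ∫⁻ y, ENNReal.ofReal (Real.exp (q * y - q ^ 2 * v / 2) *
        (if a ≤ y then Real.exp (-x) else 1)) ∂(gaussianReal 0 v) ≤
      ENNReal.ofReal (Real.exp (-((1 - Real.exp (-x)) * Real.exp (q * a - q ^ 2 * v / 2) *
        (gaussianReal 0 v).real (Set.Ici a)))) := by
  set c : ℝ := (1 - Real.exp (-x)) * Real.exp (q * a - q ^ 2 * v / 2) with hc
  have hex : Real.exp (-x) ≤ 1 := Real.exp_le_one_iff.2 (by linarith)
  have hc0 : 0 ≤ c := mul_nonneg (by linarith) (Real.exp_pos _).le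
  have hm1 : Measurable fun y : ℝ => Real.exp (q * y - q ^ 2 * v / 2) *
      (if a ≤ y then Real.exp (-x) else 1) := by
    refine Measurable.mul (by fun_prop) ?_
    exact Measurable.ite measurableSet_Ici measurable_const measurable_const
  have hone : ∫⁻ y, ENNReal.ofReal (Real.exp (q * y - q ^ 2 * v / 2)) ∂(gaussianReal 0 v) = 1 := by
    have hi : Integrable (fun y : ℝ => Real.exp (q * y)) (gaussianReal 0 v) :=
      integrable_exp_mul_gaussianReal q
    have h1 : ∫ y, Real.exp (q * y) ∂(gaussianReal 0 v) = Real.exp (v * q ^ 2 / 2) := by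
      have h := mgf_gaussianReal (p := gaussianReal 0 v) (X := id) (μ := 0) (v := v)
        (by simp) q
      rw [mgf] at h
      simpa using h
    have h2 : ∀ y, Real.exp (q * y - q ^ 2 * v / 2) =
        Real.exp (-(q ^ 2 * v / 2)) * Real.exp (q * y) := by
      intro y
      rw [← Real.exp_add]
      congr 1
      ring
    rw [← ofReal_integral_eq_lintegral_ofReal]
    · simp_rw [h2]
      rw [integral_const_mul, h1, ← Real.exp_add]
      rw [show -(q ^ 2 * (v : ℝ) / 2) + v * q ^ 2 / 2 = 0 by ring]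
      simp
    · simp_rw [h2]
      exact hi.const_mul _
    · exact Eventually.of_forall fun y => (Real.exp_pos _).le
  have hsum : ∫⁻ y, ENNReal.ofReal (Real.exp (q * y - q ^ 2 * v / 2) *
        (if a ≤ y then Real.exp (-x) else 1)) ∂(gaussianReal 0 v) +
      ENNReal.ofReal (c * (gaussianReal 0 v).real (Set.Ici a)) ≤ 1 := by
    have e1 : ENNReal.ofReal (c * (gaussianReal 0 v).real (Set.Ici a)) =
        ∫⁻ y, (Set.Ici a).indicator (fun _ => ENNReal.ofReal c) y ∂(gaussianReal 0 v) := by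
      rw [lintegral_indicator measurableSet_Ici, setLIntegral_const,
        ENNReal.ofReal_mul hc0, measureReal_def, ENNReal.ofReal_toReal (measure_ne_top _ _)]
    rw [e1, ← lintegral_add_left (hm1.ennreal_ofReal), ← hone]
    refine lintegral_mono fun y => ?_
    by_cases hy : a ≤ y
    · have h3 : y ∈ Set.Ici a := hy
      rw [Set.indicator_of_mem h3]
      simp only [hy, if_true]
      rw [← ENNReal.ofReal_add (by positivity) hc0]
      refine ENNReal.ofReal_le_ofReal ?_
      have h4 : Real.exp (q * a - q ^ 2 * v / 2) ≤ Real.exp (q * y - q ^ 2 * v / 2) := by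
        refine Real.exp_le_exp.2 ?_
        nlinarith
      rw [hc]
      nlinarith
    · have h3 : y ∉ Set.Ici a := hy
      rw [Set.indicator_of_notMem h3]
      simp only [hy, if_false]
      simp
  have h5 : ∫⁻ y, ENNReal.ofReal (Real.exp (q * y - q ^ 2 * v / 2) *
        (if a ≤ y then Real.exp (-x) else 1)) ∂(gaussianReal 0 v) ≤
      1 - ENNReal.ofReal (c * (gaussianReal 0 v).real (Set.Ici a)) :=
    ENNReal.le_sub_of_add_le_right ENNReal.ofReal_ne_top hsum
  refine h5.trans ?_
  rw [← ENNReal.ofReal_one, ← ENNReal.ofReal_sub _ (by positivity)]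
  refine ENNReal.ofReal_le_ofReal ?_
  have := Real.add_one_le_exp (-(c * (gaussianReal 0 v).real (Set.Ici a)))
  linarith

theorem stmV1 : StmV1 := by
  intro Ω mΩ P _ F β hβ T Y hYm hY0 hStar s t hst htT hts A p C K hA hp hp0 hC hK hlog D hD hDY
  have hstle : s ≤ t := hst.le
  have hsT : s ≤ T := hstle.trans htT
  have hstR : (s : ℝ) < t := by exact_mod_cast hst
  have hvR : ((t - s : ℝ≥0) : ℝ) = (t : ℝ) - s := NNReal.coe_sub hstle
  set u : ℝ := √((t : ℝ) - s) with hu
  have hu0 : 0 < u := Real.sqrt_pos.2 (by linarith)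
  have huu : u ^ 2 = (t : ℝ) - s := Real.sq_sqrt (by linarith)
  have hu1 : u ≤ 1 := by
    have : ((t - s : ℝ≥0) : ℝ) ≤ 1 := by exact_mod_cast hts
    rw [hvR, ← huu] at this
    nlinarith
  set q : ℝ := 1 / (3 * A) with hq
  have hA0 : 0 < A := by linarith
  have hq0 : 0 < q := by positivity
  have hqA : q * A = 1 / 3 := by
    rw [hq]
    field_simp
  have hq3 : q ≤ 1 / 3 := by nlinarith
  set R : ℝ := 1 + 6 * C * (K / p) / u with hR
  have hKp : 0 < K / p := div_pos hK hp0
  have hR0 : 0 < R := by positivity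
  set al : ℝ := 2 * q / R with hal
  have hal0 : 0 < al := by positivity
  set x : ℝ := al * (C * (K / p)) with hx
  have hx0 : 0 < x := by positivity
  have hxu : x / 2 ≤ u / 18 := by
    have h1 : x / 2 = q * (C * (K / p)) / R := by
      rw [hx, hal]
      field_simp
    rw [h1, div_le_iff₀ hR0]
    have h2 : u * R = u + 6 * C * (K / p) := by
      rw [hR]
      field_simp
    have h3 : u / 18 * R = (u + 6 * C * (K / p)) / 18 := by
      rw [← h2]
      ring
    rw [h3]
    have h4 : 0 < C * (K / p) := by positivity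
    nlinarith
  have hqR : q ≤ 1 / √(Real.log (Real.exp 1 + R)) := by
    have e : Real.exp 1 + R = Real.exp 1 + 1 + 6 * C * (K / p) / u := by
      rw [hR]
      ring
    rw [e]
    have h1 : 1 < Real.exp 1 + 1 + 6 * C * (K / p) / u := by
      have : 0 < 6 * C * (K / p) / u := by positivity
      have := Real.exp_pos 1
      linarith
    have h2 : 0 < Real.log (Real.exp 1 + 1 + 6 * C * (K / p) / u) := Real.log_pos h1
    have h3 : √(Real.log (Real.exp 1 + 1 + 6 * C * (K / p) / u)) ≤ 3 * A := by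
      rw [Real.sqrt_le_left (by positivity)]
      linarith
    rw [hq]
    exact one_div_le_one_div_of_le (Real.sqrt_pos.2 h2) h3
  set a : ℝ := A * u with ha
  set c : ℝ := (1 - Real.exp (-x)) * Real.exp (q * a - q ^ 2 * ((t - s : ℝ≥0) : ℝ) / 2) with hc
  -- the key inequality
  have hbm : Measurable fun ω => β t ω - β s ω :=
    ((hβ.adap t).mono (F.le t) le_rfl).sub ((hβ.adap s).mono (F.le s) le_rfl)
  set g : ℝ → ℝ≥0∞ := fun y => ENNReal.ofReal (Real.exp (q * y - q ^ 2 * ((t - s : ℝ≥0) : ℝ) / 2) *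
        (if a ≤ y then Real.exp (-x) else 1)) with hg
  have hgm : Measurable g := by
    refine Measurable.ennreal_ofReal (Measurable.mul (by fun_prop) ?_)
    exact Measurable.ite measurableSet_Ici measurable_const measurable_const
  have hkey : ∀ A' : Set Ω, MeasurableSet[F s] A' → A' ⊆ D →
      ∫⁻ ω in A', ENNReal.ofReal (Real.exp (-al * Y s ω)) ∂P ≤
        ENNReal.ofReal (Real.exp (-(c * p))) * P A' := by
    intro A' hA' hA'D
    have hA'm : MeasurableSet A' := F.le s _ hA'
    refine (hStar s t hstle htT q R hq0 hR0 hqR A' hA').trans ?_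
    have h1 : ∫⁻ ω in A', ENNReal.ofReal (Real.exp (q * (β t ω - β s ω)
          - q ^ 2 * ((t : ℝ) - s) / 2 - (2 * q / R) * Y t ω)) ∂P ≤
        ∫⁻ ω in A', g (β t ω - β s ω) ∂P := by
      refine lintegral_mono_ae ?_
      rw [ae_restrict_iff' hA'm]
      filter_upwards [hDY, hY0 t htT] with ω h2 h3 hω
      refine ENNReal.ofReal_le_ofReal ?_
      rw [hvR, Real.exp_sub _ (2 * q / R * Y t ω), div_eq_mul_inv, ← Real.exp_neg]
      refine mul_le_mul_of_nonneg_left ?_ (Real.exp_pos _).le
      split_ifs with h4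
      · refine Real.exp_le_exp.2 ?_
        have h5 := h2 (hA'D hω) h4
        rw [hx]
        have := mul_le_mul_of_nonneg_left h5 hal0.le
        linarith
      · rw [Real.exp_le_one_iff]
        have := mul_nonneg hal0.le h3
        linarith
    refine h1.trans ?_
    have h6 : ∫⁻ ω in A', g (β t ω - β s ω) ∂P =
        P A' * ∫⁻ ω, g (β t ω - β s ω) ∂P := by
      have h7 := lintegral_mul_eq_lintegral_mul_lintegral_of_independent_measurableSpace
        (F.le s) hbm.comap_le (hβ.indep s t hstle)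
        (f := A'.indicator fun _ => 1) (g := fun ω => g (β t ω - β s ω))
        ((@measurable_const _ _ _ (F s) _).indicator hA')
        (hgm.comp (comap_measurable _))
      have h8 : ∫⁻ ω in A', g (β t ω - β s ω) ∂P =
          ∫⁻ ω, (A'.indicator (fun _ => 1) ω) * g (β t ω - β s ω) ∂P := by
        rw [← lintegral_indicator hA'm]
        refine lintegral_congr fun ω => ?_
        by_cases hω : ω ∈ A' <;> simp [hω]
      rw [h8, h7, lintegral_indicator hA'm]
      simp
    rw [h6]
    have h9 : ∫⁻ ω, g (β t ω - β s ω) ∂P ≤ ENNReal.ofReal (Real.exp (-(c * p))) := by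
      have h10 : ∫⁻ ω, g (β t ω - β s ω) ∂P = ∫⁻ y, g y ∂(gaussianReal 0 (t - s)) := by
        rw [← hβ.law s t hstle, lintegral_map hgm hbm]
      rw [h10, hp]
      exact gauss_block (t - s) q a x hq0 hx0.le
    rw [mul_comm]
    gcongr
  -- conclusion
  set A' : Set Ω := D ∩ {ω | Real.exp (-(c * p)) < Real.exp (-al * Y s ω)} with hA'
  have hA's : MeasurableSet[F s] A' := by
    refine hD.inter ?_
    have h0 : Measurable[F s] fun ω => Real.exp (-al * Y s ω) :=
      Real.measurable_exp.comp ((hYm s hsT).const_mul _)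
    exact h0 measurableSet_Ioi
  have hzero : P A' = 0 := by
    by_contra hne
    have h1 := hkey A' hA's Set.inter_subset_left
    have h2 : ∫⁻ _ in A', ENNReal.ofReal (Real.exp (-(c * p))) ∂P <
        ∫⁻ ω in A', ENNReal.ofReal (Real.exp (-al * Y s ω)) ∂P := by
      refine setLIntegral_strict_mono (F.le s _ hA's) hne ?_ ?_ ?_
      · exact (Real.measurable_exp.comp
          (((hYm s hsT).mono (F.le s) le_rfl).const_mul _)).ennreal_ofReal
      · rw [setLIntegral_const]
        exact ENNReal.mul_ne_top ENNReal.ofReal_ne_top (measure_ne_top _ _)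
      · refine Eventually.of_forall fun ω hω => ?_
        exact (ENNReal.ofReal_lt_ofReal_iff (Real.exp_pos _)).2 hω.2
    rw [setLIntegral_const] at h2
    exact absurd h1 (not_le.2 h2)
  have hae : ∀ᵐ ω ∂P, ω ∉ A' := measure_eq_zero_iff_ae_notMem.1 hzero
  filter_upwards [hae] with ω hω hωD
  have h1 : Real.exp (-al * Y s ω) ≤ Real.exp (-(c * p)) := by
    by_contra h2
    exact hω ⟨hωD, not_le.1 h2⟩
  have h2 : c * p ≤ al * Y s ω := by
    have := Real.exp_le_exp.1 h1
    linarith
  have h3 : 1 + 5 * u / 18 ≤ Real.exp (q * a - q ^ 2 * ((t - s : ℝ≥0) : ℝ) / 2) := by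
    have h4 := Real.add_one_le_exp (q * a - q ^ 2 * ((t - s : ℝ≥0) : ℝ) / 2)
    have h5 : q * a = u / 3 := by
      rw [ha, ← mul_assoc, hqA]
      ring
    have h6 : q ^ 2 * ((t - s : ℝ≥0) : ℝ) / 2 ≤ u / 18 := by
      rw [hvR, ← huu]
      have h7 : q ^ 2 ≤ 1 / 9 := by nlinarith
      have h8 : u ^ 2 ≤ u := by nlinarith
      nlinarith [sq_nonneg u]
    linarith
  have h4 : x * (1 - x / 2) ≤ 1 - Real.exp (-x) := by
    have := exp_neg_le_quad x hx0.le
    nlinarith
  have h5 : 0 < 1 - x / 2 := by nlinarith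
  have h6 : x * (1 - x / 2) * (1 + 5 * u / 18) ≤ c := by
    rw [hc]
    exact mul_le_mul h4 h3 (by positivity) (le_trans (by positivity) h4)
  have h7 : x * p = al * (C * K) := by
    rw [hx]
    field_simp
  have h8 : al * (C * K * (1 + u / 12)) ≤ al * Y s ω := by
    refine le_trans ?_ h2
    have h9 : al * (C * K) * ((1 - x / 2) * (1 + 5 * u / 18)) ≤ c * p := by
      rw [← h7]
      have := mul_le_mul_of_nonneg_right h6 hp0.le
      linarith
    refine le_trans ?_ h9
    have h10 : 1 + u / 12 ≤ (1 - x / 2) * (1 + 5 * u / 18) := by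
      have : (1 - u / 18) * (1 + 5 * u / 18) ≤ (1 - x / 2) * (1 + 5 * u / 18) := by
        refine mul_le_mul_of_nonneg_right (by linarith) (by positivity)
      nlinarith
    have h11 : 0 < al * (C * K) := by positivity
    nlinarith
  exact le_of_mul_le_mul_left h8 hal0

end Pool.Agent.R228.BD
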