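import Pool.Agent.R228.BD.Exp

/-!
# MP_ed2581_pr: restricting a simple process to `[s,t]`
-/

open MeasureTheory ProbabilityTheory Filter Topology
open scoped NNReal ENNReal

namespace Pool.Agent.R228.BD

open Pool.Agent.R228.BS (E IsBrownianVec natFilt ClassD)

lemma clampA {W : Type*} [AddGroup W] (b : ℝ≥0 → W) {s r : ℝ≥0} (x : ℝ≥0) (hsr : s ≤ r) :
    b (min x r) - b (min x s) = b (max s (min x r)) - b s := by
  rcases le_total x s with h | h
  · rw [min_eq_left (h.trans hsr), min_eq_left h, max_eq_left h, sub_self, sub_self]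
  · rw [min_eq_right h, max_eq_right (le_min h hsr)]

lemma clampB {x y s t : ℝ≥0} (hxy : x ≤ y) (hst : s ≤ t) :
    max s (min x (max s (min y t))) = max s (min x t) := by
  rcases le_total x s with h | h
  · rw [max_eq_left ((min_le_left _ _).trans h), max_eq_left ((min_le_left _ _).trans h)]
  · have hys : s ≤ min y t := le_min (h.trans hxy) hst
    rw [max_eq_right hys, ← min_assoc, min_eq_left hxy]

lemma clampC {x y s t : ℝ≥0} (hyx : y ≤ x) :
    max s (min x (max s (min y t))) = max s (min y t) := by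
  rcases le_total (min y t) s with h | h
  · rw [max_eq_left h]
    exact max_eq_left (min_le_right _ _)
  · rw [max_eq_right h, min_eq_right ((min_le_left _ _).trans hyx), max_eq_right h]

section
variable {Ω : Type*} [mΩ : MeasurableSpace Ω] {P : Measure Ω} [IsProbabilityMeasure P]
  {F : Filtration ℝ≥0 mΩ} {d : ℕ} {B : ℝ≥0 → Ω → E d} {T : ℝ≥0}

/-- the clamped grid -/
noncomputable def cg (V : SProc F d T) (s t : ℝ≥0) (k : ℕ) : ℝ≥0 := max s (min (V.t k) t)

lemma cg_mono (V : SProc F d T) (s t : ℝ≥0) : Monotone (cg V s t) := fun _ _ h =>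
  max_le_max le_rfl (min_le_min (V.mono h) le_rfl)

lemma cg_zero (V : SProc F d T) (s t : ℝ≥0) : cg V s t 0 = s := by
  unfold cg
  rw [V.zero]
  simp

lemma cg_last (V : SProc F d T) {s t : ℝ≥0} (hst : s ≤ t) (htT : t ≤ T) :
    cg V s t V.n = t := by
  unfold cg
  rw [V.last, min_eq_right htT, max_eq_right hst]

lemma int_sub (V : SProc F d T) {s t : ℝ≥0} (hst : s ≤ t) (ω : Ω) {m : ℕ} (hm : m ≤ V.n) :
    V.int B (cg V s t m) ω - V.int B s ω =
      ∑ k ∈ Finset.range m, inner ℝ (V.ζ k ω) (B (cg V s t (k + 1)) ω - B (cg V s t k) ω) := by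
  have hs : s ≤ cg V s t m := le_max_left _ _
  have h1 : V.int B (cg V s t m) ω - V.int B s ω = ∑ k ∈ Finset.range V.n,
      inner ℝ (V.ζ k ω) (B (max s (min (V.t (k + 1)) (cg V s t m))) ω -
        B (max s (min (V.t k) (cg V s t m))) ω) := by
    unfold SProc.int
    rw [← Finset.sum_sub_distrib]
    refine Finset.sum_congr rfl fun k _ => ?_
    rw [← inner_sub_right]
    congr 1
    have h2 := clampA (fun r => B r ω) (V.t (k + 1)) hs
    have h3 := clampA (fun r => B r ω) (V.t k) hs
    have h4 : B (max s (min (V.t (k + 1)) (cg V s t m))) ω -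
        B (max s (min (V.t k) (cg V s t m))) ω =
        (B (max s (min (V.t (k + 1)) (cg V s t m))) ω - B s ω) -
          (B (max s (min (V.t k) (cg V s t m))) ω - B s ω) := by abel
    rw [h4, ← h2, ← h3]
    abel
  rw [h1, ← Finset.sum_subset (Finset.range_mono hm)]
  · refine Finset.sum_congr rfl fun k hk => ?_
    have hk : k < m := Finset.mem_range.1 hk
    unfold cg
    rw [clampB (V.mono (Nat.succ_le_of_lt hk)) hst, clampB (V.mono hk.le) hst]
  · intro k _ hk
    have hk : m ≤ k := not_lt.1 fun h => hk (Finset.mem_range.2 h)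
    unfold cg
    rw [clampC (V.mono (hk.trans (Nat.le_succ k))), clampC (V.mono hk), sub_self, inner_zero_right]

/-- the coefficients of `v - α V` on `[s,t]` -/
noncomputable def wc (V : SProc F d T) (t : ℝ≥0) (v : E d) (α : ℝ) (k : ℕ) (ω : Ω) : E d :=
  if V.t k ≤ t then v - α • V.ζ k ω else v

lemma wc_meas (V : SProc F d T) (s t : ℝ≥0) (v : E d) (α : ℝ) (k : ℕ) :
    Measurable[F (cg V s t k)] (wc V t v α k) := by
  by_cases h : V.t k ≤ t
  · have h1 : V.t k ≤ cg V s t k := by
      unfold cg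
      rw [min_eq_left h]
      exact le_max_right _ _
    have h2 : Measurable[F (cg V s t k)] (V.ζ k) :=
      (V.meas k).measurable.mono (F.mono h1) le_rfl
    have h3 : wc V t v α k = fun ω => v - α • V.ζ k ω := by
      funext ω
      unfold wc
      rw [if_pos h]
    rw [h3]
    exact (@measurable_const _ _ _ (F (cg V s t k)) v).sub (h2.const_smul α)
  · have h3 : wc V t v α k = fun ω => v := by
      funext ω
      unfold wc
      rw [if_neg h]
    rw [h3]
    exact @measurable_const _ _ _ (F (cg V s t k)) v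

lemma wc_sum (V : SProc F d T) {s t : ℝ≥0} (hst : s ≤ t) (v : E d) (α : ℝ) (ω : Ω) {m : ℕ}
    (hm : m ≤ V.n) :
    ∑ k ∈ Finset.range m, inner ℝ (wc V t v α k ω) (B (cg V s t (k + 1)) ω - B (cg V s t k) ω) =
      inner ℝ v (B (cg V s t m) ω - B s ω) - α * (V.int B (cg V s t m) ω - V.int B s ω) := by
  rw [int_sub V hst ω hm]
  have h1 : B (cg V s t m) ω - B s ω =
      ∑ k ∈ Finset.range m, (B (cg V s t (k + 1)) ω - B (cg V s t k) ω) := by
    rw [Finset.sum_range_sub (fun k => B (cg V s t k) ω), cg_zero]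
  rw [h1, inner_sum, Finset.mul_sum, ← Finset.sum_sub_distrib]
  refine Finset.sum_congr rfl fun k _ => ?_
  unfold wc
  split_ifs with h
  · rw [inner_sub_left, real_inner_smul_left]
  · have h2 : cg V s t (k + 1) = cg V s t k := by
      unfold cg
      have h3 : t ≤ V.t k := (not_le.1 h).le
      rw [min_eq_right h3, min_eq_right (h3.trans (V.mono (Nat.le_succ k)))]
    rw [h2, sub_self, inner_zero_right, inner_zero_right, mul_zero, sub_zero]

lemma val_eq (V : SProc F d T) {k : ℕ} (hk : k < V.n) {r : ℝ≥0}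
    (hr : r ∈ Set.Ioc (V.t k) (V.t (k + 1))) (ω : Ω) : V.val r ω = V.ζ k ω := by
  unfold SProc.val
  rw [Finset.sum_eq_single k]
  · exact Set.indicator_of_mem hr _
  · intro j _ hj
    refine Set.indicator_of_notMem ?_ _
    intro hrj
    rcases lt_or_gt_of_ne hj with h | h
    · exact absurd (hrj.2.trans (V.mono (Nat.succ_le_of_lt h))) (not_le.2 hr.1)
    · exact absurd (hr.2.trans (V.mono (Nat.succ_le_of_lt h))) (not_le.2 hrj.1)
  · intro h
    exact absurd (Finset.mem_range.2 hk) h

lemma wc_val (V : SProc F d T) {s t : ℝ≥0} (v : E d) (α : ℝ) {k : ℕ} (hk : k < V.n) (ω : Ω)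
    {r : ℝ} (hr : r ∈ Set.Ioc (cg V s t k : ℝ) (cg V s t (k + 1))) :
    v - α • V.val r.toNNReal ω = wc V t v α k ω := by
  have h0 : 0 ≤ r := (NNReal.coe_nonneg _).trans hr.1.le
  have h1 : cg V s t k < r.toNNReal := by
    rw [← NNReal.coe_lt_coe, Real.coe_toNNReal r h0]; exact hr.1
  have h2 : r.toNNReal ≤ cg V s t (k + 1) := by
    rw [← NNReal.coe_le_coe, Real.coe_toNNReal r h0]; exact hr.2
  unfold cg at h1 h2
  have h3 : s < r.toNNReal := (le_max_left _ _).trans_lt h1
  have h4 : min (V.t k) t < r.toNNReal := (le_max_right _ _).trans_lt h1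
  have h5 : r.toNNReal ≤ min (V.t (k + 1)) t := by
    rcases le_max_iff.1 h2 with h | h
    · exact absurd h (not_le.2 h3)
    · exact h
  have h6 : V.t k < r.toNNReal := by
    rcases min_lt_iff.1 h4 with h | h
    · exact h
    · exact absurd (h5.trans (min_le_right _ _)) (not_le.2 h)
  have h7 : r.toNNReal ∈ Set.Ioc (V.t k) (V.t (k + 1)) := ⟨h6, h5.trans (min_le_left _ _)⟩
  have h8 : V.t k ≤ t := (h6.trans_le (h5.trans (min_le_right _ _))).le
  rw [val_eq V hk h7]
  unfold wc
  rw [if_pos h8]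

lemma qV_eq (V : SProc F d T) {s t : ℝ≥0} (v : E d) (α : ℝ) (ω : Ω) {m : ℕ}
    (hm : m ≤ V.n) :
    qV (cg V s t) (wc V t v α) m ω =
      ∫ r in (s : ℝ)..(cg V s t m : ℝ), ‖v - α • V.val r.toNNReal ω‖ ^ 2 := by
  have hle : ∀ k, (cg V s t k : ℝ) ≤ cg V s t (k + 1) := fun k => by
    exact_mod_cast cg_mono V s t (Nat.le_succ k)
  have h1 : ∀ k < m, ∫ r in (cg V s t k : ℝ)..(cg V s t (k + 1) : ℝ),
      ‖v - α • V.val r.toNNReal ω‖ ^ 2 =
      ‖wc V t v α k ω‖ ^ 2 * ((cg V s t (k + 1) : ℝ) - cg V s t k) := by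
    intro k hk
    rw [intervalIntegral.integral_of_le (hle k)]
    rw [setIntegral_congr_fun (g := fun _ => ‖wc V t v α k ω‖ ^ 2) measurableSet_Ioc]
    · rw [setIntegral_const, smul_eq_mul, measureReal_def, Real.volume_Ioc,
        ENNReal.toReal_ofReal (sub_nonneg.2 (hle k))]
      ring
    · intro r hr
      simp only
      rw [wc_val V v α (hk.trans_le hm) ω hr]
  have h2 : ∀ k < m, IntervalIntegrable (fun r : ℝ => ‖v - α • V.val r.toNNReal ω‖ ^ 2) volume
      (cg V s t k : ℝ) (cg V s t (k + 1) : ℝ) := by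
    intro k hk
    rw [intervalIntegrable_iff_integrableOn_Ioc_of_le (hle k)]
    refine (integrableOn_const (C := ‖wc V t v α k ω‖ ^ 2) (by simp)).congr_fun ?_
      measurableSet_Ioc
    intro r hr
    simp only
    rw [wc_val V v α (hk.trans_le hm) ω hr]
  have h3 := intervalIntegral.sum_integral_adjacent_intervals (a := fun k => (cg V s t k : ℝ)) h2
  have h4 : ((cg V s t 0 : ℝ≥0) : ℝ) = s := by rw [cg_zero]
  rw [h4] at h3
  unfold qV
  rw [← h3]
  exact Finset.sum_congr rfl fun k hk => (h1 k (Finset.mem_range.1 hk)).symm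

end

end Pool.Agent.R228.BD
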