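import Pool.Agent.R228.BD.Stm

/-!
# MP_ed2581_pr, piece V2: recursion and conclusion
-/

open MeasureTheory ProbabilityTheory Filter Topology
open scoped NNReal ENNReal

namespace Pool.Agent.R228.BD

namespace ConclAux

/-- the threshold -/
noncomputable def Aof (b0 K : ℝ) : ℝ := √(b0 + Real.log K)

/-- the probability of passing the threshold -/
noncomputable def pof (v : ℝ≥0) (b0 K : ℝ) : ℝ :=
  (gaussianReal 0 v).real (Set.Ici (Aof b0 K * √(v : ℝ)))

/-- the recursion for the levels -/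
noncomputable def Kseq (v : ℝ≥0) (b0 : ℝ) : ℕ → ℝ
  | 0 => 1
  | j + 1 => Kseq v b0 j / pof v b0 (Kseq v b0 j)

theorem Aof_sq {b0 K : ℝ} (hb : 1 ≤ b0) (hK : 1 ≤ K) : Aof b0 K ^ 2 = b0 + Real.log K := by
  have := Real.log_nonneg hK
  exact Real.sq_sqrt (by linarith)

theorem one_le_Aof {b0 K : ℝ} (hb : 1 ≤ b0) (hK : 1 ≤ K) : 1 ≤ Aof b0 K := by
  have := Real.log_nonneg hK
  exact Real.one_le_sqrt.2 (by linarith)

theorem pof_ge (h0 : StmV0) {v : ℝ≥0} (hv : 0 < v) {b0 K : ℝ} (hb : 1 ≤ b0) (hK : 1 ≤ K) :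
    Real.exp (-4 * Aof b0 K ^ 2) ≤ pof v b0 K :=
  h0 v hv _ (one_le_Aof hb hK)

theorem pof_pos (h0 : StmV0) {v : ℝ≥0} (hv : 0 < v) {b0 K : ℝ} (hb : 1 ≤ b0) (hK : 1 ≤ K) :
    0 < pof v b0 K :=
  lt_of_lt_of_le (Real.exp_pos _) (pof_ge h0 hv hb hK)

theorem pof_le_one (v : ℝ≥0) (b0 K : ℝ) : pof v b0 K ≤ 1 := measureReal_le_one

theorem one_le_Kseq (h0 : StmV0) {v : ℝ≥0} (hv : 0 < v) {b0 : ℝ} (hb : 1 ≤ b0) (j : ℕ) :
    1 ≤ Kseq v b0 j := by
  induction j with
  | zero => exact le_rfl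
  | succ j ih =>
    show 1 ≤ Kseq v b0 j / pof v b0 (Kseq v b0 j)
    rw [le_div_iff₀ (pof_pos h0 hv hb ih)]
    have := pof_le_one v b0 (Kseq v b0 j)
    linarith

/-- the grid -/
noncomputable def gr (v : ℝ≥0) (j : ℕ) : ℝ≥0 := (j : ℝ≥0) * v

theorem gr_succ (v : ℝ≥0) (j : ℕ) : gr v (j + 1) = gr v j + v := by
  unfold gr; push_cast; ring

theorem gr_mono (v : ℝ≥0) : Monotone (gr v) := by
  intro a b h
  unfold gr
  gcongr

theorem gr_sub (v : ℝ≥0) (j : ℕ) : gr v (j + 1) - gr v j = v := by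
  rw [gr_succ]; exact add_tsub_cancel_left _ _

theorem gr_sub_coe (v : ℝ≥0) (j : ℕ) : ((gr v (j + 1) : ℝ≥0) : ℝ) - (gr v j : ℝ≥0) = v := by
  rw [gr_succ]; push_cast; ring

section

variable {Ω : Type} [mΩ : MeasurableSpace Ω] {P : Measure Ω} [IsProbabilityMeasure P]
    {F : Filtration ℝ≥0 mΩ} {β : ℝ≥0 → Ω → ℝ}

/-- the events -/
noncomputable def Dset (β : ℝ≥0 → Ω → ℝ) (v : ℝ≥0) (b0 : ℝ) : ℕ → Set Ω
  | 0 => Set.univ
  | j + 1 => Dset β v b0 j ∩
      {ω | Aof b0 (Kseq v b0 j) * √(v : ℝ) ≤ β (gr v (j + 1)) ω - β (gr v j) ω}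

theorem meas_inc (hI : IncBM P F β) (s t : ℝ≥0) (hst : s ≤ t) :
    Measurable[F t] (fun ω => β t ω - β s ω) :=
  (hI.adap t).sub ((hI.adap s).mono (F.mono hst) le_rfl)

theorem meas_Dset (hI : IncBM P F β) (v : ℝ≥0) (b0 : ℝ) (j : ℕ) :
    MeasurableSet[F (gr v j)] (Dset β v b0 j) := by
  induction j with
  | zero => exact MeasurableSet.univ
  | succ j ih =>
    have h1 : gr v j ≤ gr v (j + 1) := gr_mono v (Nat.le_succ j)
    refine MeasurableSet.inter (F.mono h1 _ ih) ?_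
    exact meas_inc hI _ _ h1 measurableSet_Ici

theorem prob_Dset (h0 : StmV0) (hI : IncBM P F β) {v : ℝ≥0} (hv : 0 < v) {b0 : ℝ} (hb : 1 ≤ b0)
    (j : ℕ) : P (Dset β v b0 j) = ENNReal.ofReal (1 / Kseq v b0 j) := by
  induction j with
  | zero => simp [Dset, Kseq]
  | succ j ih =>
    have h1 : gr v j ≤ gr v (j + 1) := gr_mono v (Nat.le_succ j)
    have hind := (Indep_iff _ _ _).1 (hI.indep _ _ h1)
    have hm : Measurable (fun ω => β (gr v (j + 1)) ω - β (gr v j) ω) :=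
      (meas_inc hI _ _ h1).mono (F.le _) le_rfl
    have h2 : P {ω | Aof b0 (Kseq v b0 j) * √(v : ℝ) ≤ β (gr v (j + 1)) ω - β (gr v j) ω} =
        ENNReal.ofReal (pof v b0 (Kseq v b0 j)) := by
      have h3 := hI.law _ _ h1
      rw [gr_sub] at h3
      unfold pof
      rw [← h3, Measure.real, ENNReal.ofReal_toReal (measure_ne_top _ _),
        Measure.map_apply hm measurableSet_Ici]
      rfl
    have h4 : P (Dset β v b0 (j + 1)) = P (Dset β v b0 j) *
        P {ω | Aof b0 (Kseq v b0 j) * √(v : ℝ) ≤ β (gr v (j + 1)) ω - β (gr v j) ω} :=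
      hind _ _ (meas_Dset hI v b0 j) ⟨Set.Ici (Aof b0 (Kseq v b0 j) * √(v : ℝ)),
        measurableSet_Ici, rfl⟩
    have hK := one_le_Kseq h0 hv hb j
    rw [h4, ih, h2, ← ENNReal.ofReal_mul (by positivity)]
    congr 1
    show _ = 1 / (Kseq v b0 j / pof v b0 (Kseq v b0 j))
    rw [one_div_div]
    ring

/-- One level. -/
theorem exists_level (h0 : StmV0) (h1 : StmV1) (hI : IncBM P F β) {T : ℝ≥0} (hT : 0 < T)
    {c : ℝ} (hc : 0 < c) (M : ℝ) :
    ∃ ξ : Ω → ℝ, Measurable[F T] ξ ∧ (∀ ω, 0 ≤ ξ ω) ∧ ∫⁻ ω, ENNReal.ofReal (ξ ω) ∂P ≤ 1 ∧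
      ∀ Y : ℝ≥0 → Ω → ℝ, (∀ t ≤ T, Measurable[F t] (Y t)) → (∀ t ≤ T, ∀ᵐ ω ∂P, 0 ≤ Y t ω) →
        Star P F β T Y → (∀ᵐ ω ∂P, c * ξ ω ≤ Y T ω) → ∀ᵐ ω ∂P, M ≤ Y 0 ω := by
  have hT' : (0 : ℝ) < T := by exact_mod_cast hT
  obtain ⟨n, hn⟩ := exists_nat_ge (max 1 (max (T : ℝ) ((12 * M / c) ^ 2 / T)))
  have hn1 : (1 : ℝ) ≤ n := (le_max_left _ _).trans hn
  have hnT : (T : ℝ) ≤ n := ((le_max_left _ _).trans (le_max_right _ _)).trans hn
  have hnM : (12 * M / c) ^ 2 / T ≤ n := ((le_max_right _ _).trans (le_max_right _ _)).trans hn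
  have hn0 : (0 : ℝ) < n := by linarith
  have hn0' : (n : ℝ≥0) ≠ 0 := by
    intro h
    have : (n : ℝ) = 0 := by exact_mod_cast h
    linarith
  set v : ℝ≥0 := T / n with hv
  have hv0 : 0 < v := by
    rw [hv]; exact div_pos hT (pos_iff_ne_zero.2 hn0')
  have hvc : (v : ℝ) = T / n := by rw [hv]; push_cast; rfl
  have hv0' : (0 : ℝ) < v := by exact_mod_cast hv0
  have hv1 : v ≤ 1 := by
    have : (v : ℝ) ≤ 1 := by
      rw [hvc, div_le_one hn0]; exact hnT
    exact_mod_cast this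
  have hgrn : gr v n = T := by
    unfold gr
    rw [hv]
    exact mul_div_cancel₀ _ hn0'
  set u : ℝ := √(v : ℝ) with hu
  have hu0 : 0 < u := Real.sqrt_pos.2 hv0'
  have hnu : M ≤ c * (n * u / 12) := by
    have e1 : (n : ℝ) * u = √(n * T) := by
      rw [hu, hvc]
      have : (n : ℝ) * T = n ^ 2 * (T / n) := by
        field_simp
      rw [this, Real.sqrt_mul (by positivity), Real.sqrt_sq hn0.le]
    have e2 : (12 * M / c) ^ 2 ≤ n * T := by
      rwa [div_le_iff₀ hT'] at hnM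
    have e3 : 12 * M / c ≤ √(n * T) := Real.le_sqrt_of_sq_le e2
    rw [e1]
    rw [div_le_iff₀ hc] at e3
    nlinarith
  set b0 : ℝ := Real.log (Real.exp 1 + 1 + 6 * c * (1 + u / 12) ^ n / u) with hb0
  have hbase : Real.exp 1 ≤ Real.exp 1 + 1 + 6 * c * (1 + u / 12) ^ n / u := by
    have : 0 ≤ 6 * c * (1 + u / 12) ^ n / u := by positivity
    linarith
  have hb : 1 ≤ b0 := by
    rw [hb0, Real.le_log_iff_exp_le (lt_of_lt_of_le (Real.exp_pos _) hbase)]
    exact hbase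
  have hK : ∀ j, 1 ≤ Kseq v b0 j := one_le_Kseq h0 hv0 hb
  have hDn : MeasurableSet (Dset β v b0 n) := F.le _ _ (meas_Dset hI v b0 n)
  refine ⟨(Dset β v b0 n).indicator (fun _ => Kseq v b0 n), ?_, ?_, ?_, ?_⟩
  · have := meas_Dset hI v b0 n
    rw [hgrn] at this
    exact Measurable.indicator measurable_const this
  · intro ω
    exact Set.indicator_nonneg (fun _ _ => by linarith [hK n]) ω
  · have e1 : (fun ω => ENNReal.ofReal ((Dset β v b0 n).indicator (fun _ => Kseq v b0 n) ω)) =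
        (Dset β v b0 n).indicator (fun _ => ENNReal.ofReal (Kseq v b0 n)) := by
      funext ω
      by_cases h : ω ∈ Dset β v b0 n <;> simp [h]
    rw [e1, lintegral_indicator_const hDn, prob_Dset h0 hI hv0 hb n,
      ← ENNReal.ofReal_mul (by linarith [hK n])]
    rw [mul_one_div_cancel (by linarith [hK n])]
    simp
  · intro Y hYm hY0 hYs hYT
    have key : ∀ i, i ≤ n → ∀ᵐ ω ∂P, ω ∈ Dset β v b0 (n - i) →
        c * (1 + u / 12) ^ i * Kseq v b0 (n - i) ≤ Y (gr v (n - i)) ω := by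
      intro i
      induction i with
      | zero =>
        intro _
        filter_upwards [hYT] with ω hω hD
        simp only [Nat.sub_zero, pow_zero, mul_one] at hD ⊢
        rw [hgrn]
        rwa [Set.indicator_of_mem hD] at hω
      | succ i ih =>
        intro hi
        have hi' := ih (by omega)
        obtain ⟨j, hj⟩ : ∃ j, n - i = j + 1 := ⟨n - i - 1, by omega⟩
        have hj' : n - (i + 1) = j := by omega
        rw [hj] at hi'
        rw [hj']
        have hlt : gr v j < gr v (j + 1) := by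
          rw [gr_succ]; exact lt_add_of_pos_right _ hv0
        have hle : gr v (j + 1) ≤ T := by
          rw [← hgrn]; exact gr_mono v (by omega)
        have hp0 : 0 < pof v b0 (Kseq v b0 j) := pof_pos h0 hv0 hb (hK j)
        have hKj := hK j
        have hKj1 : 1 ≤ Kseq v b0 (j + 1) := hK (j + 1)
        have hKdef : Kseq v b0 (j + 1) = Kseq v b0 j / pof v b0 (Kseq v b0 j) := rfl
        have hA := Aof_sq hb hKj
        have hA1 := one_le_Aof hb hKj
        have hcoe := gr_sub_coe v j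
        have hpow : (1 + u / 12) ^ i ≤ (1 + u / 12) ^ n :=
          pow_le_pow_right₀ (by linarith [hu0]) (by omega)
        have hlog : Real.log (Real.exp 1 + 1 + 6 * (c * (1 + u / 12) ^ i) *
            (Kseq v b0 j / pof v b0 (Kseq v b0 j)) / √(((gr v (j + 1) : ℝ≥0) : ℝ) - (gr v j : ℝ≥0)))
            ≤ 9 * (Aof b0 (Kseq v b0 j)) ^ 2 := by
          rw [hcoe, ← hKdef, ← hu]
          have e1 : Real.exp 1 + 1 + 6 * (c * (1 + u / 12) ^ i) * Kseq v b0 (j + 1) / u ≤
              (Real.exp 1 + 1 + 6 * c * (1 + u / 12) ^ n / u) * Kseq v b0 (j + 1) := by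
            have e2 : 6 * (c * (1 + u / 12) ^ i) * Kseq v b0 (j + 1) / u ≤
                6 * c * (1 + u / 12) ^ n / u * Kseq v b0 (j + 1) := by
              rw [div_mul_eq_mul_div]
              have : 6 * (c * (1 + u / 12) ^ i) * Kseq v b0 (j + 1) ≤
                  6 * c * (1 + u / 12) ^ n * Kseq v b0 (j + 1) := by
                have : c * (1 + u / 12) ^ i ≤ c * (1 + u / 12) ^ n :=
                  mul_le_mul_of_nonneg_left hpow hc.le
                nlinarith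
              gcongr
            have e3 : Real.exp 1 + 1 ≤ (Real.exp 1 + 1) * Kseq v b0 (j + 1) := by
              have := Real.exp_pos 1
              nlinarith
            nlinarith
          have hpos : 0 < Real.exp 1 + 1 + 6 * (c * (1 + u / 12) ^ i) * Kseq v b0 (j + 1) / u := by
            have : 0 ≤ 6 * (c * (1 + u / 12) ^ i) * Kseq v b0 (j + 1) / u := by positivity
            have := Real.exp_pos 1
            linarith
          have e4 := Real.log_le_log hpos e1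
          have hb' : 0 < Real.exp 1 + 1 + 6 * c * (1 + u / 12) ^ n / u :=
            lt_of_lt_of_le (Real.exp_pos _) hbase
          rw [Real.log_mul hb'.ne' (by linarith), ← hb0, hKdef,
            Real.log_div (by linarith) hp0.ne'] at e4
          have e5 : -4 * Aof b0 (Kseq v b0 j) ^ 2 ≤ Real.log (pof v b0 (Kseq v b0 j)) := by
            rw [Real.le_log_iff_exp_le hp0]
            exact pof_ge h0 hv0 hb hKj
          rw [← hKdef] at e4
          nlinarith [e4, e5, hA, sq_nonneg (Aof b0 (Kseq v b0 j))]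
        have hres := h1 hI hYm hY0 hYs (gr v j) (gr v (j + 1)) hlt hle
          (by rw [gr_sub]; exact hv1) (Aof b0 (Kseq v b0 j)) (pof v b0 (Kseq v b0 j))
          (c * (1 + u / 12) ^ i) (Kseq v b0 j) hA1
          (by rw [gr_sub, hcoe]; rfl) hp0 (by positivity) (by linarith) hlog
          (Dset β v b0 j) (meas_Dset hI v b0 j)
          (by
            filter_upwards [hi'] with ω hω hD hb
            rw [← hKdef]
            refine hω ⟨hD, ?_⟩
            rw [hcoe] at hb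
            exact hb)
        filter_upwards [hres] with ω hω hD
        have := hω hD
        rw [hcoe, ← hu] at this
        calc c * (1 + u / 12) ^ (i + 1) * Kseq v b0 j
            = c * (1 + u / 12) ^ i * Kseq v b0 j * (1 + u / 12) := by ring
          _ ≤ _ := this
    have := key n le_rfl
    rw [Nat.sub_self] at this
    filter_upwards [this] with ω hω
    have h3 := hω (Set.mem_univ _)
    have h4 : gr v 0 = 0 := by simp [gr]
    rw [h4] at h3
    have h5 : Kseq v b0 0 = 1 := rfl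
    rw [h5, mul_one] at h3
    have h6 : 1 + (n : ℝ) * (u / 12) ≤ (1 + u / 12) ^ n :=
      one_add_mul_le_pow (by linarith) n
    have h7 : c * (n * u / 12) ≤ c * (1 + u / 12) ^ n := by
      refine mul_le_mul_of_nonneg_left ?_ hc.le
      have : (n : ℝ) * u / 12 = n * (u / 12) := by ring
      linarith
    linarith

end

end ConclAux

open ConclAux in
theorem stmV2 : StmV2 := by
  intro h0 h1 Ω mΩ P _ F β hI T hT
  choose ξ hξm hξ0 hξ1 hξY using fun N : ℕ =>
    exists_level (P := P) (F := F) (β := β) h0 h1 hI hT (c := (1 / 2 : ℝ) ^ (N + 1))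
      (by positivity) (N : ℝ)
  set S : Ω → ℝ≥0∞ := fun ω => ∑' N, ENNReal.ofReal ((1 / 2 : ℝ) ^ (N + 1) * ξ N ω) with hS
  have hSm : Measurable[F T] S := by
    refine Measurable.ennreal_tsum fun N => ?_
    exact ENNReal.measurable_ofReal.comp ((hξm N).const_mul _)
  have hSm' : Measurable S := hSm.mono (F.le T) le_rfl
  have hfin : ∫⁻ ω, S ω ∂P ≠ ∞ := by
    have e1 : ∫⁻ ω, S ω ∂P = ∑' N, ∫⁻ ω, ENNReal.ofReal ((1 / 2 : ℝ) ^ (N + 1) * ξ N ω) ∂P := by
      rw [hS]
      refine lintegral_tsum fun N => ?_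
      exact (ENNReal.measurable_ofReal.comp
        (((hξm N).mono (F.le T) le_rfl).const_mul _)).aemeasurable
    have e2 : ∀ N, ∫⁻ ω, ENNReal.ofReal ((1 / 2 : ℝ) ^ (N + 1) * ξ N ω) ∂P ≤
        ENNReal.ofReal ((1 / 2 : ℝ) ^ (N + 1)) := by
      intro N
      have : ∀ ω, ENNReal.ofReal ((1 / 2 : ℝ) ^ (N + 1) * ξ N ω) =
          ENNReal.ofReal ((1 / 2 : ℝ) ^ (N + 1)) * ENNReal.ofReal (ξ N ω) := fun ω =>
        ENNReal.ofReal_mul (by positivity)
      simp_rw [this]
      have hmN : Measurable (fun ω => ENNReal.ofReal (ξ N ω)) :=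
        ENNReal.measurable_ofReal.comp ((hξm N).mono (F.le T) le_rfl)
      rw [lintegral_const_mul _ hmN]
      calc _ ≤ ENNReal.ofReal ((1 / 2 : ℝ) ^ (N + 1)) * 1 := by gcongr; exact hξ1 N
        _ = _ := mul_one _
    have e3 : ∑' N : ℕ, ENNReal.ofReal ((1 / 2 : ℝ) ^ (N + 1)) ≠ ∞ := by
      have hs : Summable (fun N : ℕ => (1 / 2 : ℝ) ^ (N + 1)) :=
        (summable_nat_add_iff 1).2 summable_geometric_two
      exact hs.tsum_ofReal_ne_top
    rw [e1]
    exact ne_top_of_le_ne_top e3 (ENNReal.tsum_le_tsum e2)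
  have hae : ∀ᵐ ω ∂P, S ω < ∞ := ae_lt_top hSm' hfin
  refine ⟨fun ω => (S ω).toReal, hSm.ennreal_toReal, fun ω => ENNReal.toReal_nonneg,
    integrable_toReal_of_lintegral_ne_top hSm'.aemeasurable hfin, ?_⟩
  rintro ⟨Y, hYm, hY0, hYT, hYs⟩
  have hall : ∀ᵐ ω ∂P, ∀ N : ℕ, (N : ℝ) ≤ Y 0 ω := by
    rw [ae_all_iff]
    intro N
    refine hξY N Y hYm hY0 hYs ?_
    filter_upwards [hYT, hae] with ω hω hlt
    rw [hω]
    have h3 : ENNReal.ofReal ((1 / 2 : ℝ) ^ (N + 1) * ξ N ω) ≤ S ω := ENNReal.le_tsum N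
    have h4 := ENNReal.toReal_mono hlt.ne h3
    rwa [ENNReal.toReal_ofReal (mul_nonneg (by positivity) (hξ0 N ω))] at h4
  obtain ⟨ω, hω⟩ := hall.exists
  obtain ⟨N, hN⟩ := exists_nat_gt (Y 0 ω)
  exact absurd (hω N) (not_le.2 hN)

end Pool.Agent.R228.BD
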