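import Pool.Agent.R228.BD.PathB

/-!
# MP_ed2581_pr: the exponential inequality for nonnegative solutions
-/

open MeasureTheory ProbabilityTheory Filter Topology
open scoped NNReal ENNReal

namespace Pool.Agent.R228.BD

open Pool.Agent.R228.BS (E IsBrownianVec natFilt ClassD)

section
variable {Ω : Type*} [mΩ : MeasurableSpace Ω] {P : Measure Ω}
  {F : Filtration ℝ≥0 mΩ} {d : ℕ} {B : ℝ≥0 → Ω → E d} {T : ℝ≥0} {Z : ℝ≥0 → Ω → E d}

lemma Zc_meas (hZ : ProgOn F T Z) : Measurable (fun p : ℝ × Ω => Z (min p.1.toNNReal T) p.2) := by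
  have h1 := (hZ T le_rfl).measurable
  have h2 : @Measurable (ℝ × Ω) (Set.Iic T × Ω) _ (Subtype.instMeasurableSpace.prod (F T))
      (fun p => (⟨min p.1.toNNReal T, Set.mem_Iic.2 (min_le_right _ _)⟩, p.2)) := by
    have h3 : Measurable (fun p : ℝ × Ω => (⟨min p.1.toNNReal T,
        Set.mem_Iic.2 (min_le_right _ _)⟩ : Set.Iic T)) := by
      refine Measurable.subtype_mk ?_
      fun_prop
    have h4 : @Measurable (ℝ × Ω) Ω _ (F T) (fun p => p.2) :=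
      measurable_snd.mono le_rfl (F.le T)
    exact @Measurable.prodMk _ _ _ _ _ (F T) _ _ h3 h4
  exact h1.comp h2

/-- the energy -/
noncomputable def JZ (T : ℝ≥0) (Z : ℝ≥0 → Ω → E d) (ω : Ω) : ℝ≥0∞ :=
  ∫⁻ s in Set.Icc (0 : ℝ) T, ‖Z s.toNNReal ω‖ₑ ^ 2

omit mΩ in
lemma min_toNNReal {T : ℝ≥0} {r : ℝ} (hr : r ≤ T) : min r.toNNReal T = r.toNNReal :=
  min_eq_left (Real.toNNReal_le_iff_le_coe.2 hr)

lemma JZ_meas (hZ : ProgOn F T Z) : Measurable (JZ T Z) := by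
  have h1 : JZ T Z = fun ω => ∫⁻ s in Set.Icc (0 : ℝ) T, ‖Z (min s.toNNReal T) ω‖ₑ ^ 2 := by
    funext ω
    unfold JZ
    refine setLIntegral_congr_fun measurableSet_Icc fun r hr => ?_
    rw [min_toNNReal hr.2]
  rw [h1]
  have h2 : Measurable (fun p : ℝ × Ω => ‖Z (min p.1.toNNReal T) p.2‖ₑ ^ 2) := by
    exact ((Zc_meas hZ).enorm).pow_const 2
  exact h2.lintegral_prod_left'

lemma Z_SqInt (hZ : ProgOn F T Z) {ω : Ω} (h : JZ T Z ω < ∞) :
    SqInt (T : ℝ) (fun r => Z r.toNNReal ω) := by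
  have hm : AEStronglyMeasurable (fun r : ℝ => Z r.toNNReal ω)
      (volume.restrict (Set.Ioc 0 (T : ℝ))) := by
    have h1 : Measurable (fun r : ℝ => Z (min r.toNNReal T) ω) :=
      (Zc_meas hZ).comp (measurable_id.prodMk measurable_const)
    refine h1.aestronglyMeasurable.congr ?_
    refine (ae_restrict_iff' measurableSet_Ioc).2 (Filter.Eventually.of_forall fun r hr => ?_)
    simp only
    rw [min_toNNReal hr.2]
  refine ⟨hm, hm.norm.pow 2, ?_⟩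
  rw [hasFiniteIntegral_iff_enorm]
  refine lt_of_le_of_lt ?_ h
  unfold JZ
  refine le_trans (lintegral_mono_set Set.Ioc_subset_Icc_self) (le_of_eq ?_)
  refine lintegral_congr fun r => ?_
  rw [enorm_pow, enorm_norm]

lemma JZ_int (hZ : ProgOn F T Z) {ω : Ω} (h : JZ T Z ω < ∞) :
    ∫ r in Set.Ioc (0 : ℝ) T, ‖Z r.toNNReal ω‖ ^ 2 ≤ (JZ T Z ω).toReal := by
  have hm : AEStronglyMeasurable (fun r : ℝ => ‖Z r.toNNReal ω‖ ^ 2)
    (volume.restrict (Set.Ioc 0 (T : ℝ))) := (Z_SqInt hZ h).meas.norm.pow 2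
  rw [integral_eq_lintegral_of_nonneg_ae (Filter.Eventually.of_forall fun r => by positivity) hm]
  refine ENNReal.toReal_mono h.ne ?_
  unfold JZ
  refine le_trans (lintegral_mono_set Set.Ioc_subset_Icc_self) (le_of_eq ?_)
  refine lintegral_congr fun r => ?_
  rw [ENNReal.ofReal_pow (norm_nonneg _), ofReal_norm]

lemma val_SqInt (V : SProc F d T) (ω : Ω) : SqInt (T : ℝ) (fun r => V.val r.toNNReal ω) := by
  have hm : Measurable (fun r : ℝ => V.val r.toNNReal ω) := by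
    unfold SProc.val
    refine Finset.measurable_sum _ fun k _ => ?_
    exact (measurable_const.indicator measurableSet_Ioc).comp measurable_real_toNNReal
  have hb : ∀ r, ‖V.val r ω‖ ≤ ∑ k ∈ Finset.range V.n, ‖V.ζ k ω‖ := by
    intro r
    unfold SProc.val
    refine (norm_sum_le _ _).trans (Finset.sum_le_sum fun k _ => ?_)
    by_cases h : r ∈ Set.Ioc (V.t k) (V.t (k + 1))
    · rw [Set.indicator_of_mem h]
    · rw [Set.indicator_of_notMem h, norm_zero]; exact norm_nonneg _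
  refine ⟨hm.aestronglyMeasurable, ?_⟩
  have h1 : IntegrableOn (fun _ : ℝ => (∑ k ∈ Finset.range V.n, ‖V.ζ k ω‖) ^ 2)
    (Set.Ioc 0 (T : ℝ)) := integrableOn_const (by simp)
  refine Integrable.mono' h1 (hm.norm.pow_const 2).aestronglyMeasurable
    (Filter.Eventually.of_forall fun r => ?_)
  rw [Real.norm_eq_abs, abs_of_nonneg (by positivity)]
  exact pow_le_pow_left₀ (norm_nonneg _) (hb _) 2

lemma close_int (hZ : ProgOn F T Z) (V : SProc F d T) {ω : Ω} (h : JZ T Z ω < ∞) {ε : ℝ}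
    (hε : 0 ≤ ε) (hcl : ∫⁻ s in Set.Icc (0 : ℝ) T, ‖V.val s.toNNReal ω - Z s.toNNReal ω‖ₑ ^ 2 ≤
      ENNReal.ofReal ε) :
    ∫ r in Set.Ioc (0 : ℝ) T, ‖V.val r.toNNReal ω - Z r.toNNReal ω‖ ^ 2 ≤ ε := by
  have hs := (Z_SqInt hZ h).sub (val_SqInt V ω)
  have hm : AEStronglyMeasurable (fun r : ℝ => ‖V.val r.toNNReal ω - Z r.toNNReal ω‖ ^ 2)
    (volume.restrict (Set.Ioc 0 (T : ℝ))) := hs.meas.norm.pow 2
  rw [integral_eq_lintegral_of_nonneg_ae (Filter.Eventually.of_forall fun r => by positivity) hm]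
  refine ENNReal.toReal_le_of_le_ofReal hε (le_trans ?_ hcl)
  refine le_trans (lintegral_mono_set Set.Ioc_subset_Icc_self) (le_of_eq ?_)
  refine lintegral_congr fun r => ?_
  rw [ENNReal.ofReal_pow (norm_nonneg _), ofReal_norm]

lemma I_le {z : ℝ → E d} {T : ℝ} (hz : SqInt T z) {v : E d} {q : ℝ} (hv : ‖v‖ = q) (α : ℝ)
    {s t : ℝ} (hs : 0 ≤ s) (hst : s ≤ t) (htT : t ≤ T) {J : ℝ}
    (hJ : ∫ r in Set.Ioc (0 : ℝ) T, ‖z r‖ ^ 2 ≤ J) :
    ∫ x in s..t, ‖v - α • z x‖ ^ 2 ≤ 2 * q ^ 2 * (t - s) + 2 * α ^ 2 * J := by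
  have hsub : Set.Ioc s t ⊆ Set.Ioc 0 T := ioc_sub hs htT
  have i1 := ((hz.lin v α).int).mono_set hsub
  have i0 : IntegrableOn (fun _ : ℝ => 2 * q ^ 2) (Set.Ioc s t) := integrableOn_const (by simp)
  have i2 := (hz.int.mono_set hsub).const_mul (2 * α ^ 2)
  rw [intervalIntegral.integral_of_le hst]
  calc ∫ x in Set.Ioc s t, ‖v - α • z x‖ ^ 2
      ≤ ∫ x in Set.Ioc s t, (2 * q ^ 2 + 2 * α ^ 2 * ‖z x‖ ^ 2) := by
        refine integral_mono i1 (i0.add i2) fun x => ?_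
        simp only
        have h1 : ‖v - α • z x‖ ≤ q + |α| * ‖z x‖ := by
          refine (norm_sub_le _ _).trans ?_
          rw [norm_smul, Real.norm_eq_abs, hv]
        have h2 : 0 ≤ |α| * ‖z x‖ := by positivity
        have h3 : (|α| * ‖z x‖) ^ 2 = α ^ 2 * ‖z x‖ ^ 2 := by rw [mul_pow, sq_abs]
        have h4 : 0 ≤ q := hv ▸ norm_nonneg v
        nlinarith [norm_nonneg (v - α • z x), sq_nonneg (q - |α| * ‖z x‖)]
    _ = 2 * q ^ 2 * (t - s) + 2 * α ^ 2 * ∫ x in Set.Ioc s t, ‖z x‖ ^ 2 := by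
        have e1 : ∫ x in Set.Ioc s t, (2 * α ^ 2 * ‖z x‖ ^ 2) =
            2 * α ^ 2 * ∫ x in Set.Ioc s t, ‖z x‖ ^ 2 := integral_const_mul _ _
        have e2 : ∫ _ in Set.Ioc s t, (2 * q ^ 2) = 2 * q ^ 2 * (t - s) := by
          rw [setIntegral_const, smul_eq_mul,
            measureReal_def, Real.volume_Ioc, ENNReal.toReal_ofReal (sub_nonneg.2 hst)]
          ring
        rw [integral_add i0 i2, e1, e2]
    _ ≤ _ := by
        have h5 : ∫ x in Set.Ioc s t, ‖z x‖ ^ 2 ≤ ∫ x in Set.Ioc 0 T, ‖z x‖ ^ 2 :=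
          setIntegral_mono_set hz.int (Filter.Eventually.of_forall fun x => by positivity)
            hsub.eventuallyLE
        have h6 : 0 ≤ 2 * α ^ 2 := by positivity
        nlinarith [mul_le_mul_of_nonneg_left (h5.trans hJ) h6]

omit mΩ in
lemma eS_split {τ : ℕ → ℝ≥0} {w : ℕ → Ω → E d} (n : ℕ) (ω : Ω) :
    eS B τ w n ω = (∑ k ∈ Finset.range n, inner ℝ (w k ω) (B (τ (k + 1)) ω - B (τ k) ω))
      - qV τ w n ω / 2 := by
  unfold eS qV
  rw [Finset.sum_sub_distrib, Finset.sum_div]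

omit mΩ in
lemma eS_const {τ : ℕ → ℝ≥0} (v : E d) (n : ℕ) (ω : Ω) :
    eS B τ (fun _ _ => v) n ω = inner ℝ v (B (τ n) ω - B (τ 0) ω)
      - ‖v‖ ^ 2 * ((τ n : ℝ) - τ 0) / 2 := by
  rw [eS_split]
  congr 1
  · rw [← inner_sum, Finset.sum_range_sub (fun k => B (τ k) ω)]
  · unfold qV
    rw [← Finset.mul_sum, Finset.sum_range_sub (fun k => (τ k : ℝ))]

omit mΩ in
lemma qV_const {τ : ℕ → ℝ≥0} (v : E d) (n : ℕ) (ω : Ω) :
    qV τ (fun _ _ => v) n ω = ‖v‖ ^ 2 * ((τ n : ℝ) - τ 0) := by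
  unfold qV
  rw [← Finset.mul_sum, Finset.sum_range_sub (fun k => (τ k : ℝ))]

/-- The pointwise inequality. -/
lemma key_pt (hZ : ProgOn F T Z) (V : SProc F d T) {ω : Ω} (hJ : JZ T Z ω < ∞)
    {M Y : ℝ≥0 → Ω → ℝ} {ξ : Ω → ℝ}
    (heq : ∀ t : ℝ≥0, t ≤ T →
      Y t ω = ξ ω + (∫ s in (t : ℝ)..T, fgen (Z s.toNNReal ω)) - (M T ω - M t ω))
    {ε ε₂ δ C₂ q R : ℝ} (hε : ∀ r : ℝ≥0, r ≤ T → |V.int B r ω - M r ω| ≤ ε)
    (hcl : ∫ r in Set.Ioc (0 : ℝ) T, ‖V.val r.toNNReal ω - Z r.toNNReal ω‖ ^ 2 ≤ ε₂)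
    (hδ : 0 < δ) {v : E d} (hq : 0 < q) (hR : 0 < R) (hv : ‖v‖ = q)
    (h : q ≤ 1 / √(Real.log (Real.exp 1 + R))) {s t : ℝ≥0} (hst : s ≤ t) (htT : t ≤ T)
    (hI : ∫ x in (s : ℝ)..t, ‖v - (2 * q / R) • Z x.toNNReal ω‖ ^ 2 ≤ C₂) {m : ℕ}
    (hm : m ≤ V.n) :
    eS B (cg V s t) (wc V t v (2 * q / R)) m ω ≤
      inner ℝ v (B (cg V s t m) ω - B s ω) - q ^ 2 / 2 * ((cg V s t m : ℝ) - s)
        - (2 * q / R) * (Y (cg V s t m) ω - Y s ω) + 2 * (2 * q / R) * ε +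
        ((1 + 1 / δ) * (2 * q / R) ^ 2 * ε₂ + δ * C₂) / 2 := by
  set α := 2 * q / R with hα
  have hα0 : 0 < α := by positivity
  set r : ℝ≥0 := cg V s t m with hr
  have hsr : s ≤ r := le_max_left _ _
  have hrt : r ≤ t := max_le hst (min_le_right _ _)
  have hrT : r ≤ T := hrt.trans htT
  have hz := Z_SqInt hZ hJ
  have hvv := val_SqInt V ω
  have hs0 : (0 : ℝ) ≤ s := s.coe_nonneg
  have hsr' : (s : ℝ) ≤ r := by exact_mod_cast hsr
  have hrt' : (r : ℝ) ≤ t := by exact_mod_cast hrt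
  have htT' : (t : ℝ) ≤ T := by exact_mod_cast htT
  have hrT' : (r : ℝ) ≤ T := by exact_mod_cast hrT
  have h1 := path_close hz hvv v α hδ hs0 hsr' hrt' htT'
  have h2 := path_f hz hq hR hv h hs0 hsr' hrT'
  have h3 : qV (cg V s t) (wc V t v α) m ω = _ := qV_eq V (s := s) (t := t) v α ω hm
  have h4 := wc_sum (B := B) V hst v α ω hm
  rw [eS_split, h4, h3, ← hr]
  rw [abs_le] at h1
  have h5 := abs_le.1 (hε r hrT)
  have h6 := abs_le.1 (hε s (hsr.trans hrT))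
  have h7 : Y r ω - Y s ω = -(∫ x in (s : ℝ)..r, fgen (Z x.toNNReal ω)) + (M r ω - M s ω) := by
    rw [heq r hrT, heq s (hsr.trans hrT)]
    have h8 : ∫ x in (s : ℝ)..T, fgen (Z x.toNNReal ω) =
        (∫ x in (s : ℝ)..r, fgen (Z x.toNNReal ω)) + ∫ x in (r : ℝ)..T, fgen (Z x.toNNReal ω) := by
      rw [intervalIntegral.integral_add_adjacent_intervals]
      · rw [intervalIntegrable_iff_integrableOn_Ioc_of_le hsr']
        exact hz.fint.mono_set (ioc_sub hs0 hrT')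
      · rw [intervalIntegrable_iff_integrableOn_Ioc_of_le hrT']
        exact hz.fint.mono_set (ioc_sub r.coe_nonneg le_rfl)
    rw [h8]
    ring
  rw [h7]
  have h9 : (1 + 1 / δ) * α ^ 2 *
      (∫ x in Set.Ioc (0 : ℝ) T, ‖V.val x.toNNReal ω - Z x.toNNReal ω‖ ^ 2) ≤
      (1 + 1 / δ) * α ^ 2 * ε₂ := mul_le_mul_of_nonneg_left hcl (by positivity)
  have h10 : δ * ∫ x in (s : ℝ)..t, ‖v - α • Z x.toNNReal ω‖ ^ 2 ≤ δ * C₂ :=
    mul_le_mul_of_nonneg_left hI hδ.le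
  have h11 : -(α * (V.int B r ω - V.int B s ω)) ≤ -(α * (M r ω - M s ω)) + 2 * α * ε := by
    have h12 : (M r ω - M s ω) - (V.int B r ω - V.int B s ω) ≤ 2 * ε := by
      linarith [h5.1, h6.2]
    nlinarith [mul_le_mul_of_nonneg_left h12 hα0.le]
  have h13 : α * (-(∫ x in (s : ℝ)..r, fgen (Z x.toNNReal ω)) + (M r ω - M s ω)) =
    -(α * ∫ x in (s : ℝ)..r, fgen (Z x.toNNReal ω)) + α * (M r ω - M s ω) := by ring
  rw [h13]
  linarith [h1.1, h1.2, h2, h9, h10, h11]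

end

end Pool.Agent.R228.BD
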