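import Pool.Agent.R228.BS.Defs

/-!
# MP_ed2581_pr: definitions

The backward stochastic differential equation with generator `|z| / √(ln (e + |z|))`.
`E d` (Euclidean space), `IsBrownianVec`, `natFilt` (completed natural filtration) and `ClassD`
are those of `Pool.Agent.R228.BS.Defs`.
-/

open MeasureTheory ProbabilityTheory Filter Topology
open scoped NNReal ENNReal

namespace Pool.Agent.R228.BD

open Pool.Agent.R228.BS (E IsBrownianVec natFilt ClassD)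

/-- The generator `f(z) = |z| (ln (e + |z|))^{-1/2}`. -/
noncomputable def fgen {d : ℕ} (z : E d) : ℝ := ‖z‖ / √(Real.log (Real.exp 1 + ‖z‖))

/-- A simple process on `[0,T]`: `0 = t 0 ≤ t 1 ≤ ... ≤ t n = T`, and the process is equal to the
bounded `F_{t k}`-measurable random vector `ζ k` on `(t k, t (k+1)]`. -/
structure SProc {Ω : Type*} [mΩ : MeasurableSpace Ω] (F : Filtration ℝ≥0 mΩ) (d : ℕ)
    (T : ℝ≥0) where
  n : ℕ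
  t : ℕ → ℝ≥0
  mono : Monotone t
  zero : t 0 = 0
  last : t n = T
  ζ : ℕ → Ω → E d
  meas : ∀ k, StronglyMeasurable[F (t k)] (ζ k)
  bdd : ∃ C : ℝ, ∀ k ω, ‖ζ k ω‖ ≤ C

/-- The value of a simple process at time `s`. -/
noncomputable def SProc.val {Ω : Type*} [mΩ : MeasurableSpace Ω] {F : Filtration ℝ≥0 mΩ}
    {d : ℕ} {T : ℝ≥0} (V : SProc F d T) (s : ℝ≥0) (ω : Ω) : E d :=
  ∑ k ∈ Finset.range V.n, (Set.Ioc (V.t k) (V.t (k + 1))).indicator (fun _ => V.ζ k ω) s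

/-- The stochastic integral `∫_0^t V · dB` of a simple process. -/
noncomputable def SProc.int {Ω : Type*} [mΩ : MeasurableSpace Ω] {F : Filtration ℝ≥0 mΩ}
    {d : ℕ} {T : ℝ≥0} (V : SProc F d T) (B : ℝ≥0 → Ω → E d) (t : ℝ≥0) (ω : Ω) : ℝ :=
  ∑ k ∈ Finset.range V.n,
    inner ℝ (V.ζ k ω) (B (min (V.t (k + 1)) t) ω - B (min (V.t k) t) ω)

/-- `M` is (a version of) the Itô integral process `(∫_0^t Z · dB)`, `t ∈ [0,T]`: there are simple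
processes `V n` such that `∫_0^T |V n - Z|² ds → 0` and `sup_{t ≤ T} |∫_0^t V n · dB - M_t| → 0`
in probability. -/
def IsIto {Ω : Type*} [mΩ : MeasurableSpace Ω] (P : Measure Ω) (F : Filtration ℝ≥0 mΩ)
    {d : ℕ} (B : ℝ≥0 → Ω → E d) (T : ℝ≥0) (Z : ℝ≥0 → Ω → E d) (M : ℝ≥0 → Ω → ℝ) : Prop :=
  ∃ V : ℕ → SProc F d T,
    (∀ ε : ℝ≥0∞, 0 < ε → Tendsto (fun n => P {ω | ε ≤
      ∫⁻ s in Set.Icc (0 : ℝ) T, ‖(V n).val s.toNNReal ω - Z s.toNNReal ω‖ₑ ^ 2}) atTop (𝓝 0)) ∧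
    (∀ ε : ℝ, 0 < ε → Tendsto (fun n => P {ω | ∃ t : ℝ≥0, t ≤ T ∧
      ε ≤ |(V n).int B t ω - M t ω|}) atTop (𝓝 0))

/-- Progressive measurability on `[0,T]`. -/
def ProgOn {Ω X : Type*} [mΩ : MeasurableSpace Ω] [TopologicalSpace X] (F : Filtration ℝ≥0 mΩ)
    (T : ℝ≥0) (Y : ℝ≥0 → Ω → X) : Prop :=
  ∀ i ≤ T, StronglyMeasurable[Subtype.instMeasurableSpace.prod (F i)]
    fun p : Set.Iic i × Ω => Y p.1 p.2

/-- `(Y, Z)` is a solution of `Y_t = ξ + ∫_t^T f(Z_s) ds - ∫_t^T Z_s · dB_s`, `t ∈ [0,T]`. -/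
structure IsSol {Ω : Type*} [mΩ : MeasurableSpace Ω] (P : Measure Ω) (F : Filtration ℝ≥0 mΩ)
    {d : ℕ} (B : ℝ≥0 → Ω → E d) (T : ℝ≥0) (ξ : Ω → ℝ) (Y : ℝ≥0 → Ω → ℝ)
    (Z : ℝ≥0 → Ω → E d) : Prop where
  progY : ProgOn F T Y
  progZ : ProgOn F T Z
  cont : ∀ᵐ ω ∂P, ContinuousOn (fun t => Y t ω) (Set.Iic T)
  sq : ∀ᵐ ω ∂P, ∫⁻ s in Set.Icc (0 : ℝ) T, ‖Z s.toNNReal ω‖ₑ ^ 2 < ∞
  eqn : ∃ M : ℝ≥0 → Ω → ℝ, IsIto P F B T Z M ∧ ∀ᵐ ω ∂P, ∀ t : ℝ≥0, t ≤ T →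
    Y t ω = ξ ω + (∫ s in (t : ℝ)..T, fgen (Z s.toNNReal ω)) - (M T ω - M t ω)

end Pool.Agent.R228.BD
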