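import Pool.Agent.R228.BD.Core

/-!
# MP_ed2581_pr: the core estimate
-/

open MeasureTheory ProbabilityTheory Filter Topology
open scoped NNReal ENNReal

namespace Pool.Agent.R228.BD

open Pool.Agent.R228.BS (E IsBrownianVec natFilt ClassD)

section
variable {Ω : Type*} [mΩ : MeasurableSpace Ω] {P : Measure Ω} [IsProbabilityMeasure P]
  {F : Filtration ℝ≥0 mΩ} {d : ℕ} {B : ℝ≥0 → Ω → E d} {T : ℝ≥0} {Z : ℝ≥0 → Ω → E d}

/-- the bad event -/
def Bad (B : ℝ≥0 → Ω → E d) (T : ℝ≥0) (Z : ℝ≥0 → Ω → E d) (M : ℝ≥0 → Ω → ℝ) (V : SProc F d T)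
    (ε ε₂ c₂ : ℝ) : Set Ω :=
  ({ω | ∃ t : ℝ≥0, t ≤ T ∧ ε ≤ |V.int B t ω - M t ω|} ∪
    {ω | ENNReal.ofReal ε₂ ≤
      ∫⁻ s in Set.Icc (0 : ℝ) T, ‖V.val s.toNNReal ω - Z s.toNNReal ω‖ₑ ^ 2}) ∪
    {ω | c₂ < (JZ T Z ω).toReal}

lemma core_est (hB : IncVec P F B) (hZ : ProgOn F T Z) (V : SProc F d T)
    (hJ : ∀ᵐ ω ∂P, JZ T Z ω < ∞) {M Y : ℝ≥0 → Ω → ℝ} {ξ : Ω → ℝ}
    (heq : ∀ᵐ ω ∂P, ∀ t : ℝ≥0, t ≤ T →
      Y t ω = ξ ω + (∫ s in (t : ℝ)..T, fgen (Z s.toNNReal ω)) - (M T ω - M t ω))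
    (hYm : ∀ t ≤ T, Measurable[F t] (Y t)) (hpos : ∀ t ≤ T, ∀ᵐ ω ∂P, 0 ≤ Y t ω)
    {s t : ℝ≥0} (hst : s ≤ t) (htT : t ≤ T) {q R : ℝ} (hq : 0 < q) (hR : 0 < R)
    (h : q ≤ 1 / √(Real.log (Real.exp 1 + R))) {v : E d} (hv : ‖v‖ = q)
    {A : Set Ω} (hA : MeasurableSet[F s] A)
    {ε ε₂ δ c₁ c₂ η : ℝ} (hε : 0 < ε) (hε₂ : 0 < ε₂) (hδ : 0 < δ) (hc₁ : 0 ≤ c₁)
    (hη₀ : (1 + 1 / δ) * (2 * q / R) ^ 2 * ε₂ +
      δ * (2 * q ^ 2 * ((t : ℝ) - s) + 2 * (2 * q / R) ^ 2 * c₂) ≤ 1)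
    (hη : 2 * (2 * q / R) * ε + ((1 + 1 / δ) * (2 * q / R) ^ 2 * ε₂ +
      δ * (2 * q ^ 2 * ((t : ℝ) - s) + 2 * (2 * q / R) ^ 2 * c₂)) / 2 ≤ η)
    {D1 D2 : ℝ≥0∞} (hD1 : D1 ≠ 0) (hD1' : D1 ≠ ∞) (hD2 : D2 ≠ 0) (hD2' : D2 ≠ ∞) :
    ∫⁻ ω in A, ENNReal.ofReal (Real.exp (-(2 * q / R) * Y s ω)) ∂P ≤
      ENNReal.ofReal (Real.exp η) *
        ∫⁻ ω in A, ENNReal.ofReal (Real.exp (inner ℝ v (B t ω - B s ω)
          - q ^ 2 * ((t : ℝ) - s) / 2 - (2 * q / R) * Y t ω)) ∂P +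
      ENNReal.ofReal (Real.exp η) * (D2 * ENNReal.ofReal (Real.exp (q ^ 2 * ((t : ℝ) - s))) +
        D2⁻¹ * P {ω | c₁ < (JZ T Z ω).toReal}) +
      (D1 * ENNReal.ofReal (Real.exp (1 + 2 * q ^ 2 * ((t : ℝ) - s) +
          2 * (2 * q / R) ^ 2 * c₁)) + D1⁻¹ * P (Bad B T Z M V ε ε₂ c₂)) := by
  set α := 2 * q / R with hα
  have hα0 : 0 < α := by positivity
  set c : ℝ := 1 + 2 * q ^ 2 * ((t : ℝ) - s) + 2 * α ^ 2 * c₁ with hc
  have hst' : (0 : ℝ) ≤ (t : ℝ) - s := sub_nonneg.2 (by exact_mod_cast hst)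
  have hc0 : 0 ≤ c := by positivity
  set τ := cg V s t with hτ
  have hτm : Monotone τ := cg_mono V s t
  have hτ0 : τ 0 = s := cg_zero V s t
  have hτn : τ V.n = t := cg_last V hst htT
  set w := wc V t v α with hw
  have hwm : ∀ k, Measurable[F (τ k)] (w k) := fun k => wc_meas V s t v α k
  have hvm : ∀ k, Measurable[F (τ k)] ((fun (_ : ℕ) (_ : Ω) => v) k) := fun k =>
    @measurable_const _ _ _ (F (τ k)) v
  set W := stopW τ w c w with hW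
  set W' := stopW τ w c (fun _ _ => v) with hW'
  have hWm : ∀ k, Measurable[F (τ k)] (W k) := fun k => stopW_meas hτm hwm hwm c k
  have hWm' : ∀ k, Measurable[F (τ k)] (W' k) := fun k => stopW_meas hτm hwm hvm c k
  have hWm1 : Measurable (eS B τ W V.n) := (eS_meas hB hτm hWm V.n).mono (F.le _) le_rfl
  have hWm2 : Measurable (eS B τ W' V.n) := (eS_meas hB hτm hWm' V.n).mono (F.le _) le_rfl
  have hYsm : Measurable (Y s) := (hYm s (hst.trans htT)).mono (F.le s) le_rfl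
  have hYtm : Measurable (Y t) := (hYm t htT).mono (F.le t) le_rfl
  have hAm : MeasurableSet A := F.le s _ hA
  have hqW : ∀ ω, qV τ W V.n ω ≤ c := fun ω => by
    rw [hW, qV_stop hτm w w hc0]; exact qV_stopIdx_le w hc0 V.n ω
  have hqW' : ∀ ω, qV τ W' V.n ω ≤ q ^ 2 * ((t : ℝ) - s) := fun ω => by
    rw [hW', qV_stop hτm w _ hc0, qV_const, hv, hτ0]
    have h1 : τ (stopIdx τ w c V.n ω) ≤ t := by
      rw [← hτn]; exact hτm (stop_le τ w c V.n ω)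
    have h2 : ((τ (stopIdx τ w c V.n ω) : ℝ≥0) : ℝ) ≤ t := by exact_mod_cast h1
    have h3 : 0 ≤ q ^ 2 := by positivity
    nlinarith
  -- the function `g`
  set g : Ω → ℝ≥0∞ := A.indicator (fun ω => ENNReal.ofReal (Real.exp (-α * Y s ω))) with hg
  have hgm : Measurable[F (τ 0)] g := by
    rw [hτ0]
    refine Measurable.indicator ?_ hA
    exact (((hYm s (hst.trans htT)).const_mul (-α)).exp).ennreal_ofReal
  have hgm' : Measurable g := hgm.mono (F.le _) le_rfl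
  set H : Ω → ℝ≥0∞ := fun ω => g ω * ENNReal.ofReal (Real.exp (eS B τ W V.n ω)) with hH
  have hHm : Measurable H := hgm'.mul hWm1.exp.ennreal_ofReal
  have e1 : ∫⁻ ω in A, ENNReal.ofReal (Real.exp (-α * Y s ω)) ∂P = ∫⁻ ω, H ω ∂P := by
    rw [exp_grid hB hτm hWm hgm V.n, hg, lintegral_indicator hAm]
  set Bd := toMeasurable P (Bad B T Z M V ε ε₂ c₂) with hBd
  have hBdm : MeasurableSet Bd := measurableSet_toMeasurable _ _
  have hBdP : P Bd = P (Bad B T Z M V ε ε₂ c₂) := measure_toMeasurable _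
  have e2 : ∫⁻ ω, H ω ∂P = ∫⁻ ω in Bd, H ω ∂P + ∫⁻ ω in Bdᶜ, H ω ∂P :=
    (lintegral_add_compl H hBdm).symm
  -- the bad part
  have e3 : ∫⁻ ω in Bd, H ω ∂P ≤ D1 * ENNReal.ofReal (Real.exp c) +
      D1⁻¹ * P (Bad B T Z M V ε ε₂ c₂) := by
    rw [← hBdP]
    refine le_trans ?_ (exp_ui hB hτm hWm V.n c hqW D1 hD1 hD1' Bd)
    refine lintegral_mono_ae (ae_restrict_of_ae ?_)
    filter_upwards [hpos s (hst.trans htT)] with ω hω
    have h1 : g ω ≤ 1 := by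
      by_cases hωA : ω ∈ A
      · rw [hg, Set.indicator_of_mem hωA, ← ENNReal.ofReal_one]
        refine ENNReal.ofReal_le_ofReal ?_
        rw [Real.exp_le_one_iff]
        nlinarith
      · rw [hg, Set.indicator_of_notMem hωA]; exact zero_le_one
    calc H ω ≤ 1 * ENNReal.ofReal (Real.exp (eS B τ W V.n ω)) := by
          simp only [hH]; gcongr
      _ = _ := one_mul _
  -- the good part
  have hJm : Measurable (fun ω => (JZ T Z ω).toReal) := (JZ_meas hZ).ennreal_toReal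
  have hSm : MeasurableSet {ω | c₁ < (JZ T Z ω).toReal} := measurableSet_lt measurable_const hJm
  set G1 : Ω → ℝ≥0∞ := A.indicator (fun ω => ENNReal.ofReal (Real.exp (inner ℝ v (B t ω - B s ω)
          - q ^ 2 * ((t : ℝ) - s) / 2 - α * Y t ω))) with hG1
  set G2 : Ω → ℝ≥0∞ := {ω | c₁ < (JZ T Z ω).toReal}.indicator
    (fun ω => ENNReal.ofReal (Real.exp (eS B τ W' V.n ω))) with hG2
  have hG1m : Measurable G1 := by
    refine Measurable.indicator ?_ hAm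
    have h1 : Measurable (fun ω => inner ℝ v (B t ω - B s ω)) :=
      measurable_const.inner ((hB.meas t).sub (hB.meas s))
    exact (((h1.sub_const _).sub (hYtm.const_mul α)).exp).ennreal_ofReal
  have hG2m : Measurable G2 := Measurable.indicator hWm2.exp.ennreal_ofReal hSm
  have hYgrid : ∀ᵐ ω ∂P, ∀ k, k ≤ V.n → 0 ≤ Y (τ k) ω := by
    rw [ae_all_iff]
    intro k
    have hle : τ k ≤ T := (max_le hst (min_le_right _ _)).trans htT
    filter_upwards [hpos (τ k) hle] with ω hω _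
    exact hω
  have e4 : ∫⁻ ω in Bdᶜ, H ω ∂P ≤ ENNReal.ofReal (Real.exp η) * ∫⁻ ω, G1 ω ∂P +
      ENNReal.ofReal (Real.exp η) * ∫⁻ ω, G2 ω ∂P := by
    rw [← lintegral_const_mul _ hG1m, ← lintegral_const_mul _ hG2m,
      ← lintegral_add_left (hG1m.const_mul _)]
    refine le_trans ?_ (setLIntegral_le_lintegral Bdᶜ _)
    refine lintegral_mono_ae ?_
    rw [ae_restrict_iff' hBdm.compl]
    filter_upwards [hJ, heq, hYgrid] with ω h1 h2 h3 h4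
    have h5 : ω ∉ Bad B T Z M V ε ε₂ c₂ := fun h => h4 (subset_toMeasurable _ _ h)
    have hb1 : ∀ r : ℝ≥0, r ≤ T → |V.int B r ω - M r ω| ≤ ε := by
      intro r hr
      by_contra hcon
      exact h5 (Or.inl (Or.inl ⟨r, hr, (not_le.1 hcon).le⟩))
    have hb2 : ∫⁻ s in Set.Icc (0 : ℝ) T, ‖V.val s.toNNReal ω - Z s.toNNReal ω‖ₑ ^ 2 ≤
        ENNReal.ofReal ε₂ := by
      by_contra hcon
      exact h5 (Or.inl (Or.inr (not_le.1 hcon).le))
    have hb3 : (JZ T Z ω).toReal ≤ c₂ := by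
      by_contra hcon
      exact h5 (Or.inr (not_le.1 hcon))
    by_cases hωA : ω ∈ A
    swap
    · simp only [hH, hg, Set.indicator_of_notMem hωA, zero_mul]
      exact zero_le
    have hcl := close_int hZ V h1 hε₂.le hb2
    have hzS := Z_SqInt hZ h1
    have hs0 : (0 : ℝ) ≤ s := s.coe_nonneg
    have hstR : (s : ℝ) ≤ t := by exact_mod_cast hst
    have htTR : (t : ℝ) ≤ T := by exact_mod_cast htT
    have hI1 := I_le hzS hv α hs0 hstR htTR (JZ_int hZ h1)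
    have hI2 : ∫ x in (s : ℝ)..t, ‖v - α • Z x.toNNReal ω‖ ^ 2 ≤
        2 * q ^ 2 * ((t : ℝ) - s) + 2 * α ^ 2 * c₂ := by
      have : 2 * α ^ 2 * (JZ T Z ω).toReal ≤ 2 * α ^ 2 * c₂ :=
        mul_le_mul_of_nonneg_left hb3 (by positivity)
      linarith
    set κ := stopIdx τ w c V.n ω with hκ
    have hκn : κ ≤ V.n := stop_le τ w c V.n ω
    have hkey := key_pt (B := B) hZ V h1 h2 hb1 hcl hδ hq hR hv h hst htT hI2 hκn
    rw [← hα] at hkey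
    have hW1 : eS B τ W V.n ω = eS B τ w κ ω := eS_stop hτm w w hc0 V.n ω
    have hW2 : eS B τ W' V.n ω = inner ℝ v (B (τ κ) ω - B s ω)
        - q ^ 2 * ((τ κ : ℝ) - s) / 2 := by
      rw [hW', eS_stop hτm w _ hc0 V.n ω, eS_const, hv, hτ0]
    have hHω : H ω = ENNReal.ofReal (Real.exp (-α * Y s ω + eS B τ w κ ω)) := by
      simp only [hH, hg, Set.indicator_of_mem hωA]
      rw [← ENNReal.ofReal_mul (Real.exp_pos _).le, ← Real.exp_add, hW1]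
    rw [hHω]
    have hYκ := h3 κ hκn
    have hkey2 : -α * Y s ω + eS B τ w κ ω ≤ η + (inner ℝ v (B (τ κ) ω - B s ω)
        - q ^ 2 * ((τ κ : ℝ) - s) / 2 - α * Y (τ κ) ω) := by
      have h6 : eS B τ w κ ω ≤ inner ℝ v (B (τ κ) ω - B s ω)
        - q ^ 2 / 2 * ((τ κ : ℝ) - s)
        - α * (Y (τ κ) ω - Y s ω) + 2 * α * ε +
        ((1 + 1 / δ) * α ^ 2 * ε₂ + δ * (2 * q ^ 2 * ((t : ℝ) - s) + 2 * α ^ 2 * c₂)) / 2 := hkey
      have h7 : α * (Y (τ κ) ω - Y s ω) = α * Y (τ κ) ω - α * Y s ω := by ring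
      rw [h7] at h6
      linarith
    rcases eq_or_lt_of_le hκn with hκe | hκl
    · refine le_trans ?_ le_self_add
      rw [hG1, Set.indicator_of_mem hωA, ← ENNReal.ofReal_mul (Real.exp_pos _).le,
        ← Real.exp_add]
      refine ENNReal.ofReal_le_ofReal (Real.exp_le_exp.2 ?_)
      rw [hκe, hτn] at hkey2
      rw [hκe]
      exact hkey2
    · refine le_trans ?_ le_add_self
      -- the energy is large
      have h8 : c < qV τ w V.n ω := by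
        have h9 : ¬ qV τ w (κ + 1) ω ≤ c := fun hh =>
          absurd ((stop_iff hτm w hc0 hκl ω).1 hh) (lt_irrefl _)
        exact (not_le.1 h9).trans_le (qV_mono hτm w ω (Nat.succ_le_of_lt hκl))
      have h10 : qV τ w V.n ω = ∫ r in (s : ℝ)..t, ‖v - α • V.val r.toNNReal ω‖ ^ 2 := by
        rw [hτ, hw, qV_eq V v α ω le_rfl, ← hτ, hτn]
      have h11 := path_close hzS (val_SqInt V ω) v α hδ hs0 hstR le_rfl htTR
      rw [← h10, abs_le] at h11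
      have h12 : (1 + 1 / δ) * α ^ 2 *
        (∫ x in Set.Ioc (0 : ℝ) T, ‖V.val x.toNNReal ω - Z x.toNNReal ω‖ ^ 2) ≤
        (1 + 1 / δ) * α ^ 2 * ε₂ := mul_le_mul_of_nonneg_left hcl (by positivity)
      have h13 : δ * ∫ x in (s : ℝ)..t, ‖v - α • Z x.toNNReal ω‖ ^ 2 ≤
        δ * (2 * q ^ 2 * ((t : ℝ) - s) + 2 * α ^ 2 * c₂) := mul_le_mul_of_nonneg_left hI2 hδ.le
      have h14 : c₁ < (JZ T Z ω).toReal := by
        have h15 : 2 * α ^ 2 * c₁ < 2 * α ^ 2 * (JZ T Z ω).toReal := by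
          linarith [h11.2]
        have h16 : 0 < 2 * α ^ 2 := by positivity
        exact lt_of_mul_lt_mul_left h15 h16.le
      have hmem : ω ∈ {ω | c₁ < (JZ T Z ω).toReal} := by simpa using h14
      rw [hG2, Set.indicator_of_mem hmem, ← ENNReal.ofReal_mul (Real.exp_pos _).le,
        ← Real.exp_add]
      refine ENNReal.ofReal_le_ofReal (Real.exp_le_exp.2 ?_)
      rw [hW2]
      have : 0 ≤ α * Y (τ κ) ω := mul_nonneg hα0.le hYκ
      linarith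
  have e5 : ∫⁻ ω, G1 ω ∂P = ∫⁻ ω in A, ENNReal.ofReal (Real.exp (inner ℝ v (B t ω - B s ω)
          - q ^ 2 * ((t : ℝ) - s) / 2 - α * Y t ω)) ∂P := by
    rw [hG1, lintegral_indicator hAm]
  have e6 : ∫⁻ ω, G2 ω ∂P ≤ D2 * ENNReal.ofReal (Real.exp (q ^ 2 * ((t : ℝ) - s))) +
        D2⁻¹ * P {ω | c₁ < (JZ T Z ω).toReal} := by
    rw [hG2, lintegral_indicator hSm]
    exact exp_ui hB hτm hWm' V.n _ hqW' D2 hD2 hD2' _
  rw [e1, e2]
  rw [e5] at e4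
  calc _ ≤ (D1 * ENNReal.ofReal (Real.exp c) + D1⁻¹ * P (Bad B T Z M V ε ε₂ c₂)) +
        (ENNReal.ofReal (Real.exp η) * ∫⁻ ω in A, ENNReal.ofReal (Real.exp
          (inner ℝ v (B t ω - B s ω) - q ^ 2 * ((t : ℝ) - s) / 2 - α * Y t ω)) ∂P +
        ENNReal.ofReal (Real.exp η) * (D2 * ENNReal.ofReal (Real.exp (q ^ 2 * ((t : ℝ) - s))) +
        D2⁻¹ * P {ω | c₁ < (JZ T Z ω).toReal})) := by
        refine add_le_add e3 (e4.trans ?_)
        gcongr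
    _ = _ := by ring

end

end Pool.Agent.R228.BD
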