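import Pool.Agent.R228.BS.Defs

/-!
# MP_ed2581_pr: statements of the independent pieces

* `StmI`   : increments of a `d`-dimensional Brownian motion and its completed natural filtration.
* `StmV0`  : lower bound for the Gaussian tail.
* `StmV1`  : one block.
* `StmV2`  : the conclusion, from `StmV0` and `StmV1` (as hypotheses).
-/

open MeasureTheory ProbabilityTheory Filter Topology
open scoped NNReal ENNReal

namespace Pool.Agent.R228.BD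

open Pool.Agent.R228.BS (E IsBrownianVec natFilt)

/-- Increments independent of the past, with the Gaussian exponential moments. -/
structure IncVec {Ω : Type*} [mΩ : MeasurableSpace Ω] {d : ℕ} (P : Measure Ω)
    (F : Filtration ℝ≥0 mΩ) (B : ℝ≥0 → Ω → E d) : Prop where
  adap : ∀ t, Measurable[F t] (B t)
  indep : ∀ s t : ℝ≥0, s ≤ t →
    Indep (F s) (MeasurableSpace.comap (fun ω => B t ω - B s ω) inferInstance) P
  mgf : ∀ s t : ℝ≥0, s ≤ t → ∀ z : E d,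
    ∫⁻ ω, ENNReal.ofReal (Real.exp (inner ℝ z (B t ω - B s ω))) ∂P =
      ENNReal.ofReal (Real.exp (‖z‖ ^ 2 * ((t : ℝ) - s) / 2))

/-- Piece I. -/
def StmI : Prop :=
  ∀ {Ω : Type} [MeasurableSpace Ω] {P : Measure Ω} [IsProbabilityMeasure P] [P.IsComplete]
    {d : ℕ} {B : ℝ≥0 → Ω → E d} (hB : IsBrownianVec P B), IncVec P (natFilt P B hB.meas) B

/-- A real Brownian motion relative to the filtration `F`. -/
structure IncBM {Ω : Type*} [mΩ : MeasurableSpace Ω] (P : Measure Ω) (F : Filtration ℝ≥0 mΩ)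
    (β : ℝ≥0 → Ω → ℝ) : Prop where
  adap : ∀ t, Measurable[F t] (β t)
  law : ∀ s t : ℝ≥0, s ≤ t → P.map (fun ω => β t ω - β s ω) = gaussianReal 0 (t - s)
  indep : ∀ s t : ℝ≥0, s ≤ t →
    Indep (F s) (MeasurableSpace.comap (fun ω => β t ω - β s ω) inferInstance) P

/-- The inequality satisfied by nonnegative solutions. -/
def Star {Ω : Type*} [mΩ : MeasurableSpace Ω] (P : Measure Ω) (F : Filtration ℝ≥0 mΩ)
    (β : ℝ≥0 → Ω → ℝ) (T : ℝ≥0) (Y : ℝ≥0 → Ω → ℝ) : Prop :=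
  ∀ s t : ℝ≥0, s ≤ t → t ≤ T → ∀ q R : ℝ, 0 < q → 0 < R →
    q ≤ 1 / √(Real.log (Real.exp 1 + R)) → ∀ A : Set Ω, MeasurableSet[F s] A →
      ∫⁻ ω in A, ENNReal.ofReal (Real.exp (-(2 * q / R) * Y s ω)) ∂P ≤
        ∫⁻ ω in A, ENNReal.ofReal (Real.exp (q * (β t ω - β s ω) - q ^ 2 * ((t : ℝ) - s) / 2
          - (2 * q / R) * Y t ω)) ∂P

/-- Piece V0. -/
def StmV0 : Prop :=
  ∀ (v : ℝ≥0), 0 < v → ∀ A : ℝ, 1 ≤ A →
    Real.exp (-4 * A ^ 2) ≤ (gaussianReal 0 v).real (Set.Ici (A * √(v : ℝ)))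

/-- Piece V1: one block. -/
def StmV1 : Prop :=
  ∀ {Ω : Type} [mΩ : MeasurableSpace Ω] {P : Measure Ω} [IsProbabilityMeasure P]
    {F : Filtration ℝ≥0 mΩ} {β : ℝ≥0 → Ω → ℝ} (_ : IncBM P F β) {T : ℝ≥0} {Y : ℝ≥0 → Ω → ℝ}
    (_ : ∀ t ≤ T, Measurable[F t] (Y t)) (_ : ∀ t ≤ T, ∀ᵐ ω ∂P, 0 ≤ Y t ω)
    (_ : Star P F β T Y) (s t : ℝ≥0) (_ : s < t) (_ : t ≤ T) (_ : t - s ≤ 1)
    (A p C K : ℝ) (_ : 1 ≤ A)
    (_ : p = (gaussianReal 0 (t - s)).real (Set.Ici (A * √((t : ℝ) - s)))) (_ : 0 < p)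
    (_ : 0 < C) (_ : 0 < K)
    (_ : Real.log (Real.exp 1 + 1 + 6 * C * (K / p) / √((t : ℝ) - s)) ≤ 9 * A ^ 2)
    (D : Set Ω) (_ : MeasurableSet[F s] D)
    (_ : ∀ᵐ ω ∂P, ω ∈ D → A * √((t : ℝ) - s) ≤ β t ω - β s ω → C * (K / p) ≤ Y t ω),
    ∀ᵐ ω ∂P, ω ∈ D → C * K * (1 + √((t : ℝ) - s) / 12) ≤ Y s ω

/-- Piece V2: the conclusion. -/
def StmV2 : Prop :=
  StmV0 → StmV1 →
  ∀ {Ω : Type} [mΩ : MeasurableSpace Ω] {P : Measure Ω} [IsProbabilityMeasure P]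
    {F : Filtration ℝ≥0 mΩ} {β : ℝ≥0 → Ω → ℝ} (_ : IncBM P F β) {T : ℝ≥0} (_ : 0 < T),
    ∃ ξ : Ω → ℝ, Measurable[F T] ξ ∧ (∀ ω, 0 ≤ ξ ω) ∧ Integrable ξ P ∧
      ¬ ∃ Y : ℝ≥0 → Ω → ℝ, (∀ t ≤ T, Measurable[F t] (Y t)) ∧ (∀ t ≤ T, ∀ᵐ ω ∂P, 0 ≤ Y t ω) ∧
        (∀ᵐ ω ∂P, Y T ω = ξ ω) ∧ Star P F β T Y

end Pool.Agent.R228.BD
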