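import Pool.Agent.R228.BD.Defs
import Pool.Agent.R228.BD.Stm

/-!
# MP_ed2581_pr: exponential martingales of simple processes on a grid
-/

open MeasureTheory ProbabilityTheory Filter Topology
open scoped NNReal ENNReal

namespace Pool.Agent.R228.BD

open Pool.Agent.R228.BS (E IsBrownianVec natFilt ClassD)

lemma meas_nsq {Ω : Type*} {m : MeasurableSpace Ω} {d : ℕ} {w : Ω → E d} (h : Measurable[m] w)
    (c : ℝ) : Measurable[m] (fun ω => ‖w ω‖ ^ 2 * c) :=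
  (h.norm.pow_const 2).mul_const _

lemma meas_nsq2 {Ω : Type*} {m : MeasurableSpace Ω} {d : ℕ} {w : Ω → E d} (h : Measurable[m] w)
    (c : ℝ) : Measurable[m] (fun ω => ‖w ω‖ ^ 2 * c / 2) :=
  ((h.norm.pow_const 2).mul_const _).div_const _

section
variable {Ω : Type*} [mΩ : MeasurableSpace Ω] {P : Measure Ω} [IsProbabilityMeasure P]
  {F : Filtration ℝ≥0 mΩ} {d : ℕ} {B : ℝ≥0 → Ω → E d}

lemma lint_indep {α γ : Type*} [MeasurableSpace α] [MeasurableSpace γ] {X : Ω → α} {b : Ω → γ}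
    (hX : Measurable X) (hb : Measurable b) (hind : IndepFun X b P) {f : α × γ → ℝ≥0∞}
    (hf : Measurable f) :
    ∫⁻ ω, f (X ω, b ω) ∂P = ∫⁻ ω, ∫⁻ y, f (X ω, y) ∂(P.map b) ∂P := by
  have h := (indepFun_iff_map_prod_eq_prod_map_map hX.aemeasurable hb.aemeasurable).1 hind
  have : IsProbabilityMeasure (P.map b) := Measure.isProbabilityMeasure_map hb.aemeasurable
  have : IsProbabilityMeasure (P.map X) := Measure.isProbabilityMeasure_map hX.aemeasurable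
  calc ∫⁻ ω, f (X ω, b ω) ∂P = ∫⁻ p, f p ∂(P.map fun ω => (X ω, b ω)) := by
        rw [lintegral_map hf (hX.prodMk hb)]
    _ = ∫⁻ x, ∫⁻ y, f (x, y) ∂(P.map b) ∂(P.map X) := by
        rw [h, lintegral_prod _ hf.aemeasurable]
    _ = _ := by
        rw [lintegral_map (Measurable.lintegral_prod_right' hf) hX]

lemma IncVec.meas (hB : IncVec P F B) (t : ℝ≥0) : Measurable (B t) :=
  (hB.adap t).mono (F.le t) le_rfl

lemma exp_step (hB : IncVec P F B) {s t : ℝ≥0} (hst : s ≤ t) {g : Ω → ℝ≥0∞}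
    (hg : Measurable[F s] g) {w : Ω → E d} (hw : Measurable[F s] w) :
    ∫⁻ ω, g ω * ENNReal.ofReal (Real.exp (inner ℝ (w ω) (B t ω - B s ω)
      - ‖w ω‖ ^ 2 * ((t : ℝ) - s) / 2)) ∂P = ∫⁻ ω, g ω ∂P := by
  have hb : Measurable (fun ω => B t ω - B s ω) := (hB.meas t).sub (hB.meas s)
  have hgw : Measurable[F s] (fun ω => (g ω, w ω)) := hg.prodMk hw
  have hgw' : Measurable (fun ω => (g ω, w ω)) := hgw.mono (F.le s) le_rfl
  have hind : IndepFun (fun ω => (g ω, w ω)) (fun ω => B t ω - B s ω) P :=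
    (IndepFun_iff_Indep _ _ _).2 (indep_of_indep_of_le_left (hB.indep s t hst) hgw.comap_le)
  have hf : Measurable (fun p : (ℝ≥0∞ × E d) × E d => p.1.1 * ENNReal.ofReal (Real.exp
      (inner ℝ p.1.2 p.2 - ‖p.1.2‖ ^ 2 * ((t : ℝ) - s) / 2))) := by fun_prop
  have h1 := lint_indep (P := P) hgw' hb hind hf
  rw [h1]
  refine lintegral_congr fun ω => ?_
  simp only
  rw [lintegral_const_mul _ (by fun_prop)]
  have h2 : ∫⁻ y, ENNReal.ofReal (Real.exp (inner ℝ (w ω) y - ‖w ω‖ ^ 2 * ((t : ℝ) - s) / 2))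
      ∂(P.map fun ω => B t ω - B s ω) = 1 := by
    have h3 : ∀ y : E d, ENNReal.ofReal (Real.exp (inner ℝ (w ω) y
        - ‖w ω‖ ^ 2 * ((t : ℝ) - s) / 2)) =
        ENNReal.ofReal (Real.exp (-(‖w ω‖ ^ 2 * ((t : ℝ) - s) / 2))) *
          ENNReal.ofReal (Real.exp (inner ℝ (w ω) y)) := by
      intro y
      rw [← ENNReal.ofReal_mul (Real.exp_pos _).le, ← Real.exp_add]
      congr 2
      ring
    simp_rw [h3]
    rw [lintegral_const_mul _ (by fun_prop), lintegral_map (by fun_prop) hb, hB.mgf s t hst,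
      ← ENNReal.ofReal_mul (Real.exp_pos _).le, ← Real.exp_add]
    simp
  rw [h2, mul_one]

/-- The logarithm of the exponential martingale. -/
noncomputable def eS (B : ℝ≥0 → Ω → E d) (τ : ℕ → ℝ≥0) (w : ℕ → Ω → E d) (n : ℕ) (ω : Ω) : ℝ :=
  ∑ k ∈ Finset.range n, (inner ℝ (w k ω) (B (τ (k + 1)) ω - B (τ k) ω)
    - ‖w k ω‖ ^ 2 * ((τ (k + 1) : ℝ) - τ k) / 2)

/-- The quadratic variation. -/
noncomputable def qV (τ : ℕ → ℝ≥0) (w : ℕ → Ω → E d) (n : ℕ) (ω : Ω) : ℝ :=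
  ∑ k ∈ Finset.range n, ‖w k ω‖ ^ 2 * ((τ (k + 1) : ℝ) - τ k)

lemma eS_meas (hB : IncVec P F B) {τ : ℕ → ℝ≥0} (hτ : Monotone τ) {w : ℕ → Ω → E d}
    (hw : ∀ k, Measurable[F (τ k)] (w k)) (n : ℕ) : Measurable[F (τ n)] (eS B τ w n) := by
  unfold eS
  refine Finset.measurable_sum _ fun k hk => ?_
  have hk : k < n := Finset.mem_range.1 hk
  have h1 : Measurable[F (τ n)] (w k) := (hw k).mono (F.mono (hτ hk.le)) le_rfl
  have h2 : Measurable[F (τ n)] (B (τ k)) := (hB.adap _).mono (F.mono (hτ hk.le)) le_rfl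
  have h3 : Measurable[F (τ n)] (B (τ (k + 1))) :=
    (hB.adap _).mono (F.mono (hτ (Nat.succ_le_of_lt hk))) le_rfl
  exact (h1.inner (h3.sub h2)).sub (meas_nsq2 h1 _)

lemma qV_meas {τ : ℕ → ℝ≥0} (hτ : Monotone τ) {w : ℕ → Ω → E d}
    (hw : ∀ k, Measurable[F (τ k)] (w k)) (n : ℕ) : Measurable[F (τ n)] (qV τ w (n + 1)) := by
  unfold qV
  refine Finset.measurable_sum _ fun k hk => ?_
  have hk : k ≤ n := Nat.lt_succ_iff.1 (Finset.mem_range.1 hk)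
  have h1 : Measurable[F (τ n)] (w k) := (hw k).mono (F.mono (hτ hk)) le_rfl
  exact meas_nsq h1 _

omit mΩ in
lemma eS_two {τ : ℕ → ℝ≥0} {w : ℕ → Ω → E d} (n : ℕ) (ω : Ω) :
    2 * eS B τ w n ω = qV τ w n ω + eS B τ (fun k ω => (2 : ℝ) • w k ω) n ω := by
  unfold eS qV
  rw [Finset.mul_sum, ← Finset.sum_add_distrib]
  refine Finset.sum_congr rfl fun k _ => ?_
  have h1 : ‖(2 : ℝ) • w k ω‖ ^ 2 = 4 * ‖w k ω‖ ^ 2 := by
    rw [norm_smul, mul_pow, Real.norm_eq_abs, sq_abs]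
    norm_num
  rw [h1, real_inner_smul_left]
  ring

lemma exp_grid (hB : IncVec P F B) {τ : ℕ → ℝ≥0} (hτ : Monotone τ) {w : ℕ → Ω → E d}
    (hw : ∀ k, Measurable[F (τ k)] (w k)) {g : Ω → ℝ≥0∞} (hg : Measurable[F (τ 0)] g) (n : ℕ) :
    ∫⁻ ω, g ω * ENNReal.ofReal (Real.exp (eS B τ w n ω)) ∂P = ∫⁻ ω, g ω ∂P := by
  induction n with
  | zero => simp [eS]
  | succ n ih =>
    have h1 : ∀ ω, g ω * ENNReal.ofReal (Real.exp (eS B τ w (n + 1) ω)) =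
        (g ω * ENNReal.ofReal (Real.exp (eS B τ w n ω))) *
          ENNReal.ofReal (Real.exp (inner ℝ (w n ω) (B (τ (n + 1)) ω - B (τ n) ω)
      - ‖w n ω‖ ^ 2 * ((τ (n + 1) : ℝ) - τ n) / 2)) := by
      intro ω
      rw [mul_assoc, ← ENNReal.ofReal_mul (Real.exp_pos _).le, ← Real.exp_add]
      unfold eS
      rw [Finset.sum_range_succ]
    simp_rw [h1]
    rw [exp_step hB (hτ (Nat.le_succ n)) ?_ (hw n), ih]
    have h2 : Measurable[F (τ n)] g := hg.mono (F.mono (hτ (Nat.zero_le n))) le_rfl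
    have h3 := eS_meas hB hτ hw n
    exact h2.mul (h3.exp.ennreal_ofReal)

lemma exp_sq (hB : IncVec P F B) {τ : ℕ → ℝ≥0} (hτ : Monotone τ) {w : ℕ → Ω → E d}
    (hw : ∀ k, Measurable[F (τ k)] (w k)) (n : ℕ) (c : ℝ) (hc : ∀ ω, qV τ w n ω ≤ c) :
    ∫⁻ ω, ENNReal.ofReal (Real.exp (eS B τ w n ω)) ^ 2 ∂P ≤ ENNReal.ofReal (Real.exp c) := by
  have h1 : ∀ ω, ENNReal.ofReal (Real.exp (eS B τ w n ω)) ^ 2 ≤
      ENNReal.ofReal (Real.exp c) *
        ENNReal.ofReal (Real.exp (eS B τ (fun k ω => (2 : ℝ) • w k ω) n ω)) := by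
    intro ω
    have h2 := hc ω
    have h3 := eS_two (B := B) (τ := τ) (w := w) n ω
    have h4 : Real.exp (eS B τ w n ω) ^ 2 ≤
        Real.exp c * Real.exp (eS B τ (fun k ω => (2 : ℝ) • w k ω) n ω) := by
      rw [← Real.exp_add, sq, ← Real.exp_add]
      exact Real.exp_le_exp.2 (by linarith)
    calc ENNReal.ofReal (Real.exp (eS B τ w n ω)) ^ 2 =
        ENNReal.ofReal (Real.exp (eS B τ w n ω) ^ 2) :=
          (ENNReal.ofReal_pow (Real.exp_pos _).le 2).symm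
      _ ≤ _ := by
          rw [← ENNReal.ofReal_mul (Real.exp_pos _).le]
          exact ENNReal.ofReal_le_ofReal h4
  calc _ ≤ ∫⁻ ω, ENNReal.ofReal (Real.exp c) *
        ENNReal.ofReal (Real.exp (eS B τ (fun k ω => (2 : ℝ) • w k ω) n ω)) ∂P :=
        lintegral_mono h1
    _ = ∫⁻ _, ENNReal.ofReal (Real.exp c) ∂P :=
        exp_grid hB hτ (fun k => (hw k).const_smul (2 : ℝ))
          (@measurable_const _ _ _ (F (τ 0)) (ENNReal.ofReal (Real.exp c))) n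
    _ = _ := by simp

lemma ui_aux {x : ℝ≥0∞} {δ : ℝ≥0∞} (h0 : δ ≠ 0) (h1 : δ ≠ ∞) : x ≤ δ * x ^ 2 + δ⁻¹ := by
  rcases le_total x δ⁻¹ with h | h
  · exact h.trans le_add_self
  · refine le_trans ?_ le_self_add
    have h2 : 1 ≤ δ * x := by
      calc (1 : ℝ≥0∞) = δ * δ⁻¹ := (ENNReal.mul_inv_cancel h0 h1).symm
        _ ≤ δ * x := by gcongr
    calc x = 1 * x := (one_mul x).symm
      _ ≤ (δ * x) * x := by gcongr
      _ = δ * x ^ 2 := by ring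

lemma exp_ui (hB : IncVec P F B) {τ : ℕ → ℝ≥0} (hτ : Monotone τ) {w : ℕ → Ω → E d}
    (hw : ∀ k, Measurable[F (τ k)] (w k)) (n : ℕ) (c : ℝ) (hc : ∀ ω, qV τ w n ω ≤ c)
    (δ : ℝ≥0∞) (h0 : δ ≠ 0) (h1 : δ ≠ ∞) (A : Set Ω) :
    ∫⁻ ω in A, ENNReal.ofReal (Real.exp (eS B τ w n ω)) ∂P ≤
      δ * ENNReal.ofReal (Real.exp c) + δ⁻¹ * P A := by
  have hm : Measurable (eS B τ w n) := (eS_meas hB hτ hw n).mono (F.le _) le_rfl
  calc _ ≤ ∫⁻ ω in A, (δ * ENNReal.ofReal (Real.exp (eS B τ w n ω)) ^ 2 + δ⁻¹) ∂P :=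
        lintegral_mono fun ω => ui_aux h0 h1
    _ = δ * ∫⁻ ω in A, ENNReal.ofReal (Real.exp (eS B τ w n ω)) ^ 2 ∂P + δ⁻¹ * P A := by
        rw [lintegral_add_right _ measurable_const, lintegral_const_mul _ (by fun_prop),
          setLIntegral_const]
    _ ≤ _ := by
        gcongr
        exact (setLIntegral_le_lintegral _ _).trans (exp_sq hB hτ hw n c hc)

/-- the index at which we stop -/
noncomputable def stopIdx (τ : ℕ → ℝ≥0) (w : ℕ → Ω → E d) (c : ℝ) (n : ℕ) (ω : Ω) : ℕ :=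
  Nat.findGreatest (fun k => qV τ w k ω ≤ c) n

/-- the stopped coefficients -/
noncomputable def stopW (τ : ℕ → ℝ≥0) (w : ℕ → Ω → E d) (c : ℝ) (u : ℕ → Ω → E d) (k : ℕ)
    (ω : Ω) : E d :=
  if qV τ w (k + 1) ω ≤ c then u k ω else 0

omit mΩ in
lemma qV_mono {τ : ℕ → ℝ≥0} (hτ : Monotone τ) (w : ℕ → Ω → E d) (ω : Ω) :
    Monotone fun k => qV τ w k ω := by
  refine monotone_nat_of_le_succ fun k => ?_
  unfold qV
  rw [Finset.sum_range_succ]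
  have : (0 : ℝ) ≤ (τ (k + 1) : ℝ) - τ k := sub_nonneg.2 (by exact_mod_cast hτ (Nat.le_succ k))
  have h2 : 0 ≤ ‖w k ω‖ ^ 2 * ((τ (k + 1) : ℝ) - τ k) := by positivity
  linarith

omit mΩ in
lemma stop_iff {τ : ℕ → ℝ≥0} (hτ : Monotone τ) (w : ℕ → Ω → E d) {c : ℝ} (hc : 0 ≤ c) {n k : ℕ}
    (hk : k < n) (ω : Ω) : qV τ w (k + 1) ω ≤ c ↔ k < stopIdx τ w c n ω := by
  unfold stopIdx
  constructor
  · intro h
    exact Nat.lt_of_succ_le (Nat.le_findGreatest (Nat.succ_le_of_lt hk) h)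
  · intro h
    have h1 : qV τ w (Nat.findGreatest (fun k => qV τ w k ω ≤ c) n) ω ≤ c := by
      refine Nat.findGreatest_spec (P := fun k => qV τ w k ω ≤ c) (Nat.zero_le n) ?_
      simpa [qV] using hc
    exact (qV_mono hτ w ω (Nat.succ_le_of_lt h)).trans h1

omit mΩ in
lemma stop_le (τ : ℕ → ℝ≥0) (w : ℕ → Ω → E d) (c : ℝ) (n : ℕ) (ω : Ω) :
    stopIdx τ w c n ω ≤ n := Nat.findGreatest_le n

omit mΩ in
lemma stop_sum {τ : ℕ → ℝ≥0} (hτ : Monotone τ) (w : ℕ → Ω → E d) {c : ℝ} (hc : 0 ≤ c) (n : ℕ)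
    (ω : Ω) (a : ℕ → ℝ) :
    ∑ k ∈ Finset.range n, (if qV τ w (k + 1) ω ≤ c then a k else 0) =
      ∑ k ∈ Finset.range (stopIdx τ w c n ω), a k := by
  rw [← Finset.sum_filter]
  congr 1
  ext k
  rw [Finset.mem_filter, Finset.mem_range, Finset.mem_range]
  constructor
  · rintro ⟨h1, h2⟩
    exact (stop_iff hτ w hc h1 ω).1 h2
  · intro h
    have h1 : k < n := lt_of_lt_of_le h (stop_le τ w c n ω)
    exact ⟨h1, (stop_iff hτ w hc h1 ω).2 h⟩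

omit mΩ in
lemma eS_stop {τ : ℕ → ℝ≥0} (hτ : Monotone τ) (w u : ℕ → Ω → E d) {c : ℝ} (hc : 0 ≤ c) (n : ℕ)
    (ω : Ω) : eS B τ (stopW τ w c u) n ω = eS B τ u (stopIdx τ w c n ω) ω := by
  unfold eS
  rw [← stop_sum hτ w hc n ω]
  refine Finset.sum_congr rfl fun k _ => ?_
  unfold stopW
  split_ifs <;> simp

omit mΩ in
lemma qV_stop {τ : ℕ → ℝ≥0} (hτ : Monotone τ) (w u : ℕ → Ω → E d) {c : ℝ} (hc : 0 ≤ c) (n : ℕ)
    (ω : Ω) : qV τ (stopW τ w c u) n ω = qV τ u (stopIdx τ w c n ω) ω := by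
  unfold qV
  rw [← stop_sum hτ w hc n ω]
  refine Finset.sum_congr rfl fun k _ => ?_
  unfold stopW
  split_ifs with h1
  · rfl
  · simp

omit mΩ in
lemma qV_stopIdx_le {τ : ℕ → ℝ≥0} (w : ℕ → Ω → E d) {c : ℝ} (hc : 0 ≤ c) (n : ℕ)
    (ω : Ω) : qV τ w (stopIdx τ w c n ω) ω ≤ c := by
  unfold stopIdx
  refine Nat.findGreatest_spec (P := fun k => qV τ w k ω ≤ c) (Nat.zero_le n) ?_
  simpa [qV] using hc

lemma stopW_meas {τ : ℕ → ℝ≥0} (hτ : Monotone τ) {w u : ℕ → Ω → E d}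
    (hw : ∀ k, Measurable[F (τ k)] (w k)) (hu : ∀ k, Measurable[F (τ k)] (u k)) (c : ℝ) (k : ℕ) :
    Measurable[F (τ k)] (stopW τ w c u k) := by
  unfold stopW
  exact Measurable.ite (measurableSet_le (qV_meas hτ hw k) (@measurable_const _ _ _ (F (τ k)) _))
    (hu k) (@measurable_const _ _ _ (F (τ k)) _)

end

end Pool.Agent.R228.BD
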