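import Pool.Agent.R228.BD.Mgf

/-! # MP_ed2581_pr, piece I1: increments are independent of the past -/

set_option autoImplicit false

open MeasureTheory ProbabilityTheory Filter Topology
open scoped NNReal ENNReal

namespace Pool.Agent.R228.BD

open Pool.Agent.R228.BS (E IsBrownianVec natFilt)

/-- Doubling: if the `c i` are independent and `a i, b i ≤ c i` are independent, then all the
`a i`, `b i` are independent. -/
lemma iIndep_double {Ω : Type*} [mΩ : MeasurableSpace Ω] {P : Measure Ω} [IsProbabilityMeasure P]
    {ι : Type*} [Fintype ι] [DecidableEq ι] (c a b : ι → MeasurableSpace Ω) (hc : iIndep c P)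
    (ha : ∀ i, a i ≤ c i) (hb : ∀ i, b i ≤ c i) (hab : ∀ i, Indep (a i) (b i) P) :
    iIndep (fun x : ι × Bool => if x.2 then b x.1 else a x.1) P := by
  rw [iIndep_iff]
  intro s f hf
  set g : ι × Bool → Set Ω := fun x => if x ∈ s then f x else Set.univ with hg
  have hgm : ∀ x, MeasurableSet[if x.2 then b x.1 else a x.1] (g x) := by
    intro x
    by_cases hx : x ∈ s
    · simp only [hg, hx, if_true]
      exact hf x hx
    · simp only [hg, hx, if_false]
      exact @MeasurableSet.univ _ (if x.2 then b x.1 else a x.1)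
  have h1 : (⋂ x ∈ s, f x) = ⋂ i, (g (i, false) ∩ g (i, true)) := by
    ext ω
    simp only [Set.mem_iInter, Set.mem_inter_iff]
    constructor
    · intro h i
      constructor
      · by_cases hx : (i, false) ∈ s
        · simp only [hg, hx, if_true]
          exact h _ hx
        · simp [hg, hx]
      · by_cases hx : (i, true) ∈ s
        · simp only [hg, hx, if_true]
          exact h _ hx
        · simp [hg, hx]
    · rintro h ⟨i, e⟩ hx
      cases e
      · have := (h i).1
        simpa [hg, hx] using this
      · have := (h i).2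
        simpa [hg, hx] using this
  have h2 : ∏ x ∈ s, P (f x) = ∏ i, (P (g (i, false)) * P (g (i, true))) := by
    have : ∏ x ∈ s, P (f x) = ∏ x, P (g x) := by
      rw [← Finset.prod_subset (Finset.subset_univ s)]
      · refine Finset.prod_congr rfl fun x hx => ?_
        simp [hg, hx]
      · intro x _ hx
        simp [hg, hx]
    rw [this, Fintype.prod_prod_type]
    refine Finset.prod_congr rfl fun i _ => ?_
    rw [Fintype.prod_bool, mul_comm]
  have hga : ∀ i, MeasurableSet[a i] (g (i, false)) := fun i => by
    have := hgm (i, false)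
    simpa using this
  have hgb : ∀ i, MeasurableSet[b i] (g (i, true)) := fun i => by
    have := hgm (i, true)
    simpa using this
  rw [h1, h2, hc.meas_iInter fun i => ((ha i _ (hga i)).inter (hb i _ (hgb i)))]
  refine Finset.prod_congr rfl fun i _ => ?_
  exact (Indep_iff _ _ _).1 (hab i) _ _ (hga i) (hgb i)

/-- Adding null sets does not change independence. -/
lemma indep_sup_null {Ω : Type*} [mΩ : MeasurableSpace Ω] {P : Measure Ω}
    (m m' : MeasurableSpace Ω) (h : Indep m m' P) :
    Indep (m ⊔ MeasurableSpace.generateFrom {A : Set Ω | P A = 0}) m' P := by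
  rw [Indep_iff] at h ⊢
  intro A C hA hC
  have hle : m ⊔ MeasurableSpace.generateFrom {A : Set Ω | P A = 0} ≤
      eventuallyMeasurableSpace m (ae P) := by
    refine sup_le le_eventuallyMeasurableSpace ?_
    refine MeasurableSpace.generateFrom_le fun A hA => ?_
    refine ⟨∅, @MeasurableSet.empty _ m, ?_⟩
    exact ae_eq_empty.2 hA
  obtain ⟨A', hA', hAA'⟩ := hle A hA
  have hAA2 : A =ᵐ[P] A' := hAA'
  rw [measure_congr hAA2, measure_congr (hAA2.inter (ae_eq_refl C))]
  exact h A' C hA' hC

theorem bm_indep {Ω : Type*} [MeasurableSpace Ω] {P : Measure Ω} [IsProbabilityMeasure P]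
    [P.IsComplete] {d : ℕ} {B : ℝ≥0 → Ω → E d} (hB : IsBrownianVec P B) (s t : ℝ≥0)
    (hst : s ≤ t) :
    Indep (natFilt P B hB.meas s)
      (MeasurableSpace.comap (fun ω => B t ω - B s ω) inferInstance) P := by
  set c : Fin d → MeasurableSpace Ω := fun i =>
    MeasurableSpace.comap (fun ω (r : ℝ≥0) => B r ω i) inferInstance with hc
  set a : Fin d → MeasurableSpace Ω := fun i =>
    MeasurableSpace.comap (fun ω (r : Set.Iic s) => B r ω i) inferInstance with ha
  set b : Fin d → MeasurableSpace Ω := fun i =>
    MeasurableSpace.comap (fun ω (r : ℝ≥0) => B (s + r) ω i - B s ω i) inferInstance with hb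
  have hci : iIndep c P := hB.indep.iIndep
  have hac : ∀ i, a i ≤ c i := by
    intro i
    have e : (fun ω (r : Set.Iic s) => B r ω i) =
      (fun (f : ℝ≥0 → ℝ) (r : Set.Iic s) => f r) ∘ (fun ω (r : ℝ≥0) => B r ω i) := rfl
    simp only [ha, hc]
    rw [e, ← MeasurableSpace.comap_comp]
    refine MeasurableSpace.comap_mono ?_
    refine Measurable.comap_le ?_
    fun_prop
  have hbc : ∀ i, b i ≤ c i := by
    intro i
    have e : (fun ω (r : ℝ≥0) => B (s + r) ω i - B s ω i) =
      (fun (f : ℝ≥0 → ℝ) (r : ℝ≥0) => f (s + r) - f s) ∘ (fun ω (r : ℝ≥0) => B r ω i) := rfl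
    simp only [hb, hc]
    rw [e, ← MeasurableSpace.comap_comp]
    refine MeasurableSpace.comap_mono ?_
    refine Measurable.comap_le ?_
    fun_prop
  have hab : ∀ i, Indep (a i) (b i) P := by
    intro i
    have h := (hB.coord i).toIsPreBrownianReal.indepFun_shift s
    exact ((IndepFun_iff_Indep _ _ _).1 h).symm
  have hcle : ∀ i, c i ≤ ‹MeasurableSpace Ω› := by
    intro i
    refine Measurable.comap_le ?_
    exact measurable_pi_lambda _ fun r => coord_meas hB r i
  have hdd := iIndep_double c a b hci hac hbc hab
  have hle : ∀ x : Fin d × Bool, (if x.2 then b x.1 else a x.1) ≤ ‹MeasurableSpace Ω› := by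
    rintro ⟨i, e⟩
    cases e
    · simpa using (hac i).trans (hcle i)
    · simpa using (hbc i).trans (hcle i)
  have hI := indep_iSup_of_disjoint hle hdd (S := {x | x.2 = false}) (T := {x | x.2 = true})
    (by
      rw [Set.disjoint_left]
      rintro ⟨i, e⟩ h1 h2
      simp only [Set.mem_ofPred_eq] at h1 h2
      rw [h1] at h2
      exact absurd h2 (by decide))
  refine indep_sup_null _ _ ?_
  refine indep_of_indep_of_le_left (indep_of_indep_of_le_right hI ?_) ?_
  · refine Measurable.comap_le ?_
    have e : (fun ω => B t ω - B s ω) = fun ω =>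
        WithLp.toLp 2 (fun i => B (s + (t - s)) ω i - B s ω i) := by
      funext ω
      ext i
      simp [add_tsub_cancel_of_le hst]
    rw [e]
    refine Measurable.comp (g := WithLp.toLp 2) (f := fun ω i => B (s + (t - s)) ω i - B s ω i)
      (WithLp.measurable_toLp 2 (Fin d → ℝ)) ?_
    refine @measurable_pi_lambda _ _ _ (_) _ _ fun i => ?_
    have h1 : Measurable[b i] (fun ω => B (s + (t - s)) ω i - B s ω i) := by
      have : (fun ω => B (s + (t - s)) ω i - B s ω i) = (fun f : ℝ≥0 → ℝ => f (t - s)) ∘
        (fun ω (r : ℝ≥0) => B (s + r) ω i - B s ω i) := rfl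
      rw [this]
      exact (measurable_pi_apply _).comp (comap_measurable _)
    refine h1.mono ?_ le_rfl
    have := le_iSup₂_of_le (f := fun (x : Fin d × Bool) (_ : x ∈ {x : Fin d × Bool | x.2 = true}) =>
      (if x.2 then b x.1 else a x.1)) (a := b i) (i, true) rfl (by simp)
    exact this
  · refine iSup_le fun r => iSup_le fun hr => ?_
    refine Measurable.comap_le ?_
    have e : B r = fun ω => WithLp.toLp 2 (fun i => B r ω i) := by
      funext ω
      ext i
      simp
    rw [e]
    refine Measurable.comp (g := WithLp.toLp 2) (f := fun ω i => B r ω i)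
      (WithLp.measurable_toLp 2 (Fin d → ℝ)) ?_
    refine @measurable_pi_lambda _ _ _ (_) _ _ fun i => ?_
    have h1 : Measurable[a i] (fun ω => B r ω i) := by
      have : (fun ω => B r ω i) = (fun f : Set.Iic s → ℝ => f ⟨r, hr⟩) ∘
        (fun ω (r : Set.Iic s) => B r ω i) := rfl
      rw [this]
      exact (measurable_pi_apply _).comp (comap_measurable _)
    refine h1.mono ?_ le_rfl
    have := le_iSup₂_of_le (f := fun (x : Fin d × Bool) (_ : x ∈ {x : Fin d × Bool | x.2 = false}) =>
      (if x.2 then b x.1 else a x.1)) (a := a i) (i, false) rfl (by simp)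
    exact this

end Pool.Agent.R228.BD
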