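import Pool.Agent.R228.BD.Stm

/-! # MP_ed2581_pr, piece I2: exponential moments of the increments -/

set_option autoImplicit false

open MeasureTheory ProbabilityTheory Filter Topology
open scoped NNReal ENNReal

namespace Pool.Agent.R228.BD

open Pool.Agent.R228.BS (E IsBrownianVec natFilt)

lemma coord_meas {Ω : Type*} [MeasurableSpace Ω] {P : Measure Ω} {d : ℕ} {B : ℝ≥0 → Ω → E d}
    (hB : IsBrownianVec P B) (t : ℝ≥0) (i : Fin d) : Measurable fun ω => B t ω i :=
  (EuclideanSpace.proj (𝕜 := ℝ) i).continuous.measurable.comp (hB.meas t)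

theorem bm_mgf {Ω : Type*} [MeasurableSpace Ω] {P : Measure Ω} [IsProbabilityMeasure P] {d : ℕ}
    {B : ℝ≥0 → Ω → E d} (hB : IsBrownianVec P B) (s t : ℝ≥0) (hst : s ≤ t) (z : E d) :
    ∫⁻ ω, ENNReal.ofReal (Real.exp (inner ℝ z (B t ω - B s ω))) ∂P =
      ENNReal.ofReal (Real.exp (‖z‖ ^ 2 * ((t : ℝ) - s) / 2)) := by
  set X : Fin d → Ω → ℝ := fun i ω => z i * (B t ω i - B s ω i) with hX
  have hXm : ∀ i, Measurable (X i) := fun i =>
    ((coord_meas hB t i).sub (coord_meas hB s i)).const_mul _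
  have hind : iIndepFun X P := by
    have := hB.indep.comp (g := fun (i : Fin d) (f : ℝ≥0 → ℝ) => z i * (f t - f s))
      (fun i => ((measurable_pi_apply t).sub (measurable_pi_apply s)).const_mul _)
    exact this
  have hlaw : ∀ i, P.map (fun ω => B t ω i - B s ω i) = gaussianReal 0 (t - s) := by
    intro i
    have h := ((hB.coord i).toIsPreBrownianReal.hasLaw_sub t s).map_eq
    have e : nndist (t : ℝ) (s : ℝ) = t - s := by
      apply NNReal.eq
      rw [coe_nndist, Real.dist_eq, abs_of_nonneg (by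
        have : (s : ℝ) ≤ t := hst
        linarith), NNReal.coe_sub hst]
    rw [← e]
    exact h
  have hmgf : ∀ i, mgf (X i) P 1 = Real.exp (z i ^ 2 * ((t : ℝ) - s) / 2) := by
    intro i
    have h := mgf_gaussianReal (hlaw i) (z i)
    have e : mgf (X i) P 1 = mgf (fun ω => B t ω i - B s ω i) P (z i) := by
      unfold mgf
      simp [hX]
    rw [e, h, NNReal.coe_sub hst]
    congr 1
    ring
  have hint : ∀ i, Integrable (fun ω => Real.exp (1 * X i ω)) P := by
    intro i
    have h : Integrable (fun x : ℝ => Real.exp (z i * x)) (gaussianReal 0 (t - s)) :=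
      integrable_exp_mul_gaussianReal (z i)
    rw [← hlaw i] at h
    have h2 := h.comp_measurable ((coord_meas hB t i).sub (coord_meas hB s i))
    simpa [hX, Function.comp_def] using h2
  have hsum := hind.mgf_sum hXm (t := 1) Finset.univ
  have hintS := hind.integrable_exp_mul_sum hXm (t := 1) (s := Finset.univ) (fun i _ => hint i)
  have hinner : ∀ ω, inner ℝ z (B t ω - B s ω) = (∑ i, X i) ω := by
    intro ω
    rw [PiLp.inner_apply, Finset.sum_apply]
    refine Finset.sum_congr rfl fun i _ => ?_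
    simp [hX, mul_comm]
  have hnorm : ‖z‖ ^ 2 = ∑ i, z i ^ 2 := by
    rw [EuclideanSpace.norm_sq_eq]
    refine Finset.sum_congr rfl fun i _ => ?_
    rw [Real.norm_eq_abs, sq_abs]
  have h1 : ∫ ω, Real.exp (1 * (∑ i, X i) ω) ∂P = Real.exp (‖z‖ ^ 2 * ((t : ℝ) - s) / 2) := by
    have : mgf (∑ i, X i) P 1 = Real.exp (‖z‖ ^ 2 * ((t : ℝ) - s) / 2) := by
      rw [hsum, Finset.prod_congr rfl fun i _ => hmgf i, ← Real.exp_sum]
      congr 1
      rw [hnorm, Finset.sum_mul, Finset.sum_div]
    exact this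
  rw [← h1, ofReal_integral_eq_lintegral_ofReal hintS
    (Eventually.of_forall fun ω => (Real.exp_pos _).le)]
  refine lintegral_congr fun ω => ?_
  rw [hinner ω, one_mul]

end Pool.Agent.R228.BD
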