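import Pool.Agent.R228.BD.Nonneg2
import Pool.Agent.R228.BD.Ind
import Pool.Agent.R228.BD.Mgf
import Pool.Agent.R228.BD.Block
import Pool.Agent.R228.BD.Concl

/-!
# MP_ed2581_pr: the main theorem
-/

open MeasureTheory ProbabilityTheory Filter Topology
open scoped NNReal ENNReal

namespace Pool.Agent.R228.BD

open Pool.Agent.R228.BS (E IsBrownianVec natFilt ClassD)

theorem main {d : ℕ} (hd : 0 < d) {T : ℝ≥0} (hT : 0 < T) {Ω : Type} [mΩ : MeasurableSpace Ω]
    (P : Measure Ω) [IsProbabilityMeasure P] [P.IsComplete] (B : ℝ≥0 → Ω → E d)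
    (hB : IsBrownianVec P B) :
    ∃ ξ : Ω → ℝ, StronglyMeasurable[natFilt P B hB.meas T] ξ ∧ (∀ ω, 0 ≤ ξ ω) ∧
      Integrable ξ P ∧
      ¬ ∃ (Y : ℝ≥0 → Ω → ℝ) (Z : ℝ≥0 → Ω → E d),
        IsSol P (natFilt P B hB.meas) B T ξ Y Z ∧ ClassD P (natFilt P B hB.meas) T Y := by
  set i : Fin d := ⟨0, hd⟩
  set β : ℝ≥0 → Ω → ℝ := fun s ω => B s ω i with hβdef
  set F := natFilt P B hB.meas with hF
  have hBF : ∀ s, Measurable[F s] (B s) := by
    intro s
    rw [measurable_iff_comap_le]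
    refine le_trans ?_ (le_sup_left (b := MeasurableSpace.generateFrom {A : Set Ω | P A = 0}))
    exact le_iSup₂_of_le s le_rfl le_rfl
  have hco : Measurable fun x : E d => x i := by fun_prop
  have hinc : IncVec P F B :=
    ⟨hBF, fun s t hst => bm_indep hB s t hst, fun s t hst z => bm_mgf hB s t hst z⟩
  have hbm : IncBM P F β := by
    refine ⟨fun s => hco.comp (hBF s), fun s t hst => ?_, fun s t hst => ?_⟩
    · have h := ((hB.coord i).toIsPreBrownianReal.hasLaw_sub t s).map_eq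
      have h2 : nndist t.1 s.1 = t - s := by
        rw [← NNReal.coe_inj, coe_nndist, NNReal.coe_sub hst, Real.dist_eq]
        exact abs_of_nonneg (sub_nonneg.2 hst)
      rw [h2] at h
      exact h
    · refine indep_of_indep_of_le_right (hinc.indep s t hst) ?_
      have h1 : (fun ω => β t ω - β s ω) = (fun x : E d => x i) ∘ (fun ω => B t ω - B s ω) := by
        funext ω
        simp [hβdef]
      rw [h1, ← MeasurableSpace.comap_comp]
      exact MeasurableSpace.comap_mono hco.comap_le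
  obtain ⟨ξ, hξm, hξ0, hξi, hno⟩ := stmV2 stmV0 stmV1 hbm hT
  refine ⟨ξ, hξm.stronglyMeasurable, hξ0, hξi, ?_⟩
  rintro ⟨Y, Z, hsol, hD⟩
  apply hno
  obtain ⟨M, hIto, heq⟩ := hsol.eqn
  have hYm : ∀ t ≤ T, Measurable[F t] (Y t) := by
    intro t ht
    have h1 := (hsol.progY t ht).measurable
    have h2 : @Measurable Ω (Set.Iic t × Ω) (F t) (Subtype.instMeasurableSpace.prod (F t))
        (fun ω => (⟨t, Set.mem_Iic.2 le_rfl⟩, ω)) :=
      @Measurable.prodMk _ (F t) _ _ _ (F t) _ _ (@measurable_const _ _ _ (F t) _)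
        (@measurable_id _ (F t))
    exact h1.comp h2
  have hJ : ∀ᵐ ω ∂P, JZ T Z ω < ∞ := hsol.sq
  have hpos : ∀ t ≤ T, ∀ᵐ ω ∂P, 0 ≤ Y t ω := fun t ht =>
    nonneg hinc hsol.progZ hJ hIto heq hYm (Filter.Eventually.of_forall hξ0) hD ht
  refine ⟨Y, hYm, hpos, ?_, ?_⟩
  · filter_upwards [heq] with ω hω
    rw [hω T le_rfl]
    simp
  · intro s t hst htT q R hq hR h A hA
    have hv : ‖(q • EuclideanSpace.single i (1 : ℝ) : E d)‖ = q := by
      rw [norm_smul]
      simp [abs_of_pos hq]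
    have h1 := star_ineq hinc hsol.progZ hJ hIto heq hYm hpos hst htT hq hR h hv hA
    have h2 : ∀ ω, inner ℝ (q • EuclideanSpace.single i (1 : ℝ) : E d) (B t ω - B s ω) =
        q * (β t ω - β s ω) := by
      intro ω
      rw [real_inner_smul_left, EuclideanSpace.inner_single_left]
      simp [hβdef]
    simp_rw [h2] at h1
    exact h1

end Pool.Agent.R228.BD
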