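import Pool.Agent.R228.BD.StarI

/-!
# MP_ed2581_pr: solutions of class (D) with nonnegative terminal value are nonnegative
-/

open MeasureTheory ProbabilityTheory Filter Topology
open scoped NNReal ENNReal

namespace Pool.Agent.R228.BD

open Pool.Agent.R228.BS (E IsBrownianVec natFilt ClassD conv0)

section
variable {Ω : Type*} [mΩ : MeasurableSpace Ω] {P : Measure Ω} [IsProbabilityMeasure P]
  {F : Filtration ℝ≥0 mΩ} {d : ℕ} {B : ℝ≥0 → Ω → E d} {T : ℝ≥0} {Z : ℝ≥0 → Ω → E d}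

/-- stochastic integral on a grid -/
noncomputable def nI (B : ℝ≥0 → Ω → E d) (τ : ℕ → ℝ≥0) (w : ℕ → Ω → E d) (n : ℕ) (ω : Ω) : ℝ :=
  ∑ k ∈ Finset.range n, inner ℝ (w k ω) (B (τ (k + 1)) ω - B (τ k) ω)

lemma nI_meas (hB : IncVec P F B) {τ : ℕ → ℝ≥0} {w : ℕ → Ω → E d}
    (hw : ∀ k, Measurable[F (τ k)] (w k)) (n : ℕ) : Measurable (nI B τ w n) := by
  unfold nI
  refine Finset.measurable_sum _ fun k _ => ?_
  exact ((hw k).mono (F.le _) le_rfl).inner ((hB.meas _).sub (hB.meas _))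

omit mΩ in
lemma eS_smul {τ : ℕ → ℝ≥0} {w : ℕ → Ω → E d} (n : ℕ) (θ : ℝ) (ω : Ω) :
    eS B τ (fun k ω => θ • w k ω) n ω = θ * nI B τ w n ω - θ ^ 2 * qV τ w n ω / 2 := by
  rw [eS_split]
  unfold nI qV
  congr 1
  · rw [Finset.mul_sum]
    refine Finset.sum_congr rfl fun k _ => ?_
    rw [real_inner_smul_left]
  · rw [Finset.mul_sum]
    congr 1
    refine Finset.sum_congr rfl fun k _ => ?_
    rw [norm_smul, mul_pow, Real.norm_eq_abs, sq_abs]
    ring

lemma exp_nI (hB : IncVec P F B) {τ : ℕ → ℝ≥0} (hτ : Monotone τ) {w : ℕ → Ω → E d}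
    (hw : ∀ k, Measurable[F (τ k)] (w k)) (n : ℕ) (c : ℝ) (hc : ∀ ω, qV τ w n ω ≤ c) (θ : ℝ) :
    ∫⁻ ω, ENNReal.ofReal (Real.exp (θ * nI B τ w n ω)) ∂P ≤
      ENNReal.ofReal (Real.exp (θ ^ 2 * c / 2)) := by
  have h1 := exp_grid (P := P) hB hτ (w := fun k ω => θ • w k ω) (fun k => (hw k).const_smul θ)
    (g := fun _ => ENNReal.ofReal (Real.exp (θ ^ 2 * c / 2)))
    (@measurable_const _ _ _ (F (τ 0)) _) n
  rw [lintegral_const, measure_univ, mul_one] at h1
  rw [← h1]
  refine lintegral_mono fun ω => ?_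
  rw [← ENNReal.ofReal_mul (Real.exp_pos _).le, ← Real.exp_add, eS_smul]
  refine ENNReal.ofReal_le_ofReal (Real.exp_le_exp.2 ?_)
  have h2 := mul_le_mul_of_nonneg_left (hc ω) (sq_nonneg θ)
  linarith

lemma sq_le_exp (x : ℝ) : x ^ 2 ≤ 2 * (Real.exp x + Real.exp (-x)) := by
  have h : ∀ y : ℝ, 0 ≤ y → y ^ 2 ≤ 2 * Real.exp y := by
    intro y hy
    have := Real.quadratic_le_exp_of_nonneg hy
    nlinarith
  rcases le_total 0 x with hx | hx
  · have := h x hx
    have := Real.exp_pos (-x)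
    linarith
  · have := h (-x) (by linarith)
    have := Real.exp_pos x
    nlinarith

lemma nI_sq (hB : IncVec P F B) {τ : ℕ → ℝ≥0} (hτ : Monotone τ) {w : ℕ → Ω → E d}
    (hw : ∀ k, Measurable[F (τ k)] (w k)) (n : ℕ) (c : ℝ) (hc : ∀ ω, qV τ w n ω ≤ c) :
    Integrable (fun ω => nI B τ w n ω ^ 2) P ∧
      ∫ ω, nI B τ w n ω ^ 2 ∂P ≤ 4 * Real.exp (c / 2) := by
  have hm := nI_meas (P := P) hB hw n
  have hi : ∀ θ : ℝ, Integrable (fun ω => Real.exp (θ * nI B τ w n ω)) P := by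
    intro θ
    refine ⟨(by fun_prop : Measurable _).aestronglyMeasurable, ?_⟩
    rw [hasFiniteIntegral_iff_ofReal (Filter.Eventually.of_forall fun ω => (Real.exp_pos _).le)]
    exact (exp_nI hB hτ hw n c hc θ).trans_lt ENNReal.ofReal_lt_top
  have hv : ∀ θ : ℝ, ∫ ω, Real.exp (θ * nI B τ w n ω) ∂P ≤ Real.exp (θ ^ 2 * c / 2) := by
    intro θ
    rw [integral_eq_lintegral_of_nonneg_ae
      (Filter.Eventually.of_forall fun ω => (Real.exp_pos _).le) (hi θ).1]
    exact ENNReal.toReal_le_of_le_ofReal (Real.exp_pos _).le (exp_nI hB hτ hw n c hc θ)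
  have h1 := hi 1
  have h2 := hi (-1)
  have hb : Integrable (fun ω => 2 * (Real.exp (1 * nI B τ w n ω) +
      Real.exp (-1 * nI B τ w n ω))) P := (h1.add h2).const_mul 2
  have hle : ∀ ω, nI B τ w n ω ^ 2 ≤ 2 * (Real.exp (1 * nI B τ w n ω) +
      Real.exp (-1 * nI B τ w n ω)) := by
    intro ω
    rw [one_mul, neg_one_mul]
    exact sq_le_exp _
  have hI : Integrable (fun ω => nI B τ w n ω ^ 2) P := by
    refine Integrable.mono' hb (hm.pow_const 2).aestronglyMeasurable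
      (Filter.Eventually.of_forall fun ω => ?_)
    rw [Real.norm_eq_abs, abs_of_nonneg (sq_nonneg _)]
    exact hle ω
  refine ⟨hI, ?_⟩
  calc ∫ ω, nI B τ w n ω ^ 2 ∂P ≤ ∫ ω, 2 * (Real.exp (1 * nI B τ w n ω) +
      Real.exp (-1 * nI B τ w n ω)) ∂P := integral_mono hI hb hle
    _ = 2 * ((∫ ω, Real.exp (1 * nI B τ w n ω) ∂P) + ∫ ω, Real.exp (-1 * nI B τ w n ω) ∂P) := by
        rw [integral_const_mul, integral_add h1 h2]
    _ ≤ 2 * (Real.exp (1 ^ 2 * c / 2) + Real.exp ((-1) ^ 2 * c / 2)) := by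
        have := hv 1
        have := hv (-1)
        linarith
    _ = _ := by norm_num; ring

lemma nI_int (hB : IncVec P F B) {τ : ℕ → ℝ≥0} (hτ : Monotone τ) {w : ℕ → Ω → E d}
    (hw : ∀ k, Measurable[F (τ k)] (w k)) (n : ℕ) (c : ℝ) (hc : ∀ ω, qV τ w n ω ≤ c) :
    Integrable (nI B τ w n) P := by
  have h1 := (nI_sq hB hτ hw n c hc).1
  refine Integrable.mono' (h1.add (integrable_const 1))
    (nI_meas (P := P) hB hw n).aestronglyMeasurable (Filter.Eventually.of_forall fun ω => ?_)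
  simp only [Pi.add_apply]
  rw [Real.norm_eq_abs, abs_le]
  constructor <;> nlinarith [sq_nonneg (nI B τ w n ω - 1), sq_nonneg (nI B τ w n ω + 1)]

lemma nI_le (hB : IncVec P F B) {τ : ℕ → ℝ≥0} (hτ : Monotone τ) {w : ℕ → Ω → E d}
    (hw : ∀ k, Measurable[F (τ k)] (w k)) (n : ℕ) (c : ℝ) (hc : ∀ ω, qV τ w n ω ≤ c)
    {A : Set Ω} (hA : MeasurableSet[F (τ 0)] A) : ∫ ω in A, nI B τ w n ω ∂P ≤ 0 := by
  have hAm : MeasurableSet A := F.le _ _ hA
  have hNi := nI_int hB hτ hw n c hc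
  have hc0 : 0 ≤ c := by
    obtain ⟨ω⟩ : Nonempty Ω := by
      by_contra hne
      rw [not_nonempty_iff] at hne
      have h1 := measure_univ (μ := P)
      rw [Set.univ_eq_empty_iff.2 hne, measure_empty] at h1
      exact zero_ne_one h1
    refine le_trans ?_ (hc ω)
    have := qV_mono hτ w ω (Nat.zero_le n)
    simpa [qV] using this
  have key : ∀ θ : ℝ, 0 < θ → ∫ ω in A, nI B τ w n ω ∂P ≤ θ * c / 2 := by
    intro θ hθ
    have h1 := exp_grid (P := P) hB hτ (w := fun k ω => θ • w k ω) (fun k => (hw k).const_smul θ)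
      (g := A.indicator fun _ => (1 : ℝ≥0∞))
      (Measurable.indicator (@measurable_const _ _ _ (F (τ 0)) _) hA) n
    have h2 : ∀ ω, A.indicator (fun _ => (1 : ℝ≥0∞)) ω *
        ENNReal.ofReal (Real.exp (eS B τ (fun k ω => θ • w k ω) n ω)) =
        A.indicator (fun ω => ENNReal.ofReal (Real.exp (eS B τ (fun k ω => θ • w k ω) n ω))) ω := by
      intro ω
      by_cases hω : ω ∈ A
      · rw [Set.indicator_of_mem hω, Set.indicator_of_mem hω, one_mul]
      · rw [Set.indicator_of_notMem hω, Set.indicator_of_notMem hω, zero_mul]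
    simp_rw [h2] at h1
    rw [lintegral_indicator hAm, lintegral_indicator hAm, setLIntegral_const, one_mul] at h1
    have hem : Measurable (fun ω => Real.exp (eS B τ (fun k ω => θ • w k ω) n ω)) :=
      ((eS_meas hB hτ (fun k => (hw k).const_smul θ) n).mono (F.le _) le_rfl).exp
    have hei : IntegrableOn (fun ω => Real.exp (eS B τ (fun k ω => θ • w k ω) n ω)) A P := by
      refine ⟨hem.aestronglyMeasurable, ?_⟩
      rw [hasFiniteIntegral_iff_ofReal
        (Filter.Eventually.of_forall fun ω => (Real.exp_pos _).le), h1]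
      exact measure_lt_top _ _
    have hev : ∫ ω in A, Real.exp (eS B τ (fun k ω => θ • w k ω) n ω) ∂P = P.real A := by
      rw [integral_eq_lintegral_of_nonneg_ae
        (Filter.Eventually.of_forall fun ω => (Real.exp_pos _).le) hem.aestronglyMeasurable, h1]
      rfl
    have hlow : ∫ ω in A, (1 + θ * nI B τ w n ω - θ ^ 2 * c / 2) ∂P ≤
        ∫ ω in A, Real.exp (eS B τ (fun k ω => θ • w k ω) n ω) ∂P := by
      refine integral_mono ?_ hei fun ω => ?_
      · exact (((integrable_const 1).add (hNi.const_mul θ)).sub (integrable_const _)).integrableOn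
      · simp only
        have h3 := Real.add_one_le_exp (eS B τ (fun k ω => θ • w k ω) n ω)
        rw [eS_smul] at h3
        have h4 := mul_le_mul_of_nonneg_left (hc ω) (sq_nonneg θ)
        rw [eS_smul]
        linarith
    have hcomp : ∫ ω in A, (1 + θ * nI B τ w n ω - θ ^ 2 * c / 2) ∂P =
        P.real A + θ * (∫ ω in A, nI B τ w n ω ∂P) - θ ^ 2 * c / 2 * P.real A := by
      have i1 : IntegrableOn (fun _ : Ω => (1 : ℝ)) A P := (integrable_const 1).integrableOn
      have i2 : IntegrableOn (fun ω => θ * nI B τ w n ω) A P := (hNi.const_mul θ).integrableOn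
      have i3 : IntegrableOn (fun _ : Ω => θ ^ 2 * c / 2) A P :=
        (integrable_const _).integrableOn
      have i12 : IntegrableOn (fun ω => 1 + θ * nI B τ w n ω) A P := i1.add i2
      rw [integral_sub i12 i3, integral_add i1 i2, integral_const_mul,
        setIntegral_const, setIntegral_const]
      simp only [smul_eq_mul, mul_one]
      ring
    rw [hcomp, hev] at hlow
    have hPA : P.real A ≤ 1 := measureReal_le_one
    have hPA0 : 0 ≤ P.real A := measureReal_nonneg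
    have h5 : θ * (∫ ω in A, nI B τ w n ω ∂P) ≤ θ * (θ * c / 2) := by
      have h6 : θ ^ 2 * c / 2 * P.real A ≤ θ ^ 2 * c / 2 * 1 :=
        mul_le_mul_of_nonneg_left hPA (by positivity)
      nlinarith
    exact le_of_mul_le_mul_left h5 hθ
  refine le_of_forall_pos_le_add fun e he => ?_
  have h1 := key (2 * e / (c + 1)) (by positivity)
  refine h1.trans ?_
  rw [zero_add]
  have h2 : 2 * e / (c + 1) * c / 2 = e * (c / (c + 1)) := by
    field_simp
  rw [h2]
  have h3 : c / (c + 1) ≤ 1 := by rw [div_le_one (by positivity)]; linarith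
  nlinarith

lemma nI_ui (hB : IncVec P F B) {τ : ℕ → ℝ≥0} (hτ : Monotone τ) {w : ℕ → Ω → E d}
    (hw : ∀ k, Measurable[F (τ k)] (w k)) (n : ℕ) (c : ℝ) (hc : ∀ ω, qV τ w n ω ≤ c)
    {δ : ℝ} (hδ : 0 < δ) {A : Set Ω} (hA : MeasurableSet A) :
    ∫ ω in A, |nI B τ w n ω| ∂P ≤ δ * (4 * Real.exp (c / 2)) + δ⁻¹ * P.real A := by
  obtain ⟨h1, h2⟩ := nI_sq hB hτ hw n c hc
  have hNi := nI_int hB hτ hw n c hc
  have i1 : IntegrableOn (fun ω => δ * nI B τ w n ω ^ 2) A P := (h1.const_mul δ).integrableOn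
  have i2 : IntegrableOn (fun _ : Ω => δ⁻¹) A P := (integrable_const _).integrableOn
  calc ∫ ω in A, |nI B τ w n ω| ∂P ≤ ∫ ω in A, (δ * nI B τ w n ω ^ 2 + δ⁻¹) ∂P := by
        refine integral_mono hNi.abs.integrableOn (i1.add i2) fun ω => ?_
        simp only
        set x := |nI B τ w n ω| with hx
        have h3 : nI B τ w n ω ^ 2 = x ^ 2 := by rw [hx, sq_abs]
        rw [h3]
        have h4 : 0 ≤ δ * (x - δ⁻¹) ^ 2 := by positivity
        have h5 : δ * (x - δ⁻¹) ^ 2 = δ * x ^ 2 - 2 * x + δ⁻¹ := by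
          have h7 : δ * δ⁻¹ = 1 := mul_inv_cancel₀ hδ.ne'
          linear_combination (-2 * x + δ⁻¹) * h7
        have h6 : 0 ≤ x := abs_nonneg _
        linarith
    _ = δ * (∫ ω in A, nI B τ w n ω ^ 2 ∂P) + δ⁻¹ * P.real A := by
        rw [integral_add i1 i2, integral_const_mul, setIntegral_const, smul_eq_mul]
        ring
    _ ≤ _ := by
        have h3 : ∫ ω in A, nI B τ w n ω ^ 2 ∂P ≤ ∫ ω, nI B τ w n ω ^ 2 ∂P :=
          setIntegral_le_integral h1 (Filter.Eventually.of_forall fun ω => sq_nonneg _)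
        have := mul_le_mul_of_nonneg_left (h3.trans h2) hδ.le
        linarith

omit [IsProbabilityMeasure P] in
lemma ui_int {f : Ω → ℝ} {S : Set Ω} (hS : MeasurableSet S) (hf : AEStronglyMeasurable f P)
    {e : ℝ} (he : 0 ≤ e) (h : eLpNorm (S.indicator f) 1 P ≤ ENNReal.ofReal e) :
    ∫ ω in S, |f ω| ∂P ≤ e := by
  rw [integral_eq_lintegral_of_nonneg_ae (Filter.Eventually.of_forall fun ω => abs_nonneg _)
    hf.restrict.norm]
  refine ENNReal.toReal_le_of_le_ofReal he (le_trans (le_of_eq ?_) h)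
  rw [eLpNorm_one_eq_lintegral_enorm, ← lintegral_indicator hS]
  refine lintegral_congr fun ω => ?_
  by_cases hω : ω ∈ S
  · rw [Set.indicator_of_mem hω, Set.indicator_of_mem hω, ← Real.norm_eq_abs, ofReal_norm]
  · rw [Set.indicator_of_notMem hω, Set.indicator_of_notMem hω, enorm_zero]

lemma stop_isStopping {τ : ℕ → ℝ≥0} (hτ : Monotone τ) {w : ℕ → Ω → E d}
    (hw : ∀ k, Measurable[F (τ k)] (w k)) {c : ℝ} (hc : 0 ≤ c) (n : ℕ) :
    IsStoppingTime F (fun ω => ((τ (stopIdx τ w c n ω) : ℝ≥0) : WithTop ℝ≥0)) := by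
  intro i
  have h1 : {ω : Ω | ((τ (stopIdx τ w c n ω) : ℝ≥0) : WithTop ℝ≥0) ≤ (i : WithTop ℝ≥0)} =
      ⋃ k ∈ (Finset.range (n + 1)).filter (fun k => τ k ≤ i), {ω | stopIdx τ w c n ω ≤ k} := by
    ext ω
    simp only [Set.mem_iUnion, Finset.mem_filter, Finset.mem_range, WithTop.coe_le_coe]
    constructor
    · intro h
      refine ⟨stopIdx τ w c n ω, ⟨Nat.lt_succ_of_le (stop_le τ w c n ω), by simpa using h⟩, ?_⟩
      simp
    · rintro ⟨k, ⟨_, hk⟩, h⟩
      have h2 : stopIdx τ w c n ω ≤ k := by simpa using h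
      have h3 : τ (stopIdx τ w c n ω) ≤ i := (hτ h2).trans hk
      simpa using h3
  show MeasurableSet[F i] {ω : Ω | ((τ (stopIdx τ w c n ω) : ℝ≥0) : WithTop ℝ≥0) ≤
    (i : WithTop ℝ≥0)}
  rw [h1]
  refine Finset.measurableSet_biUnion _ fun k hk => ?_
  rw [Finset.mem_filter, Finset.mem_range] at hk
  by_cases hkn : k < n
  · have h2 : {ω : Ω | stopIdx τ w c n ω ≤ k} = {ω | qV τ w (k + 1) ω ≤ c}ᶜ := by
      ext ω
      have := stop_iff hτ w hc hkn ω
      simp only [Set.mem_compl_iff]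
      constructor
      · intro h h3
        have h3' : qV τ w (k + 1) ω ≤ c := by simpa using h3
        have h' : stopIdx τ w c n ω ≤ k := by simpa using h
        exact absurd (this.1 h3') (not_lt.2 h')
      · intro h
        have h' : ¬ qV τ w (k + 1) ω ≤ c := by simpa using h
        have : stopIdx τ w c n ω ≤ k := not_lt.1 fun h3 => h' (this.2 h3)
        simpa using this
    rw [h2]
    refine F.mono hk.2 _ (MeasurableSet.compl ?_)
    exact measurableSet_le (qV_meas hτ hw k) (@measurable_const _ _ _ (F (τ k)) _)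
  · have h2 : {ω : Ω | stopIdx τ w c n ω ≤ k} = Set.univ := by
      ext ω
      have : stopIdx τ w c n ω ≤ k := (stop_le τ w c n ω).trans (not_lt.1 hkn)
      simpa using this
    rw [h2]
    exact @MeasurableSet.univ _ (F i)

end

end Pool.Agent.R228.BD
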