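import Pool.Agent.R228.BD.Nonneg

/-!
# MP_ed2581_pr: solutions of class (D) with nonnegative terminal value are nonnegative
-/

open MeasureTheory ProbabilityTheory Filter Topology
open scoped NNReal ENNReal

namespace Pool.Agent.R228.BD

open Pool.Agent.R228.BS (E IsBrownianVec natFilt ClassD conv0)

section
variable {Ω : Type*} [mΩ : MeasurableSpace Ω] {P : Measure Ω} [IsProbabilityMeasure P]
  {F : Filtration ℝ≥0 mΩ} {d : ℕ} {B : ℝ≥0 → Ω → E d} {T : ℝ≥0} {Z : ℝ≥0 → Ω → E d}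

omit [IsProbabilityMeasure P] in
lemma classD_int {Y : ℝ≥0 → Ω → ℝ} (hD : ClassD P F T Y) {σ : Ω → ℝ≥0}
    (hσ : IsStoppingTime F (fun ω => ((σ ω : ℝ≥0) : WithTop ℝ≥0))) (hle : ∀ ω, σ ω ≤ T) :
    Integrable (fun ω => Y (σ ω) ω) P := by
  rw [← memLp_one_iff_integrable]
  obtain ⟨h1, _, C, hC⟩ := hD
  exact ⟨h1 ⟨σ, hσ, hle⟩, (hC ⟨σ, hσ, hle⟩).trans_lt ENNReal.coe_lt_top⟩

lemma nonneg_aux (hB : IncVec P F B) (hZ : ProgOn F T Z)
    (hJ : ∀ᵐ ω ∂P, JZ T Z ω < ∞) {M Y : ℝ≥0 → Ω → ℝ} {ξ : Ω → ℝ} (hIto : IsIto P F B T Z M)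
    (heq : ∀ᵐ ω ∂P, ∀ t : ℝ≥0, t ≤ T →
      Y t ω = ξ ω + (∫ s in (t : ℝ)..T, fgen (Z s.toNNReal ω)) - (M T ω - M t ω))
    (hξ : ∀ᵐ ω ∂P, 0 ≤ ξ ω) (hD : ClassD P F T Y) {s : ℝ≥0} (hsT : s ≤ T)
    {A : Set Ω} (hA : MeasurableSet[F s] A) {e : ℝ} (he : 0 < e) :
    -(6 * e) ≤ ∫ ω in A, Y s ω ∂P := by
  obtain ⟨V, hV1, hV2⟩ := hIto
  obtain ⟨δ₀, hδ₀, hui⟩ := hD.2.1 he
  have htail := tail_tendsto (P := P) hZ
  have hev : ∀ {x : ℝ}, 0 < x → ∃ n : ℕ, P {ω | (n : ℝ) < (JZ T Z ω).toReal} ≤ ENNReal.ofReal x := by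
    intro x hx
    have h1 := (tendsto_order.1 htail).2 (ENNReal.ofReal x) (by simpa using hx)
    obtain ⟨n, hn⟩ := h1.exists
    exact ⟨n, hn.le⟩
  obtain ⟨n₁, hn₁⟩ := hev hδ₀
  set c : ℝ := 1 + (n₁ : ℝ) with hc
  have hc0 : 0 ≤ c := by positivity
  set δ' : ℝ := e / (4 * Real.exp (c / 2)) with hδ'
  have hδ'0 : 0 < δ' := by positivity
  have hδ'e : δ' * (4 * Real.exp (c / 2)) = e := by
    rw [hδ']
    field_simp
  set ρ : ℝ := min δ₀ (δ' * e) with hρ
  have hρ0 : 0 < ρ := lt_min hδ₀ (by positivity)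
  obtain ⟨n₂, hn₂⟩ := hev (x := ρ / 3) (by positivity)
  set δ : ℝ := 1 / (2 * ((n₂ : ℝ) + 1)) with hδ
  have hδ0 : 0 < δ := by positivity
  have hδn : δ * (n₂ : ℝ) ≤ 1 / 2 := by
    rw [hδ, div_mul_eq_mul_div, one_mul, div_le_iff₀ (by positivity)]
    linarith
  set ε₂ : ℝ := 1 / (2 * (1 + 1 / δ)) with hε₂
  have hε₂0 : 0 < ε₂ := by positivity
  have hε₂1 : (1 + 1 / δ) * ε₂ = 1 / 2 := by
    rw [hε₂]
    field_simp
  have hρ3 : (0 : ℝ≥0∞) < ENNReal.ofReal (ρ / 3) := by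
    rw [ENNReal.ofReal_pos]; positivity
  obtain ⟨j, hj1, hj2⟩ := (((tendsto_order.1 (hV2 e he)).2 (ENNReal.ofReal (ρ / 3)) hρ3).and
    ((tendsto_order.1 (hV1 (ENNReal.ofReal ε₂) (by simpa using hε₂0))).2
      (ENNReal.ofReal (ρ / 3)) hρ3)).exists
  set τ := cg (V j) s T with hτ
  have hτm : Monotone τ := cg_mono (V j) s T
  have hτ0 : τ 0 = s := cg_zero (V j) s T
  have hτn : τ (V j).n = T := cg_last (V j) hsT le_rfl
  set w := wc (V j) T (0 : E d) (-1) with hw
  have hwm : ∀ k, Measurable[F (τ k)] (w k) := fun k => wc_meas (V j) s T 0 (-1) k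
  set W := stopW τ w c w with hW
  have hWm : ∀ k, Measurable[F (τ k)] (W k) := fun k => stopW_meas hτm hwm hwm c k
  have hqW : ∀ ω, qV τ W (V j).n ω ≤ c := fun ω => by
    rw [hW, qV_stop hτm w w hc0]; exact qV_stopIdx_le w hc0 (V j).n ω
  have hAm : MeasurableSet A := F.le s _ hA
  set κ : Ω → ℕ := stopIdx τ w c (V j).n with hκ
  set N : Ω → ℝ := nI B τ W (V j).n with hN
  have hNi : Integrable N P := nI_int hB hτm hWm _ c hqW
  have hNle : ∫ ω in A, N ω ∂P ≤ 0 := nI_le hB hτm hWm _ c hqW (by rw [hτ0]; exact hA)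
  have hσ := stop_isStopping hτm hwm hc0 (V j).n
  have hσle : ∀ ω, τ (κ ω) ≤ T := fun ω => max_le hsT (min_le_right _ _)
  have hYσi : Integrable (fun ω => Y (τ (κ ω)) ω) P := classD_int hD hσ hσle
  have hsst : IsStoppingTime F (fun _ : Ω => ((s : ℝ≥0) : WithTop ℝ≥0)) :=
    isStoppingTime_const F s
  have hYsi : Integrable (Y s) P := classD_int hD hsst (fun _ => hsT)
  set Bd := toMeasurable P (Bad B T Z M (V j) e ε₂ (n₂ : ℝ)) with hBd
  have hBdm : MeasurableSet Bd := measurableSet_toMeasurable _ _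
  have hBdP : P Bd ≤ ENNReal.ofReal ρ := by
    rw [hBd, measure_toMeasurable]
    calc P (Bad B T Z M (V j) e ε₂ (n₂ : ℝ)) ≤ (ENNReal.ofReal (ρ / 3) + ENNReal.ofReal (ρ / 3)) +
          ENNReal.ofReal (ρ / 3) :=
          (measure_union_le _ _).trans (add_le_add ((measure_union_le _ _).trans
            (add_le_add hj1.le hj2.le)) hn₂)
      _ = ENNReal.ofReal ρ := by
          rw [← ENNReal.ofReal_add (by positivity) (by positivity),
            ← ENNReal.ofReal_add (by positivity) (by positivity)]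
          congr 1
          ring
  have hJm : Measurable (fun ω => (JZ T Z ω).toReal) := (JZ_meas hZ).ennreal_toReal
  set S : Set Ω := {ω | (n₁ : ℝ) < (JZ T Z ω).toReal} with hS
  have hSm : MeasurableSet S := measurableSet_lt measurable_const hJm
  -- the integrals of the error terms
  have b1 : ∫ ω in S, |Y (τ (κ ω)) ω| ∂P ≤ e :=
    ui_int hSm hYσi.1 he.le (hui ⟨fun ω => τ (κ ω), hσ, hσle⟩ S hSm hn₁)
  have b2 : ∫ ω in Bd, |Y s ω| ∂P ≤ e :=
    ui_int hBdm hYsi.1 he.le (hui ⟨fun _ => s, hsst, fun _ => hsT⟩ Bd hBdm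
      (hBdP.trans (ENNReal.ofReal_le_ofReal (min_le_left _ _))))
  have b3 : ∫ ω in Bd, |N ω| ∂P ≤ 2 * e := by
    have h1 := nI_ui hB hτm hWm (V j).n c hqW hδ'0 hBdm
    have h2 : P.real Bd ≤ ρ := ENNReal.toReal_le_of_le_ofReal hρ0.le hBdP
    have h3 : δ'⁻¹ * P.real Bd ≤ e := by
      have h4 : P.real Bd ≤ δ' * e := h2.trans (min_le_right _ _)
      calc δ'⁻¹ * P.real Bd ≤ δ'⁻¹ * (δ' * e) := by gcongr
        _ = e := by rw [← mul_assoc, inv_mul_cancel₀ hδ'0.ne', one_mul]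
    rw [hδ'e] at h1
    linarith
  -- the pointwise inequality
  have hpt : ∀ᵐ ω ∂P, -(S.indicator (fun ω => |Y (τ (κ ω)) ω|) ω) - N ω - 2 * e
      - Bd.indicator (fun ω => |Y s ω|) ω - Bd.indicator (fun ω => |N ω|) ω ≤ Y s ω := by
    filter_upwards [hJ, heq, hξ] with ω h1 h2 h3
    have p1 : 0 ≤ S.indicator (fun ω => |Y (τ (κ ω)) ω|) ω :=
      Set.indicator_nonneg (fun _ _ => abs_nonneg _) _
    by_cases h4 : ω ∈ Bd
    · rw [Set.indicator_of_mem h4, Set.indicator_of_mem h4]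
      have := neg_abs_le (Y s ω)
      have := neg_abs_le (N ω)
      linarith
    · rw [Set.indicator_of_notMem h4, Set.indicator_of_notMem h4]
      have h5 : ω ∉ Bad B T Z M (V j) e ε₂ (n₂ : ℝ) := fun h => h4 (subset_toMeasurable _ _ h)
      have hb1 : ∀ r : ℝ≥0, r ≤ T → |(V j).int B r ω - M r ω| ≤ e := by
        intro r hr
        by_contra hcon
        exact h5 (Or.inl (Or.inl ⟨r, hr, (not_le.1 hcon).le⟩))
      have hb2 : ∫⁻ s in Set.Icc (0 : ℝ) T, ‖(V j).val s.toNNReal ω - Z s.toNNReal ω‖ₑ ^ 2 ≤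
          ENNReal.ofReal ε₂ := by
        by_contra hcon
        exact h5 (Or.inl (Or.inr (not_le.1 hcon).le))
      have hb3 : (JZ T Z ω).toReal ≤ n₂ := by
        by_contra hcon
        exact h5 (Or.inr (not_le.1 hcon))
      have hcl := close_int hZ (V j) h1 hε₂0.le hb2
      have hzS := Z_SqInt hZ h1
      have hs0 : (0 : ℝ) ≤ s := s.coe_nonneg
      have hsTR : (s : ℝ) ≤ T := by exact_mod_cast hsT
      have hκn : κ ω ≤ (V j).n := stop_le τ w c (V j).n ω
      set r : ℝ≥0 := τ (κ ω) with hr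
      have hrT : r ≤ T := hσle ω
      have hsr : s ≤ r := le_max_left _ _
      have hsr' : (s : ℝ) ≤ r := by exact_mod_cast hsr
      have hrT' : (r : ℝ) ≤ T := by exact_mod_cast hrT
      have hNω : N ω = (V j).int B r ω - (V j).int B s ω := by
        have e1 : N ω = ∑ k ∈ Finset.range (κ ω),
            inner ℝ (w k ω) (B (τ (k + 1)) ω - B (τ k) ω) := by
          rw [hN, hκ, ← stop_sum hτm w hc0 (V j).n ω]
          unfold nI
          refine Finset.sum_congr rfl fun k _ => ?_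
          rw [hW]
          unfold stopW
          split_ifs <;> simp
        rw [e1, hw, hτ, wc_sum (V j) hsT (0 : E d) (-1) ω hκn]
        rw [inner_zero_left]
        simp only [← hτ, ← hr]
        ring
      have hYY : Y r ω - Y s ω ≤ M r ω - M s ω := by
        rw [h2 r hrT, h2 s hsT]
        have h8 : ∫ x in (s : ℝ)..T, fgen (Z x.toNNReal ω) =
            (∫ x in (s : ℝ)..r, fgen (Z x.toNNReal ω)) +
              ∫ x in (r : ℝ)..T, fgen (Z x.toNNReal ω) := by
          rw [intervalIntegral.integral_add_adjacent_intervals]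
          · rw [intervalIntegrable_iff_integrableOn_Ioc_of_le hsr']
            exact hzS.fint.mono_set (ioc_sub hs0 hrT')
          · rw [intervalIntegrable_iff_integrableOn_Ioc_of_le hrT']
            exact hzS.fint.mono_set (ioc_sub r.coe_nonneg le_rfl)
        rw [h8]
        have h9 : 0 ≤ ∫ x in (s : ℝ)..r, fgen (Z x.toNNReal ω) :=
          intervalIntegral.integral_nonneg hsr' fun x _ => fgen_nonneg _
        linarith
      have h10 := abs_le.1 (hb1 r hrT)
      have h11 := abs_le.1 (hb1 s hsT)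
      have h12 : Y r ω - N ω - 2 * e ≤ Y s ω := by
        rw [hNω]
        linarith [h10.1, h11.2]
      rcases eq_or_lt_of_le hκn with hκe | hκl
      · have h13 : r = T := by rw [hr, hκe, hτn]
        have h14 : Y T ω = ξ ω := by
          rw [h2 T le_rfl]
          simp
        rw [h13, h14] at h12
        linarith
      · have h8 : c < qV τ w (V j).n ω := by
          have h9 : ¬ qV τ w (κ ω + 1) ω ≤ c := fun hh =>
            absurd ((stop_iff hτm w hc0 hκl ω).1 hh) (lt_irrefl _)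
          exact (not_le.1 h9).trans_le (qV_mono hτm w ω (Nat.succ_le_of_lt hκl))
        have h10 : qV τ w (V j).n ω = ∫ r in (s : ℝ)..T,
            ‖(0 : E d) - (-1 : ℝ) • (V j).val r.toNNReal ω‖ ^ 2 := by
          rw [hτ, hw, qV_eq (V j) 0 (-1) ω le_rfl, ← hτ, hτn]
        have h11 := path_close hzS (val_SqInt (V j) ω) (0 : E d) (-1) hδ0 hs0 hsTR le_rfl le_rfl
        rw [← h10, abs_le] at h11
        have hI1 := I_le hzS (v := (0 : E d)) (q := 0) norm_zero (-1) hs0 hsTR le_rfl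
          (JZ_int hZ h1)
        have hI2 : ∫ x in (s : ℝ)..T, ‖(0 : E d) - (-1 : ℝ) • Z x.toNNReal ω‖ ^ 2 ≤
            (JZ T Z ω).toReal := by
          have i5 : ∀ x : ℝ, ‖(0 : E d) - (-1 : ℝ) • Z x.toNNReal ω‖ ^ 2 =
              ‖Z x.toNNReal ω‖ ^ 2 := by
            intro x
            rw [neg_one_smul, sub_neg_eq_add, zero_add]
          simp_rw [i5]
          rw [intervalIntegral.integral_of_le hsTR]
          refine le_trans ?_ (JZ_int hZ h1)
          exact setIntegral_mono_set hzS.int (Filter.Eventually.of_forall fun x => by positivity)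
            (ioc_sub hs0 le_rfl).eventuallyLE
        have h12' : (1 + 1 / δ) * (-1) ^ 2 *
          (∫ x in Set.Ioc (0 : ℝ) T, ‖(V j).val x.toNNReal ω - Z x.toNNReal ω‖ ^ 2) ≤
          (1 + 1 / δ) * (-1) ^ 2 * ε₂ := mul_le_mul_of_nonneg_left hcl (by positivity)
        have h13 : δ * ∫ x in (s : ℝ)..T, ‖(0 : E d) - (-1 : ℝ) • Z x.toNNReal ω‖ ^ 2 ≤
          δ * n₂ := mul_le_mul_of_nonneg_left (hI2.trans hb3) hδ0.le
        have h14 : (n₁ : ℝ) < (JZ T Z ω).toReal := by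
          have h15 : (1 + 1 / δ) * (-1) ^ 2 * ε₂ = 1 / 2 := by
            rw [neg_one_sq, mul_one]; exact hε₂1
          rw [h15] at h12'
          linarith [h11.2]
        have hmem : ω ∈ S := by simpa [hS] using h14
        rw [Set.indicator_of_mem hmem]
        have := neg_abs_le (Y (τ (κ ω)) ω)
        simp only [← hr] at this ⊢
        linarith
  have hSi : Integrable (S.indicator (fun ω => |Y (τ (κ ω)) ω|)) P := hYσi.abs.indicator hSm
  have hBi : Integrable (Bd.indicator (fun ω => |Y s ω|)) P := hYsi.abs.indicator hBdm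
  have hBi2 : Integrable (Bd.indicator (fun ω => |N ω|)) P := hNi.abs.indicator hBdm
  have hint : ∫ ω in A, (-(S.indicator (fun ω => |Y (τ (κ ω)) ω|) ω) - N ω - 2 * e
      - Bd.indicator (fun ω => |Y s ω|) ω - Bd.indicator (fun ω => |N ω|) ω) ∂P ≤
      ∫ ω in A, Y s ω ∂P := by
    refine integral_mono_ae ?_ hYsi.integrableOn (ae_restrict_of_ae hpt)
    exact ((((hSi.neg.sub hNi).sub (integrable_const _)).sub hBi).sub hBi2).integrableOn
  have hcomp : ∫ ω in A, (-(S.indicator (fun ω => |Y (τ (κ ω)) ω|) ω) - N ω - 2 * e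
      - Bd.indicator (fun ω => |Y s ω|) ω - Bd.indicator (fun ω => |N ω|) ω) ∂P =
      -(∫ ω in A, S.indicator (fun ω => |Y (τ (κ ω)) ω|) ω ∂P) - (∫ ω in A, N ω ∂P)
      - 2 * e * P.real A - (∫ ω in A, Bd.indicator (fun ω => |Y s ω|) ω ∂P)
      - ∫ ω in A, Bd.indicator (fun ω => |N ω|) ω ∂P := by
    have j1 : IntegrableOn (fun ω => -(S.indicator (fun ω => |Y (τ (κ ω)) ω|) ω)) A P :=
      hSi.neg.integrableOn
    have j2 : IntegrableOn N A P := hNi.integrableOn
    have j3 : IntegrableOn (fun _ : Ω => 2 * e) A P := (integrable_const _).integrableOn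
    have j4 : IntegrableOn (Bd.indicator (fun ω => |Y s ω|)) A P := hBi.integrableOn
    have j5 : IntegrableOn (Bd.indicator (fun ω => |N ω|)) A P := hBi2.integrableOn
    have j12 : IntegrableOn (fun ω => -(S.indicator (fun ω => |Y (τ (κ ω)) ω|) ω) - N ω) A P :=
      j1.sub j2
    have j123 : IntegrableOn (fun ω => -(S.indicator (fun ω => |Y (τ (κ ω)) ω|) ω) - N ω
      - 2 * e) A P := j12.sub j3
    have j1234 : IntegrableOn (fun ω => -(S.indicator (fun ω => |Y (τ (κ ω)) ω|) ω) - N ω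
      - 2 * e - Bd.indicator (fun ω => |Y s ω|) ω) A P := j123.sub j4
    rw [integral_sub j1234 j5, integral_sub j123 j4, integral_sub j12 j3, integral_sub j1 j2,
      integral_neg, setIntegral_const, smul_eq_mul]
    ring
  have k1 : ∫ ω in A, S.indicator (fun ω => |Y (τ (κ ω)) ω|) ω ∂P ≤ e := by
    refine le_trans (setIntegral_le_integral hSi (Filter.Eventually.of_forall fun ω =>
      Set.indicator_nonneg (fun _ _ => abs_nonneg _) _)) ?_
    rw [integral_indicator hSm]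
    exact b1
  have k2 : ∫ ω in A, Bd.indicator (fun ω => |Y s ω|) ω ∂P ≤ e := by
    refine le_trans (setIntegral_le_integral hBi (Filter.Eventually.of_forall fun ω =>
      Set.indicator_nonneg (fun _ _ => abs_nonneg _) _)) ?_
    rw [integral_indicator hBdm]
    exact b2
  have k3 : ∫ ω in A, Bd.indicator (fun ω => |N ω|) ω ∂P ≤ 2 * e := by
    refine le_trans (setIntegral_le_integral hBi2 (Filter.Eventually.of_forall fun ω =>
      Set.indicator_nonneg (fun _ _ => abs_nonneg _) _)) ?_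
    rw [integral_indicator hBdm]
    exact b3
  have k4 : P.real A ≤ 1 := measureReal_le_one
  rw [hcomp] at hint
  have k5 : 2 * e * P.real A ≤ 2 * e * 1 := mul_le_mul_of_nonneg_left k4 (by positivity)
  linarith

theorem nonneg (hB : IncVec P F B) (hZ : ProgOn F T Z)
    (hJ : ∀ᵐ ω ∂P, JZ T Z ω < ∞) {M Y : ℝ≥0 → Ω → ℝ} {ξ : Ω → ℝ} (hIto : IsIto P F B T Z M)
    (heq : ∀ᵐ ω ∂P, ∀ t : ℝ≥0, t ≤ T →
      Y t ω = ξ ω + (∫ s in (t : ℝ)..T, fgen (Z s.toNNReal ω)) - (M T ω - M t ω))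
    (hYm : ∀ t ≤ T, Measurable[F t] (Y t))
    (hξ : ∀ᵐ ω ∂P, 0 ≤ ξ ω) (hD : ClassD P F T Y) {s : ℝ≥0} (hsT : s ≤ T) :
    ∀ᵐ ω ∂P, 0 ≤ Y s ω := by
  have hsst : IsStoppingTime F (fun _ : Ω => ((s : ℝ≥0) : WithTop ℝ≥0)) :=
    isStoppingTime_const F s
  have hYsi : Integrable (Y s) P := classD_int hD hsst (fun _ => hsT)
  set A : Set Ω := {ω | Y s ω < 0} with hAdef
  have hA : MeasurableSet[F s] A :=
    measurableSet_lt (hYm s hsT) (@measurable_const _ _ _ (F s) _)
  have hAm : MeasurableSet A := F.le s _ hA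
  have h1 : 0 ≤ ∫ ω in A, Y s ω ∂P := by
    refine le_of_forall_pos_le_add fun e he => ?_
    have := nonneg_aux hB hZ hJ hIto heq hξ hD hsT hA (e := e / 6) (by positivity)
    linarith
  have h2 : ∫ ω in A, Y s ω ∂P ≤ 0 := by
    refine setIntegral_nonpos hAm fun ω hω => ?_
    have : Y s ω < 0 := by simpa [hAdef] using hω
    exact this.le
  have h3 : ∫ ω in A, -(Y s ω) ∂P = 0 := by
    rw [integral_neg, le_antisymm h2 h1, neg_zero]
  have h4 : ∀ᵐ ω ∂(P.restrict A), -(Y s ω) = 0 := by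
    have h5 : 0 ≤ᵐ[P.restrict A] fun ω => -(Y s ω) := by
      refine (ae_restrict_iff' hAm).2 (Filter.Eventually.of_forall fun ω hω => ?_)
      have : Y s ω < 0 := by simpa [hAdef] using hω
      show 0 ≤ -(Y s ω)
      linarith
    exact (integral_eq_zero_iff_of_nonneg_ae h5 hYsi.neg.integrableOn).1 h3
  rw [ae_restrict_iff' hAm] at h4
  filter_upwards [h4] with ω hω
  by_contra hcon
  have h6 : Y s ω < 0 := not_le.1 hcon
  have h7 := hω (by simpa [hAdef] using h6)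
  linarith

end

end Pool.Agent.R228.BD
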