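import Pool.Agent.R228.BD.Clamp

/-!
# MP_ed2581_pr: pathwise estimates
-/

open MeasureTheory ProbabilityTheory Filter Topology
open scoped NNReal ENNReal

namespace Pool.Agent.R228.BD

open Pool.Agent.R228.BS (E IsBrownianVec natFilt ClassD)

lemma fgen_nonneg {d : ℕ} (z : E d) : 0 ≤ fgen z := by
  unfold fgen; positivity

lemma log_ge_one {x : ℝ} (hx : 0 ≤ x) : 1 ≤ Real.log (Real.exp 1 + x) := by
  rw [Real.le_log_iff_exp_le (by positivity)]
  linarith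

lemma fgen_le {d : ℕ} (z : E d) : fgen z ≤ ‖z‖ := by
  unfold fgen
  have h1 := log_ge_one (norm_nonneg z)
  have h2 : 1 ≤ √(Real.log (Real.exp 1 + ‖z‖)) := by
    rw [Real.one_le_sqrt]; exact h1
  exact div_le_self (norm_nonneg z) h2

lemma fgen_cont {d : ℕ} : Continuous (fgen (d := d)) := by
  unfold fgen
  refine Continuous.div (by fun_prop) ?_ ?_
  · refine Real.continuous_sqrt.comp ?_
    refine Continuous.log (by fun_prop) fun z => ?_
    positivity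
  · intro z
    have h1 := log_ge_one (norm_nonneg z)
    exact (Real.sqrt_pos.2 (by linarith)).ne'

lemma fgen_ge {d : ℕ} (z v : E d) {q R : ℝ} (hq : 0 < q) (hR : 0 < R) (hv : ‖v‖ = q)
    (h : q ≤ 1 / √(Real.log (Real.exp 1 + R))) :
    q ^ 2 / 2 - ‖v - (2 * q / R) • z‖ ^ 2 / 2 ≤ (2 * q / R) * fgen z := by
  have h1 : ‖v - (2 * q / R) • z‖ ^ 2 =
      q ^ 2 - 2 * ((2 * q / R) * inner ℝ v z) + (2 * q / R) ^ 2 * ‖z‖ ^ 2 := by
    rw [norm_sub_sq_real, inner_smul_right, norm_smul, mul_pow, hv, Real.norm_eq_abs, sq_abs]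
  have h2 : inner ℝ v z ≤ q * ‖z‖ := by
    rw [← hv]; exact real_inner_le_norm v z
  have hα : 0 < 2 * q / R := by positivity
  have key : q * ‖z‖ - (q / R) * ‖z‖ ^ 2 ≤ fgen z := by
    rcases le_total ‖z‖ R with hz | hz
    · have h3 : 0 < √(Real.log (Real.exp 1 + ‖z‖)) :=
        Real.sqrt_pos.2 (by linarith [log_ge_one (norm_nonneg z)])
      have h4 : √(Real.log (Real.exp 1 + ‖z‖)) ≤ √(Real.log (Real.exp 1 + R)) := by
        refine Real.sqrt_le_sqrt (Real.log_le_log (by positivity) (by linarith))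
      have h5 : q ≤ 1 / √(Real.log (Real.exp 1 + ‖z‖)) :=
        h.trans (one_div_le_one_div_of_le h3 h4)
      have h6 : q * ‖z‖ ≤ fgen z := by
        unfold fgen
        calc q * ‖z‖ ≤ (1 / √(Real.log (Real.exp 1 + ‖z‖))) * ‖z‖ := by gcongr
          _ = _ := by rw [one_div_mul_eq_div]
      have h7 : 0 ≤ (q / R) * ‖z‖ ^ 2 := by positivity
      linarith
    · have h3 : q * ‖z‖ ≤ (q / R) * ‖z‖ ^ 2 := by
        have : (q / R) * ‖z‖ ^ 2 = q * ‖z‖ * (‖z‖ / R) := by ring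
        rw [this]
        have h4 : 1 ≤ ‖z‖ / R := by rwa [one_le_div hR]
        have h5 : 0 ≤ q * ‖z‖ := by positivity
        nlinarith
      have := fgen_nonneg z
      linarith
  rw [h1]
  have h8 : (2 * q / R) * (q * ‖z‖ - (q / R) * ‖z‖ ^ 2) ≤ (2 * q / R) * fgen z :=
    mul_le_mul_of_nonneg_left key hα.le
  have h9 : (2 * q / R) * inner ℝ v z ≤ (2 * q / R) * (q * ‖z‖) :=
    mul_le_mul_of_nonneg_left h2 hα.le
  have h10 : (2 * q / R) * (q * ‖z‖ - (q / R) * ‖z‖ ^ 2) =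
    (2 * q / R) * (q * ‖z‖) - (2 * q / R) ^ 2 * ‖z‖ ^ 2 / 2 := by ring
  linarith

lemma sq_diff {d : ℕ} (a b : E d) {δ : ℝ} (hδ : 0 < δ) :
    |‖a‖ ^ 2 - ‖b‖ ^ 2| ≤ (1 + 1 / δ) * ‖a - b‖ ^ 2 + δ * ‖b‖ ^ 2 := by
  have h1 : ‖a‖ ^ 2 = ‖a - b‖ ^ 2 + 2 * inner ℝ (a - b) b + ‖b‖ ^ 2 := by
    have := norm_add_sq_real (a - b) b
    rw [sub_add_cancel] at this
    exact this
  have h2 : |inner ℝ (a - b) b| ≤ ‖a - b‖ * ‖b‖ := abs_real_inner_le_norm _ _
  have h3 : 2 * (‖a - b‖ * ‖b‖) ≤ (1 / δ) * ‖a - b‖ ^ 2 + δ * ‖b‖ ^ 2 := by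
    have h4 : 0 ≤ (1 / δ) * (‖a - b‖ - δ * ‖b‖) ^ 2 := by positivity
    have h5 : (1 / δ) * (‖a - b‖ - δ * ‖b‖) ^ 2 =
        (1 / δ) * ‖a - b‖ ^ 2 + δ * ‖b‖ ^ 2 - 2 * (‖a - b‖ * ‖b‖) := by
      field_simp
      ring
    linarith
  rw [h1, show ‖a - b‖ ^ 2 + 2 * inner ℝ (a - b) b + ‖b‖ ^ 2 - ‖b‖ ^ 2 =
    ‖a - b‖ ^ 2 + 2 * inner ℝ (a - b) b by ring]
  calc |‖a - b‖ ^ 2 + 2 * inner ℝ (a - b) b|
      ≤ |‖a - b‖ ^ 2| + |2 * inner ℝ (a - b) b| := abs_add_le _ _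
    _ = ‖a - b‖ ^ 2 + 2 * |inner ℝ (a - b) b| := by
        rw [abs_of_nonneg (by positivity), abs_mul, abs_two]
    _ ≤ _ := by nlinarith

section
variable {d : ℕ} {T : ℝ} {z vv : ℝ → E d}

/-- square integrable paths on `(0,T]` -/
structure SqInt {d : ℕ} (T : ℝ) (z : ℝ → E d) : Prop where
  meas : AEStronglyMeasurable z (volume.restrict (Set.Ioc 0 T))
  int : IntegrableOn (fun r => ‖z r‖ ^ 2) (Set.Ioc 0 T)

lemma SqInt.lin (hz : SqInt T z) (v : E d) (α : ℝ) : SqInt T (fun r => v - α • z r) := by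
  have hm : AEStronglyMeasurable (fun r => v - α • z r) (volume.restrict (Set.Ioc 0 T)) :=
    aestronglyMeasurable_const.sub (hz.meas.const_smul α)
  refine ⟨hm, ?_⟩
  have hb : IntegrableOn (fun r => 2 * ‖v‖ ^ 2 + 2 * α ^ 2 * ‖z r‖ ^ 2) (Set.Ioc 0 T) :=
    (integrableOn_const (by simp)).add (hz.int.const_mul _)
  refine Integrable.mono' hb (hm.norm.pow 2) (Filter.Eventually.of_forall fun r => ?_)
  rw [Real.norm_eq_abs, abs_of_nonneg (by positivity)]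
  have h1 : ‖v - α • z r‖ ≤ ‖v‖ + |α| * ‖z r‖ := by
    refine (norm_sub_le _ _).trans ?_
    rw [norm_smul, Real.norm_eq_abs]
  have h2 : 0 ≤ |α| * ‖z r‖ := by positivity
  have h3 : (|α| * ‖z r‖) ^ 2 = α ^ 2 * ‖z r‖ ^ 2 := by rw [mul_pow, sq_abs]
  nlinarith [norm_nonneg (v - α • z r), norm_nonneg v, sq_nonneg (‖v‖ - |α| * ‖z r‖)]

lemma SqInt.sub (hz : SqInt T z) (hv : SqInt T vv) : SqInt T (fun r => vv r - z r) := by
  have hm : AEStronglyMeasurable (fun r => vv r - z r) (volume.restrict (Set.Ioc 0 T)) :=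
    hv.meas.sub hz.meas
  refine ⟨hm, ?_⟩
  have hb : IntegrableOn (fun r => 2 * ‖vv r‖ ^ 2 + 2 * ‖z r‖ ^ 2) (Set.Ioc 0 T) :=
    (hv.int.const_mul _).add (hz.int.const_mul _)
  refine Integrable.mono' hb (hm.norm.pow 2) (Filter.Eventually.of_forall fun r => ?_)
  rw [Real.norm_eq_abs, abs_of_nonneg (by positivity)]
  have h1 : ‖vv r - z r‖ ≤ ‖vv r‖ + ‖z r‖ := norm_sub_le _ _
  nlinarith [norm_nonneg (vv r - z r), norm_nonneg (vv r), norm_nonneg (z r),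
    sq_nonneg (‖vv r‖ - ‖z r‖)]

lemma SqInt.fint (hz : SqInt T z) : IntegrableOn (fun r => fgen (z r)) (Set.Ioc 0 T) := by
  have hb : IntegrableOn (fun r => 1 + ‖z r‖ ^ 2) (Set.Ioc 0 T) :=
    (integrableOn_const (by simp)).add hz.int
  refine Integrable.mono' hb (fgen_cont.comp_aestronglyMeasurable hz.meas)
    (Filter.Eventually.of_forall fun r => ?_)
  rw [Real.norm_eq_abs, abs_of_nonneg (fgen_nonneg _)]
  have := fgen_le (z r)
  nlinarith [sq_nonneg (‖z r‖ - 1)]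

lemma ioc_sub {s r T : ℝ} (hs : 0 ≤ s) (hr : r ≤ T) : Set.Ioc s r ⊆ Set.Ioc 0 T := fun _ h =>
  ⟨hs.trans_lt h.1, h.2.trans hr⟩

lemma path_close (hz : SqInt T z) (hv : SqInt T vv) (v : E d) (α : ℝ) {δ : ℝ} (hδ : 0 < δ)
    {s r t : ℝ} (hs : 0 ≤ s) (hsr : s ≤ r) (hrt : r ≤ t) (htT : t ≤ T) :
    |(∫ x in s..r, ‖v - α • vv x‖ ^ 2) - ∫ x in s..r, ‖v - α • z x‖ ^ 2| ≤
      (1 + 1 / δ) * α ^ 2 * (∫ x in Set.Ioc 0 T, ‖vv x - z x‖ ^ 2) +
        δ * ∫ x in s..t, ‖v - α • z x‖ ^ 2 := by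
  have hsub : Set.Ioc s r ⊆ Set.Ioc 0 T := ioc_sub hs (hrt.trans htT)
  have i1 := ((hv.lin v α).int).mono_set hsub
  have i2 := ((hz.lin v α).int).mono_set hsub
  have i3 := ((hz.sub hv).int)
  have i4 := ((hz.lin v α).int).mono_set (ioc_sub hs htT)
  rw [intervalIntegral.integral_of_le hsr, intervalIntegral.integral_of_le hsr,
    intervalIntegral.integral_of_le (hsr.trans hrt), ← integral_sub i1 i2]
  calc |∫ x in Set.Ioc s r, (‖v - α • vv x‖ ^ 2 - ‖v - α • z x‖ ^ 2)|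
      ≤ ∫ x in Set.Ioc s r, |‖v - α • vv x‖ ^ 2 - ‖v - α • z x‖ ^ 2| := abs_integral_le_integral_abs
    _ ≤ ∫ x in Set.Ioc s r, ((1 + 1 / δ) * α ^ 2 * ‖vv x - z x‖ ^ 2 +
          δ * ‖v - α • z x‖ ^ 2) := by
        refine integral_mono (i1.sub i2).abs
          (((i3.mono_set hsub).const_mul _).add (i2.const_mul _)) fun x => ?_
        simp only
        have h := sq_diff (v - α • vv x) (v - α • z x) hδ
        have h2 : ‖v - α • vv x - (v - α • z x)‖ ^ 2 = α ^ 2 * ‖vv x - z x‖ ^ 2 := by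
          have : v - α • vv x - (v - α • z x) = (-α) • (vv x - z x) := by
            rw [neg_smul, smul_sub]; abel
          rw [this, norm_smul, mul_pow, Real.norm_eq_abs, sq_abs]
          ring
        rw [h2] at h
        linarith
    _ = (1 + 1 / δ) * α ^ 2 * (∫ x in Set.Ioc s r, ‖vv x - z x‖ ^ 2) +
          δ * ∫ x in Set.Ioc s r, ‖v - α • z x‖ ^ 2 := by
        rw [integral_add ((i3.mono_set hsub).const_mul _) (i2.const_mul _), integral_const_mul,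
          integral_const_mul]
    _ ≤ _ := by
        gcongr
        · exact Filter.Eventually.of_forall fun x => by positivity
        · exact Filter.Eventually.of_forall fun x => by positivity

lemma path_f (hz : SqInt T z) {v : E d} {q R : ℝ} (hq : 0 < q) (hR : 0 < R) (hv : ‖v‖ = q)
    (h : q ≤ 1 / √(Real.log (Real.exp 1 + R))) {s r : ℝ} (hs : 0 ≤ s) (hsr : s ≤ r)
    (hrT : r ≤ T) :
    q ^ 2 / 2 * (r - s) - (∫ x in s..r, ‖v - (2 * q / R) • z x‖ ^ 2) / 2 ≤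
      (2 * q / R) * ∫ x in s..r, fgen (z x) := by
  have hsub : Set.Ioc s r ⊆ Set.Ioc 0 T := ioc_sub hs hrT
  have i1 := ((hz.lin v (2 * q / R)).int).mono_set hsub
  have i2 := hz.fint.mono_set hsub
  rw [intervalIntegral.integral_of_le hsr, intervalIntegral.integral_of_le hsr,
    ← integral_const_mul, ← integral_div]
  have h1 : q ^ 2 / 2 * (r - s) = ∫ _ in Set.Ioc s r, q ^ 2 / 2 := by
    rw [setIntegral_const, smul_eq_mul, measureReal_def, Real.volume_Ioc,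
      ENNReal.toReal_ofReal (sub_nonneg.2 hsr)]
    ring
  have i0 : IntegrableOn (fun _ : ℝ => q ^ 2 / 2) (Set.Ioc s r) := integrableOn_const (by simp)
  have i3 : IntegrableOn (fun x : ℝ => ‖v - (2 * q / R) • z x‖ ^ 2 / 2) (Set.Ioc s r) :=
    i1.div_const 2
  rw [h1, ← integral_sub i0 i3]
  refine integral_mono (i0.sub i3) (i2.const_mul _) fun x => ?_
  exact fgen_ge (z x) v hq hR hv h

end

end Pool.Agent.R228.BD
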