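import Pool.Agent.R228.BD.Est
import Pool.Agent.R228.BS.Ito

/-!
# MP_ed2581_pr: the exponential inequality (limit argument)
-/

open MeasureTheory ProbabilityTheory Filter Topology
open scoped NNReal ENNReal

namespace Pool.Agent.R228.BD

open Pool.Agent.R228.BS (E IsBrownianVec natFilt ClassD conv0)

lemma inv_tendsto : Tendsto (fun m : ℕ => ((m : ℝ≥0∞) + 1)⁻¹) atTop (𝓝 0) := by
  have h := ENNReal.tendsto_inv_nat_nhds_zero.comp (tendsto_add_atTop_nat 1)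
  refine h.congr fun m => ?_
  simp

section
variable {Ω : Type*} [mΩ : MeasurableSpace Ω] {P : Measure Ω} [IsProbabilityMeasure P]
  {F : Filtration ℝ≥0 mΩ} {d : ℕ} {B : ℝ≥0 → Ω → E d} {T : ℝ≥0} {Z : ℝ≥0 → Ω → E d}

lemma tail_tendsto (hZ : ProgOn F T Z) :
    Tendsto (fun n : ℕ => P {ω | (n : ℝ) < (JZ T Z ω).toReal}) atTop (𝓝 0) := by
  have hm : Measurable (fun ω => (JZ T Z ω).toReal) := (JZ_meas hZ).ennreal_toReal
  refine conv0 (f := fun n ω => ((JZ T Z ω).toReal + 1) / ((n : ℝ) + 1))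
    (fun n => ((hm.add_const 1).div_const _).aestronglyMeasurable)
    (Filter.Eventually.of_forall fun ω => ?_) one_pos (fun n => ?_)
  · have h1 := (tendsto_one_div_add_atTop_nhds_zero_nat (𝕜 := ℝ)).const_mul
      ((JZ T Z ω).toReal + 1)
    rw [mul_zero] at h1
    refine h1.congr fun n => ?_
    rw [mul_one_div]
  · refine Filter.Eventually.of_forall fun ω hω => ?_
    have h1 : (n : ℝ) < (JZ T Z ω).toReal := by simpa using hω
    rw [le_div_iff₀ (by positivity)]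
    linarith

lemma star_ineq (hB : IncVec P F B) (hZ : ProgOn F T Z)
    (hJ : ∀ᵐ ω ∂P, JZ T Z ω < ∞) {M Y : ℝ≥0 → Ω → ℝ} {ξ : Ω → ℝ} (hIto : IsIto P F B T Z M)
    (heq : ∀ᵐ ω ∂P, ∀ t : ℝ≥0, t ≤ T →
      Y t ω = ξ ω + (∫ s in (t : ℝ)..T, fgen (Z s.toNNReal ω)) - (M T ω - M t ω))
    (hYm : ∀ t ≤ T, Measurable[F t] (Y t)) (hpos : ∀ t ≤ T, ∀ᵐ ω ∂P, 0 ≤ Y t ω)
    {s t : ℝ≥0} (hst : s ≤ t) (htT : t ≤ T) {q R : ℝ} (hq : 0 < q) (hR : 0 < R)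
    (h : q ≤ 1 / √(Real.log (Real.exp 1 + R))) {v : E d} (hv : ‖v‖ = q)
    {A : Set Ω} (hA : MeasurableSet[F s] A) :
    ∫⁻ ω in A, ENNReal.ofReal (Real.exp (-(2 * q / R) * Y s ω)) ∂P ≤
      ∫⁻ ω in A, ENNReal.ofReal (Real.exp (inner ℝ v (B t ω - B s ω)
          - q ^ 2 * ((t : ℝ) - s) / 2 - (2 * q / R) * Y t ω)) ∂P := by
  obtain ⟨V, hV1, hV2⟩ := hIto
  set L := ∫⁻ ω in A, ENNReal.ofReal (Real.exp (-(2 * q / R) * Y s ω)) ∂P with hL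
  set Rr := ∫⁻ ω in A, ENNReal.ofReal (Real.exp (inner ℝ v (B t ω - B s ω)
          - q ^ 2 * ((t : ℝ) - s) / 2 - (2 * q / R) * Y t ω)) ∂P with hRr
  set K := ENNReal.ofReal (Real.exp (q ^ 2 * ((t : ℝ) - s))) with hK
  set p : ℕ → ℝ≥0∞ := fun n => P {ω | (n : ℝ) < (JZ T Z ω).toReal} with hp
  have hp0 : Tendsto p atTop (𝓝 0) := tail_tendsto hZ
  have hα0 : 0 < 2 * q / R := by positivity
  have hst' : (0 : ℝ) ≤ (t : ℝ) - s := sub_nonneg.2 (by exact_mod_cast hst)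
  set cc : ℕ → ℝ≥0∞ := fun n => ENNReal.ofReal (Real.exp (1 + 2 * q ^ 2 * ((t : ℝ) - s) +
          2 * (2 * q / R) ^ 2 * (n : ℝ))) with hcc
  -- step A
  have stepA : ∀ (m n₁ n₂ a b : ℕ), L ≤ ENNReal.ofReal (Real.exp (1 / ((m : ℝ) + 1))) * Rr +
      ENNReal.ofReal (Real.exp (1 / ((m : ℝ) + 1))) * (((b : ℝ≥0∞) + 1)⁻¹ * K +
        (((b : ℝ≥0∞) + 1)⁻¹)⁻¹ * p n₁) +
      (((a : ℝ≥0∞) + 1)⁻¹ * cc n₁ + (((a : ℝ≥0∞) + 1)⁻¹)⁻¹ * p n₂) := by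
    intro m n₁ n₂ a b
    set η : ℝ := 1 / ((m : ℝ) + 1) with hη
    have hη0 : 0 < η := by positivity
    have hη1 : η ≤ 1 := by
      rw [hη, div_le_one (by positivity)]
      linarith [(Nat.cast_nonneg m : (0 : ℝ) ≤ m)]
    set C₂ : ℝ := 2 * q ^ 2 * ((t : ℝ) - s) + 2 * (2 * q / R) ^ 2 * (n₂ : ℝ) with hC₂
    have hC₂0 : 0 ≤ C₂ := by positivity
    obtain ⟨δ, hδ, hδ2⟩ : ∃ δ : ℝ, 0 < δ ∧ δ * C₂ ≤ η / 2 := by
      refine ⟨η / (2 * (C₂ + 1)), by positivity, ?_⟩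
      rw [div_mul_eq_mul_div, div_le_div_iff₀ (by positivity) (by positivity)]
      nlinarith
    obtain ⟨ε₂, hε₂, hε₂2⟩ : ∃ ε₂ : ℝ, 0 < ε₂ ∧ (1 + 1 / δ) * (2 * q / R) ^ 2 * ε₂ ≤ η / 2 := by
      refine ⟨η / (2 * ((1 + 1 / δ) * (2 * q / R) ^ 2)), by positivity, le_of_eq ?_⟩
      have : (1 + 1 / δ) * (2 * q / R) ^ 2 ≠ 0 := by positivity
      field_simp
    obtain ⟨ε, hε, hε3⟩ : ∃ ε : ℝ, 0 < ε ∧ 2 * (2 * q / R) * ε ≤ η / 2 := by
      refine ⟨η / (4 * (2 * q / R)), by positivity, le_of_eq ?_⟩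
      field_simp
      norm_num
    have hD : ∀ x : ℕ, ((x : ℝ≥0∞) + 1)⁻¹ ≠ 0 ∧ ((x : ℝ≥0∞) + 1)⁻¹ ≠ ∞ := by
      intro x
      constructor
      · simp
      · simp
    have hcore : ∀ j, L ≤ ENNReal.ofReal (Real.exp η) * Rr +
        ENNReal.ofReal (Real.exp η) * (((b : ℝ≥0∞) + 1)⁻¹ * K +
        (((b : ℝ≥0∞) + 1)⁻¹)⁻¹ * p n₁) +
        (((a : ℝ≥0∞) + 1)⁻¹ * cc n₁ + (((a : ℝ≥0∞) + 1)⁻¹)⁻¹ *
          ((P {ω | ∃ t : ℝ≥0, t ≤ T ∧ ε ≤ |(V j).int B t ω - M t ω|} +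
            P {ω | ENNReal.ofReal ε₂ ≤
              ∫⁻ s in Set.Icc (0 : ℝ) T, ‖(V j).val s.toNNReal ω - Z s.toNNReal ω‖ₑ ^ 2}) +
            p n₂)) := by
      intro j
      have h1 := core_est hB hZ (V j) hJ heq hYm hpos hst htT hq hR h hv hA (ε := ε) (ε₂ := ε₂)
        (δ := δ) (c₁ := n₁) (c₂ := n₂) (η := η) hε hε₂ hδ (Nat.cast_nonneg _)
        (by linarith) (by linarith) (hD a).1 (hD a).2 (hD b).1 (hD b).2
      refine h1.trans ?_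
      gcongr
      exact (measure_union_le _ _).trans (add_le_add_left (measure_union_le _ _) _)
    refine ge_of_tendsto' (x := atTop) ?_ hcore
    have t1 := hV2 ε hε
    have t2 := hV1 (ENNReal.ofReal ε₂) (by simpa using hε₂)
    have t3 := ((t1.add t2).add (tendsto_const_nhds (x := p n₂)))
    rw [add_zero, zero_add] at t3
    refine Tendsto.const_add _ (Tendsto.const_add _ ?_)
    exact ENNReal.Tendsto.const_mul t3 (Or.inr (by simp))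
  -- step B
  have stepB : ∀ (m n₁ a b : ℕ), L ≤ ENNReal.ofReal (Real.exp (1 / ((m : ℝ) + 1))) * Rr +
      ENNReal.ofReal (Real.exp (1 / ((m : ℝ) + 1))) * (((b : ℝ≥0∞) + 1)⁻¹ * K +
        (((b : ℝ≥0∞) + 1)⁻¹)⁻¹ * p n₁) +
      (((a : ℝ≥0∞) + 1)⁻¹ * cc n₁ + 0) := by
    intro m n₁ a b
    refine ge_of_tendsto' (x := atTop) ?_ fun n₂ => stepA m n₁ n₂ a b
    refine Tendsto.const_add _ (Tendsto.const_add _ ?_)
    have := ENNReal.Tendsto.const_mul (a := (((a : ℝ≥0∞) + 1)⁻¹)⁻¹) hp0 (Or.inr (by simp))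
    rwa [mul_zero] at this
  -- step C
  have stepC : ∀ (m n₁ b : ℕ), L ≤ ENNReal.ofReal (Real.exp (1 / ((m : ℝ) + 1))) * Rr +
      ENNReal.ofReal (Real.exp (1 / ((m : ℝ) + 1))) * (((b : ℝ≥0∞) + 1)⁻¹ * K +
        (((b : ℝ≥0∞) + 1)⁻¹)⁻¹ * p n₁) + 0 := by
    intro m n₁ b
    refine ge_of_tendsto' (x := atTop) ?_ fun a => stepB m n₁ a b
    refine Tendsto.const_add _ ?_
    have := ENNReal.Tendsto.mul_const (b := cc n₁) inv_tendsto (Or.inr (by simp [hcc]))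
    rw [zero_mul] at this
    simpa using this
  -- step D
  have stepD : ∀ (m b : ℕ), L ≤ ENNReal.ofReal (Real.exp (1 / ((m : ℝ) + 1))) * Rr +
      ENNReal.ofReal (Real.exp (1 / ((m : ℝ) + 1))) * (((b : ℝ≥0∞) + 1)⁻¹ * K + 0) + 0 := by
    intro m b
    refine ge_of_tendsto' (x := atTop) ?_ fun n₁ => stepC m n₁ b
    refine Tendsto.add_const _ (Tendsto.const_add _ ?_)
    refine ENNReal.Tendsto.const_mul (Tendsto.const_add _ ?_) (Or.inr (by simp))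
    have := ENNReal.Tendsto.const_mul (a := (((b : ℝ≥0∞) + 1)⁻¹)⁻¹) hp0 (Or.inr (by simp))
    rwa [mul_zero] at this
  -- step E
  have stepE : ∀ (m : ℕ), L ≤ ENNReal.ofReal (Real.exp (1 / ((m : ℝ) + 1))) * Rr +
      ENNReal.ofReal (Real.exp (1 / ((m : ℝ) + 1))) * 0 := by
    intro m
    have hb : ∀ b : ℕ, L ≤ ENNReal.ofReal (Real.exp (1 / ((m : ℝ) + 1))) * Rr +
      ENNReal.ofReal (Real.exp (1 / ((m : ℝ) + 1))) * (((b : ℝ≥0∞) + 1)⁻¹ * K) := by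
      intro b
      have := stepD m b
      rwa [add_zero, add_zero] at this
    refine ge_of_tendsto' (x := atTop) ?_ hb
    refine Tendsto.const_add _ ?_
    refine ENNReal.Tendsto.const_mul ?_ (Or.inr (by simp))
    have := ENNReal.Tendsto.mul_const (b := K) inv_tendsto (Or.inr (by simp [hK]))
    rwa [zero_mul] at this
  -- step F
  have stepF : L ≤ 1 * Rr := by
    have hb : ∀ m : ℕ, L ≤ ENNReal.ofReal (Real.exp (1 / ((m : ℝ) + 1))) * Rr := by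
      intro m
      have := stepE m
      rwa [mul_zero, add_zero] at this
    refine ge_of_tendsto' (x := atTop) ?_ hb
    refine ENNReal.Tendsto.mul_const ?_ (Or.inl one_ne_zero)
    have h1 : Tendsto (fun m : ℕ => ENNReal.ofReal (Real.exp (1 / ((m : ℝ) + 1)))) atTop
        (𝓝 (ENNReal.ofReal (Real.exp 0))) := by
      refine ENNReal.tendsto_ofReal ((Real.continuous_exp.tendsto 0).comp ?_)
      exact tendsto_one_div_add_atTop_nhds_zero_nat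
    simpa using h1
  simpa using stepF

end

end Pool.Agent.R228.BD
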